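import Pool.Agent.Work.MP_609cce_lc_alg2.AELim

/-!
# Good parameters for finitely many lengths
-/

namespace OAlg

open ORDist hiding stepA stepR stepA_congr stepR_congr orc lang
open OEth hiding Par orc lang par par_wf par_agr Agr
open Orc Finset
open Classical

set_option linter.unusedSectionVars false

variable {Φ : Fields}

/-- some parameters -/
noncomputable def par0 (Φ : Fields) : Par Φ where
  par := ⟨fun x => List.replicate (x.length + 1) false,
    fun T => List.replicate (maxlen T + 1) false, fun _ => false, fun y => y⟩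
  V := fun _ _ _ => 0

theorem par0_wf (Φ : Fields) : (par0 Φ).WF := by
  refine ⟨⟨fun x => ?_, fun T => ?_, fun y => rfl⟩, fun s n => ⟨⟨fun _ => 0, ?_⟩, fun b => rfl⟩⟩
  · exact List.length_replicate
  · exact List.length_replicate
  · funext z
    show (0 : Φ.K s) = _
    simp [qval]

theorem Par.ext' {p p' : Par Φ} (h1 : ∀ x, p.par.base x = p'.par.base x)
    (h2 : ∀ T, p.par.g T = p'.par.g T) (h3 : ∀ γ, p.par.pad γ = p'.par.pad γ)
    (h4 : ∀ y, p.par.om y = p'.par.om y) (h5 : ∀ s k, p.V s k = p'.V s k) : p = p' := by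
  obtain ⟨⟨b, g, pd, om⟩, V⟩ := p
  obtain ⟨⟨b', g', pd', om'⟩, V'⟩ := p'
  simp only at h1 h2 h3 h4 h5
  rw [funext h1, funext h2, funext h3, funext h4, funext fun s => funext fun k => h5 s k]

/-- the parameters agree outside the coordinates of size less than `b` -/
structure AgrO (p p' : Par Φ) (b : ℕ) : Prop where
  base : ∀ x : Str, b ≤ x.length → p.par.base x = p'.par.base x
  g : ∀ T : List Str, b ≤ (seqBits T).length → p.par.g T = p'.par.g T
  pad : ∀ γ : Str, b ≤ γ.length → p.par.pad γ = p'.par.pad γ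
  om : ∀ y : Str, b ≤ y.length → p.par.om y = p'.par.om y
  V : ∀ (s : Str) (k : ℕ), b ≤ s.length ∨ b ≤ k → p.V s k = p'.V s k

/-- the parameters of size less than `b` -/
def SP (Φ : Fields) (b : ℕ) : Set (Par Φ) := {p | p.WF ∧ AgrO (par0 Φ) p b}

theorem finite_seq (b : ℕ) : Finite {T : List Str // (seqBits T).length < b} := by
  have := finite_lt b
  refine Finite.of_injective
    (fun x : {T : List Str // (seqBits T).length < b} =>
      (⟨seqBits x.1, x.2⟩ : {w : Str // w.length < b})) ?_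
  intro x y h
  exact Subtype.ext (seqBits_inj (congrArg Subtype.val h))

/-- there are finitely many parameters of size less than `b` -/
theorem finite_SP (b : ℕ) : (SP Φ b).Finite := by
  have i1 := finite_lt b
  have i2 := finite_lt (b + 1)
  have i3 := finite_seq b
  rw [← Set.finite_coe_iff]
  let F : SP Φ b → ({w : Str // w.length < b} → {w : Str // w.length < b + 1}) ×
      ({T : List Str // (seqBits T).length < b} → {w : Str // w.length < b + 1}) ×
      ({w : Str // w.length < b} → Bool) ×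
      ({w : Str // w.length < b} → {w : Str // w.length < b}) ×
      (∀ c : IC 0 b, CU Φ c → CM Φ c) := fun p =>
    (fun x => ⟨p.1.par.base x.1, by rw [p.2.1.wf.base_len]; have := x.2; omega⟩,
      fun T => ⟨p.1.par.g T.1, by
        rw [p.2.1.wf.g_len]
        have h1 := maxlen_le_seqBits T.1
        have h2 := T.2
        omega⟩,
      fun γ => p.1.par.pad γ.1,
      fun y => ⟨p.1.par.om y.1, by rw [p.2.1.wf.om_len]; exact y.2⟩,
      fun c => p.1.V c.1.1 c.1.2)
  refine Finite.of_injective F fun p p' h => Subtype.ext ?_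
  simp only [F, Prod.mk.injEq] at h
  obtain ⟨h1, h2, h3, h4, h5⟩ := h
  refine Par.ext' (fun x => ?_) (fun T => ?_) (fun γ => ?_) (fun y => ?_) fun s k => ?_
  · by_cases hx : x.length < b
    · exact congrArg Subtype.val (congrFun h1 ⟨x, hx⟩)
    · rw [← p.2.2.base x (not_lt.1 hx), ← p'.2.2.base x (not_lt.1 hx)]
  · by_cases hT : (seqBits T).length < b
    · exact congrArg Subtype.val (congrFun h2 ⟨T, hT⟩)
    · rw [← p.2.2.g T (not_lt.1 hT), ← p'.2.2.g T (not_lt.1 hT)]
  · by_cases hγ : γ.length < b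
    · exact congrFun h3 ⟨γ, hγ⟩
    · rw [← p.2.2.pad γ (not_lt.1 hγ), ← p'.2.2.pad γ (not_lt.1 hγ)]
  · by_cases hy : y.length < b
    · exact congrArg Subtype.val (congrFun h4 ⟨y, hy⟩)
    · rw [← p.2.2.om y (not_lt.1 hy), ← p'.2.2.om y (not_lt.1 hy)]
  · by_cases hs : s.length < b ∧ k < b
    · exact congrFun h5 ⟨(s, k), hs.1, Nat.zero_le _, hs.2⟩
    · have hs' : b ≤ s.length ∨ b ≤ k := by omega
      rw [← p.2.2.V s k hs', ← p'.2.2.V s k hs']

theorem par0_mem (Φ : Fields) (b : ℕ) : par0 Φ ∈ SP Φ b :=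
  ⟨par0_wf Φ, fun _ _ => rfl, fun _ _ => rfl, fun _ _ => rfl, fun _ _ => rfl, fun _ _ _ => rfl⟩

section

variable {n N : ℕ}

/-- the world of the window in the parameters `p` -/
noncomputable def coW (p : Par Φ) (n N : ℕ) : WW Φ n N :=
  (fun c => match c with
    | .inl (.inl x) => (p.par.base x.1).take 1
    | .inl (.inr x) => (p.par.base x.1).drop 1
    | .inr (.inl y) => p.par.om y.1
    | .inr (.inr t) => p.par.g t.1,
  fun γ => p.par.pad γ.1, fun c => p.V c.1.1 c.1.2)

theorem coW_mem {p : Par Φ} (hp : p.WF) : coW p n N ∈ allW Φ n N := by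
  rw [mem_allW]
  refine ⟨fun c => ?_, fun c => hp.van _ _⟩
  match c with
  | .inl (.inl x) =>
    show (p.par.base x.1).take 1 ∈ ({[false], [true]} : Finset Str)
    have h1 : ((p.par.base x.1).take 1).length = 1 := by
      rw [List.length_take, hp.wf.base_len]
      omega
    obtain ⟨a, ha⟩ := List.length_eq_one_iff.1 h1
    rw [ha, mem_insert, mem_singleton]
    cases a <;> simp
  | .inl (.inr x) =>
    show (p.par.base x.1).drop 1 ∈ sF n
    rw [mem_sF, List.length_drop, hp.wf.base_len, x.2]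
    omega
  | .inr (.inl y) =>
    show p.par.om y.1 ∈ sF y.1.length
    rw [mem_sF, hp.wf.om_len]
  | .inr (.inr t) =>
    show p.par.g t.1 ∈ sF (maxlen t.1 + 1)
    rw [mem_sF, hp.wf.g_len]

/-- exchanging twice gives nothing new -/
theorem par_par (p : Par Φ) (θ : WW Φ n N) : par (par p θ) (coW p n N) = p := by
  refine Par.ext' (fun x => ?_) (fun T => ?_) (fun γ => ?_) (fun y => ?_) fun s k => ?_
  · show (if h : x.length = n then (p.par.base x).take 1 ++ (p.par.base x).drop 1 else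
      if h : x.length = n then _ else p.par.base x) = _
    by_cases h : x.length = n
    · rw [dif_pos h, List.take_append_drop]
    · rw [dif_neg h, dif_neg h]
  · show (if h : n ≤ maxlen T ∧ (seqBits T).length < N then p.par.g T else
      if h : n ≤ maxlen T ∧ (seqBits T).length < N then _ else p.par.g T) = _
    by_cases h : n ≤ maxlen T ∧ (seqBits T).length < N
    · rw [dif_pos h]
    · rw [dif_neg h, dif_neg h]
  · show (if h : n + 1 ≤ γ.length ∧ γ.length < N then p.par.pad γ else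
      if h : n + 1 ≤ γ.length ∧ γ.length < N then _ else p.par.pad γ) = _
    by_cases h : n + 1 ≤ γ.length ∧ γ.length < N
    · rw [dif_pos h]
    · rw [dif_neg h, dif_neg h]
  · show (if h : n ≤ y.length ∧ y.length < N then p.par.om y else
      if h : n ≤ y.length ∧ y.length < N then _ else p.par.om y) = _
    by_cases h : n ≤ y.length ∧ y.length < N
    · rw [dif_pos h]
    · rw [dif_neg h, dif_neg h]
  · show (if h : s.length < N ∧ n ≤ k ∧ k < N then p.V s k else
      if h : s.length < N ∧ n ≤ k ∧ k < N then _ else p.V s k) = _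
    by_cases h : s.length < N ∧ n ≤ k ∧ k < N
    · rw [dif_pos h]
    · rw [dif_neg h, dif_neg h]

theorem coW_par {p : Par Φ} {θ : WW Φ n N} (hθ : θ ∈ allW Φ n N) : coW (par p θ) n N = θ := by
  rw [mem_allW] at hθ
  refine Prod.ext (funext fun c => ?_) (Prod.ext (funext fun γ => ?_) (funext fun c => ?_))
  · match c with
    | .inl (.inl x) =>
      show ((par p θ).par.base x.1).take 1 = _
      have e : (par p θ).par.base x.1 = θ.1 (cb x) ++ θ.1 (cu x) := par_base x
      have h1 : θ.1 (cb x) ∈ ({[false], [true]} : Finset Str) := hθ.1 (cb x)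
      have h2 : (θ.1 (cb x)).length = 1 := by
        rw [mem_insert, mem_singleton] at h1
        rcases h1 with h1 | h1 <;> rw [h1] <;> rfl
      rw [e, List.take_append_of_le_length (by omega), List.take_of_length_le (by omega)]
    | .inl (.inr x) =>
      show ((par p θ).par.base x.1).drop 1 = _
      have e : (par p θ).par.base x.1 = θ.1 (cb x) ++ θ.1 (cu x) := par_base x
      have h1 : θ.1 (cb x) ∈ ({[false], [true]} : Finset Str) := hθ.1 (cb x)
      have h2 : (θ.1 (cb x)).length = 1 := by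
        rw [mem_insert, mem_singleton] at h1
        rcases h1 with h1 | h1 <;> rw [h1] <;> rfl
      rw [e]
      exact List.drop_left' h2
    | .inr (.inl y) => exact par_om (π := θ.2.1) y
    | .inr (.inr t) => exact par_g (π := θ.2.1) t
  · exact par_pad (η := θ.1) (π := θ.2.1) γ
  · show (par p θ).V c.1.1 c.1.2 = _
    show (if h : c.1.1.length < N ∧ n ≤ c.1.2 ∧ c.1.2 < N then θ.2.2 ⟨(c.1.1, c.1.2), h⟩
      else p.V c.1.1 c.1.2) = _
    rw [dif_pos c.2]

theorem par_mem_SP {p : Par Φ} {b : ℕ} (hp : p ∈ SP Φ b) {θ : WW Φ n N} (hθ : θ ∈ allW Φ n N)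
    (hn : n < N) (hN : N ≤ b) : par p θ ∈ SP Φ b := by
  rw [mem_allW] at hθ
  refine ⟨par_wf' (η := θ.1) (ω := θ.2) hp.1 hθ.1 hθ.2, fun x hx => ?_, fun T hT => ?_,
    fun γ hγ => ?_, fun y hy => ?_, fun s k hs => ?_⟩
  · rw [hp.2.base x hx]
    show _ = if h : x.length = n then _ else p.par.base x
    rw [dif_neg (by omega)]
  · rw [hp.2.g T hT]
    show _ = if h : n ≤ maxlen T ∧ (seqBits T).length < N then _ else p.par.g T
    rw [dif_neg (by omega)]
  · rw [hp.2.pad γ hγ]
    show _ = if h : n + 1 ≤ γ.length ∧ γ.length < N then _ else p.par.pad γ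
    rw [dif_neg (by omega)]
  · rw [hp.2.om y hy]
    show _ = if h : n ≤ y.length ∧ y.length < N then _ else p.par.om y
    rw [dif_neg (by omega)]
  · rw [hp.2.V s k hs]
    show _ = if h : s.length < N ∧ n ≤ k ∧ k < N then _ else p.V s k
    rw [dif_neg (by omega)]

end

/-- the bad parameters for one length -/
theorem card_bad {b n N : ℕ} (hn : n < N) (hN : N ≤ b) (Bad : Par Φ → Prop)
    (hbnd : ∀ p : Par Φ, p.WF →
      (((allW Φ n N).filter fun θ => Bad (par p θ)).card : ℝ) * 2 ^ (n + 2) ≤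
        ((allW Φ n N).card : ℝ)) :
    (((finite_SP (Φ := Φ) b).toFinset.filter fun p => Bad p).card : ℝ) * 2 ^ (n + 2) ≤
      ((finite_SP (Φ := Φ) b).toFinset.card : ℝ) := by
  set S := (finite_SP (Φ := Φ) b).toFinset with hS
  have hmem : ∀ p, p ∈ S ↔ p ∈ SP Φ b := fun p => Set.Finite.mem_toFinset _
  set W := allW Φ n N with hW
  have h1 : ((S ×ˢ W).filter fun z => Bad (par z.1 z.2)).card =
      ((S ×ˢ W).filter fun z => Bad z.1).card := by
    refine card_nbij' (fun z => (par z.1 z.2, coW z.1 n N)) (fun z => (par z.1 z.2, coW z.1 n N))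
      ?_ ?_ ?_ ?_
    · intro z hz
      rw [mem_coe, mem_filter, mem_product, hmem] at hz
      rw [mem_coe, mem_filter, mem_product, hmem]
      exact ⟨⟨par_mem_SP hz.1.1 hz.1.2 hn hN, coW_mem hz.1.1.1⟩, hz.2⟩
    · intro z hz
      rw [mem_coe, mem_filter, mem_product, hmem] at hz
      rw [mem_coe, mem_filter, mem_product, hmem]
      refine ⟨⟨par_mem_SP hz.1.1 hz.1.2 hn hN, coW_mem hz.1.1.1⟩, ?_⟩
      show Bad (par (par z.1 z.2) (coW z.1 n N))
      rw [par_par]
      exact hz.2
    · intro z hz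
      rw [mem_coe, mem_filter, mem_product, hmem] at hz
      exact Prod.ext (par_par _ _) (coW_par hz.1.2)
    · intro z hz
      rw [mem_coe, mem_filter, mem_product, hmem] at hz
      exact Prod.ext (par_par _ _) (coW_par hz.1.2)
  have h2 : ((S ×ˢ W).filter fun z => Bad z.1).card = (S.filter fun p => Bad p).card * W.card := by
    rw [← card_product]
    congr 1
    ext z
    simp only [mem_filter, mem_product]
    tauto
  have h3 : (((S ×ˢ W).filter fun z => Bad (par z.1 z.2)).card : ℝ) * 2 ^ (n + 2) ≤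
      S.card * W.card := by
    have e : ((S ×ˢ W).filter fun z => Bad (par z.1 z.2)).card =
        ∑ p ∈ S, (W.filter fun θ => Bad (par p θ)).card := by
      simp only [card_filter, sum_product]
    rw [e, Nat.cast_sum, sum_mul, ← nsmul_eq_mul, ← sum_const]
    exact sum_le_sum fun p hp => hbnd p ((hmem p).1 hp).1
  have h4 : (0 : ℝ) < W.card := Nat.cast_pos.2 (card_pos.2 ⟨_, coW_mem (par0_wf Φ)⟩)
  rw [h1, h2] at h3
  push_cast at h3
  refine le_of_mul_le_mul_right ?_ h4
  calc ((S.filter fun p => Bad p).card : ℝ) * 2 ^ (n + 2) * W.card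
      = (S.filter fun p => Bad p).card * W.card * 2 ^ (n + 2) := by ring
    _ ≤ _ := h3

/-- **Good parameters for finitely many lengths.** -/
theorem exists_ae_fin (Bad : ℕ → Par Φ → Prop) (Nn : ℕ → ℕ) (n0 : ℕ)
    (hN : ∀ n, n < Nn n)
    (hbnd : ∀ n ≥ n0, ∀ p : Par Φ, p.WF →
      (((allW Φ n (Nn n)).filter fun θ => Bad n (par p θ)).card : ℝ) * 2 ^ (n + 2) ≤
        ((allW Φ n (Nn n)).card : ℝ)) (M0 : ℕ) :
    ∃ p : Par Φ, p.WF ∧ ∀ n, n0 ≤ n → n < M0 → ¬ Bad n p := by
  set b : ℕ := (range M0).sup Nn with hb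
  set S := (finite_SP (Φ := Φ) b).toFinset with hS
  have hmem : ∀ p, p ∈ S ↔ p ∈ SP Φ b := fun p => Set.Finite.mem_toFinset _
  have h1 : ∀ n ∈ Ico n0 M0, ((S.filter fun p => Bad n p).card : ℝ) * 2 ^ (n + 2) ≤ S.card := by
    intro n hn
    rw [mem_Ico] at hn
    exact card_bad (hN n) (le_sup (f := Nn) (mem_range.2 hn.2)) (Bad n) (hbnd n hn.1)
  by_contra hcon
  push Not at hcon
  have h2 : S ⊆ (Ico n0 M0).biUnion fun n => S.filter fun p => Bad n p := by
    intro p hp
    obtain ⟨n, g1, g2, g3⟩ := hcon p ((hmem p).1 hp).1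
    exact mem_biUnion.2 ⟨n, mem_Ico.2 ⟨g1, g2⟩, mem_filter.2 ⟨hp, g3⟩⟩
  have h3 : (S.card : ℝ) ≤ ∑ n ∈ Ico n0 M0, ((S.filter fun p => Bad n p).card : ℝ) := by
    have := (card_le_card h2).trans card_biUnion_le
    exact_mod_cast this
  have h0 : (0 : ℝ) < S.card := Nat.cast_pos.2 (card_pos.2 ⟨_, (hmem _).2 (par0_mem Φ b)⟩)
  have h4 : ∀ n ∈ Ico n0 M0, ((S.filter fun p => Bad n p).card : ℝ) ≤
      S.card * (1 / 2) ^ (n + 2) := by
    intro n hn
    have h5 : (0 : ℝ) < 2 ^ (n + 2) := by positivity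
    have h6 : ((1 : ℝ) / 2) ^ (n + 2) = 1 / 2 ^ (n + 2) := by rw [div_pow, one_pow]
    rw [h6, mul_one_div, le_div_iff₀ h5]
    exact h1 n hn
  have h5 : ∀ M : ℕ, ∑ n ∈ range M, ((1 : ℝ) / 2) ^ (n + 2) = 1 / 2 - (1 / 2) ^ (M + 1) := by
    intro M
    induction M with
    | zero => norm_num
    | succ M ih =>
      rw [sum_range_succ, ih]
      ring
  have h6 : ∑ n ∈ Ico n0 M0, ((1 : ℝ) / 2) ^ (n + 2) ≤ 1 / 2 := by
    refine (sum_le_sum_of_subset_of_nonneg (fun n hn => ?_) fun n _ _ => by positivity).trans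
      (?_ : ∑ n ∈ range M0, ((1 : ℝ) / 2) ^ (n + 2) ≤ 1 / 2)
    · rw [mem_Ico] at hn
      exact mem_range.2 hn.2
    · rw [h5]
      have : (0 : ℝ) < (1 / 2) ^ (M0 + 1) := by positivity
      linarith
  have h7 : (S.card : ℝ) ≤ S.card * (1 / 2) := by
    refine (h3.trans (sum_le_sum h4)).trans ?_
    rw [← mul_sum]
    exact mul_le_mul_of_nonneg_left h6 h0.le
  linarith

/-- **Good parameters for almost all lengths.** -/
theorem exists_ae (Bad : ℕ → Par Φ → Prop) (Nn : ℕ → ℕ) (n0 : ℕ)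
    (hN : ∀ n, n < Nn n)
    (hloc : ∀ (n : ℕ) (p p' : Par Φ), p.WF → p'.WF → AgrF p p' (Nn n) → Bad n p → Bad n p')
    (hbnd : ∀ n ≥ n0, ∀ p : Par Φ, p.WF →
      (((allW Φ n (Nn n)).filter fun θ => Bad n (par p θ)).card : ℝ) * 2 ^ (n + 2) ≤
        ((allW Φ n (Nn n)).card : ℝ)) :
    ∃ p : Par Φ, p.WF ∧ ∀ n ≥ n0, ¬ Bad n p :=
  exists_ae_of_fin Bad Nn n0 hloc fun M0 => exists_ae_fin Bad Nn n0 hN hbnd M0

end OAlg
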