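import Pool.Agent.Work.MP_609cce_lc_alg2.LocF

/-!
# Almost everywhere: the limit over an ultrafilter

Every coordinate of the parameters has finitely many values, so there is a limit along an
ultrafilter, and every property of finitely many coordinates passes to the limit.
-/

namespace OAlg

open ORDist hiding stepA stepR stepA_congr stepR_congr orc lang
open OEth hiding orc lang par par_wf par_agr
open Orc
open Filter

variable {Φ : Fields}

/-- a sequence with values in a finite set is constant on a set of the ultrafilter -/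
theorem exists_lim {α : Type} (U : Ultrafilter ℕ) {S : Set α} (hS : S.Finite) {f : ℕ → α}
    (hf : ∀ M, f M ∈ S) : ∃ v ∈ S, ∀ᶠ M in (U : Filter ℕ), f M = v :=
  (Ultrafilter.eventually_exists_mem_iff hS).1 (Eventually.of_forall fun M => ⟨f M, hf M, rfl⟩)

/-- **The limit.** -/
theorem exists_ae_of_fin (Bad : ℕ → OAlg.Par Φ → Prop) (Nn : ℕ → ℕ) (n0 : ℕ)
    (hloc : ∀ (n : ℕ) (p p' : OAlg.Par Φ), p.WF → p'.WF → AgrF p p' (Nn n) → Bad n p → Bad n p')
    (hfin : ∀ M0 : ℕ, ∃ p : OAlg.Par Φ, p.WF ∧ ∀ n, n0 ≤ n → n < M0 → ¬ Bad n p) :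
    ∃ p : OAlg.Par Φ, p.WF ∧ ∀ n ≥ n0, ¬ Bad n p := by
  choose P hP hbad using hfin
  let U : Ultrafilter ℕ := hyperfilter ℕ
  have h1 : ∀ x : Str, ∃ w ∈ {w : Str | w.length = x.length + 1},
      ∀ᶠ M in (U : Filter ℕ), (P M).par.base x = w := fun x =>
    exists_lim U (List.finite_length_eq Bool _) fun M => (hP M).wf.base_len x
  have h2 : ∀ T : List Str, ∃ w ∈ {w : Str | w.length = maxlen T + 1},
      ∀ᶠ M in (U : Filter ℕ), (P M).par.g T = w := fun T =>
    exists_lim U (List.finite_length_eq Bool _) fun M => (hP M).wf.g_len T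
  have h3 : ∀ γ : Str, ∃ b ∈ (Set.univ : Set Bool),
      ∀ᶠ M in (U : Filter ℕ), (P M).par.pad γ = b := fun γ =>
    exists_lim U Set.finite_univ fun M => Set.mem_univ _
  have h4 : ∀ y : Str, ∃ w ∈ {w : Str | w.length = y.length},
      ∀ᶠ M in (U : Filter ℕ), (P M).par.om y = w := fun y =>
    exists_lim U (List.finite_length_eq Bool _) fun M => (hP M).wf.om_len y
  have h5 : ∀ (s : Str) (k : ℕ), ∃ f ∈ {f : (Fin k → Φ.K s) → Φ.K s | Van f},
      ∀ᶠ M in (U : Filter ℕ), (P M).V s k = f := fun s k =>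
    exists_lim U (Set.toFinite _) fun M => (hP M).van s k
  choose base hb1 hb2 using h1
  choose g hg1 hg2 using h2
  choose pad _ hp2 using h3
  choose om ho1 ho2 using h4
  choose V hV1 hV2 using h5
  let p : OAlg.Par Φ := ⟨⟨base, g, pad, om⟩, V⟩
  have hwf : p.WF := ⟨⟨hb1, hg1, ho1⟩, hV1⟩
  refine ⟨p, hwf, fun n hn hB => ?_⟩
  have hfs : {x : Str | x.length < Nn n}.Finite := List.finite_length_lt Bool _
  have hfT : {T : List Str | (seqBits T).length < Nn n}.Finite := by
    refine Set.Finite.of_injOn (f := seqBits) (t := {x : Str | x.length < Nn n})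
      (fun T hT => hT) (fun T _ T' _ h => seqBits_inj h) hfs
  have e1 : ∀ᶠ M in (U : Filter ℕ), ∀ x ∈ {x : Str | x.length < Nn n},
      (P M).par.base x = base x := (eventually_all_finite hfs).2 fun x _ => hb2 x
  have e2 : ∀ᶠ M in (U : Filter ℕ), ∀ T ∈ {T : List Str | (seqBits T).length < Nn n},
      (P M).par.g T = g T := (eventually_all_finite hfT).2 fun T _ => hg2 T
  have e3 : ∀ᶠ M in (U : Filter ℕ), ∀ γ ∈ {x : Str | x.length < Nn n},
      (P M).par.pad γ = pad γ := (eventually_all_finite hfs).2 fun γ _ => hp2 γ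
  have e4 : ∀ᶠ M in (U : Filter ℕ), ∀ y ∈ {x : Str | x.length < Nn n},
      (P M).par.om y = om y := (eventually_all_finite hfs).2 fun y _ => ho2 y
  have e5 : ∀ᶠ M in (U : Filter ℕ), ∀ z ∈ {x : Str | x.length < Nn n} ×ˢ Set.Iio (Nn n),
      (P M).V z.1 z.2 = V z.1 z.2 :=
    (eventually_all_finite (hfs.prod (Set.finite_Iio _))).2 fun z _ => hV2 z.1 z.2
  have e6 : ∀ᶠ M in (U : Filter ℕ), n < M :=
    (Nat.hyperfilter_le_atTop) (eventually_gt_atTop n)
  obtain ⟨M, a1, a2, a3, a4, a5, a6⟩ :=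
    (e1.and (e2.and (e3.and (e4.and (e5.and e6))))).exists
  have hag : AgrF p (P M) (Nn n) :=
    ⟨fun x hx => (a1 x hx).symm, fun T hT => (a2 T hT).symm, fun γ hγ => (a3 γ hγ).symm,
      fun y hy => (a4 y hy).symm, fun s k hs hk => (a5 (s, k) ⟨hs, hk⟩).symm⟩
  exact hbad M n hn a6 (hloc n p (P M) hwf (hP M) hag hB)

end OAlg
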