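import Pool.Agent.Work.MP_609cce_lc_alg2.AEFin

/-!
# Good parameters for almost all lengths: a summable sequence of bounds, countably many procedures
-/

namespace OAlg

open ORDist hiding stepA stepR stepA_congr stepR_congr orc lang
open OEth hiding Par orc lang par par_wf par_agr Agr
open Orc Finset
open Classical

variable {Φ : Fields}

/-- the bad parameters for one length -/
theorem card_bad_eps {b n N : ℕ} (hn : n < N) (hN : N ≤ b) (Bad : Par Φ → Prop) (ε : ℝ)
    (hbnd : ∀ p : Par Φ, p.WF →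
      (((allW Φ n N).filter fun θ => Bad (par p θ)).card : ℝ) ≤ ε * ((allW Φ n N).card : ℝ)) :
    (((finite_SP (Φ := Φ) b).toFinset.filter fun p => Bad p).card : ℝ) ≤
      ε * ((finite_SP (Φ := Φ) b).toFinset.card : ℝ) := by
  set S := (finite_SP (Φ := Φ) b).toFinset with hS
  have hmem : ∀ p, p ∈ S ↔ p ∈ SP Φ b := fun p => Set.Finite.mem_toFinset _
  set W := allW Φ n N with hW
  have h1 : ((S ×ˢ W).filter fun z => Bad (par z.1 z.2)).card =
      ((S ×ˢ W).filter fun z => Bad z.1).card := by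
    refine card_nbij' (fun z => (par z.1 z.2, coW z.1 n N)) (fun z => (par z.1 z.2, coW z.1 n N))
      ?_ ?_ ?_ ?_
    · intro z hz
      rw [mem_coe, mem_filter, mem_product, hmem] at hz
      rw [mem_coe, mem_filter, mem_product, hmem]
      exact ⟨⟨par_mem_SP hz.1.1 hz.1.2 hn hN, coW_mem hz.1.1.1⟩, hz.2⟩
    · intro z hz
      rw [mem_coe, mem_filter, mem_product, hmem] at hz
      rw [mem_coe, mem_filter, mem_product, hmem]
      refine ⟨⟨par_mem_SP hz.1.1 hz.1.2 hn hN, coW_mem hz.1.1.1⟩, ?_⟩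
      show Bad (par (par z.1 z.2) (coW z.1 n N))
      rw [par_par]
      exact hz.2
    · intro z hz
      rw [mem_coe, mem_filter, mem_product, hmem] at hz
      exact Prod.ext (par_par _ _) (coW_par hz.1.2)
    · intro z hz
      rw [mem_coe, mem_filter, mem_product, hmem] at hz
      exact Prod.ext (par_par _ _) (coW_par hz.1.2)
  have h2 : ((S ×ˢ W).filter fun z => Bad z.1).card = (S.filter fun p => Bad p).card * W.card := by
    rw [← card_product]
    congr 1
    ext z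
    simp only [mem_filter, mem_product]
    tauto
  have h3 : (((S ×ˢ W).filter fun z => Bad (par z.1 z.2)).card : ℝ) ≤
      S.card * (ε * W.card) := by
    have e : ((S ×ˢ W).filter fun z => Bad (par z.1 z.2)).card =
        ∑ p ∈ S, (W.filter fun θ => Bad (par p θ)).card := by
      simp only [card_filter, sum_product]
    rw [e, Nat.cast_sum, ← nsmul_eq_mul, ← sum_const]
    exact sum_le_sum fun p hp => hbnd p ((hmem p).1 hp).1
  have h4 : (0 : ℝ) < W.card := Nat.cast_pos.2 (card_pos.2 ⟨_, coW_mem (par0_wf Φ)⟩)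
  rw [h1, h2] at h3
  push_cast at h3
  refine le_of_mul_le_mul_right ?_ h4
  calc ((S.filter fun p => Bad p).card : ℝ) * W.card
      ≤ S.card * (ε * W.card) := h3
    _ = _ := by ring

/-- **Good parameters for almost all lengths**, with a summable sequence of bounds. -/
theorem exists_ae_eps (Bad : ℕ → Par Φ → Prop) (Nn : ℕ → ℕ) (n0 : ℕ)
    (hN : ∀ n, n < Nn n)
    (hloc : ∀ (n : ℕ) (p p' : Par Φ), p.WF → p'.WF → AgrF p p' (Nn n) → Bad n p → Bad n p')
    (ε : ℕ → ℝ) (hε : ∀ M, ∑ n ∈ Ico n0 M, ε n < 1)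
    (hbnd : ∀ n ≥ n0, ∀ p : Par Φ, p.WF →
      (((allW Φ n (Nn n)).filter fun θ => Bad n (par p θ)).card : ℝ) ≤
        ε n * ((allW Φ n (Nn n)).card : ℝ)) :
    ∃ p : Par Φ, p.WF ∧ ∀ n ≥ n0, ¬ Bad n p := by
  refine exists_ae_of_fin Bad Nn n0 hloc fun M0 => ?_
  set b : ℕ := (range M0).sup Nn with hb
  set S := (finite_SP (Φ := Φ) b).toFinset with hS
  have hmem : ∀ p, p ∈ S ↔ p ∈ SP Φ b := fun p => Set.Finite.mem_toFinset _
  have h1 : ∀ n ∈ Ico n0 M0, ((S.filter fun p => Bad n p).card : ℝ) ≤ ε n * S.card := by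
    intro n hn
    rw [mem_Ico] at hn
    exact card_bad_eps (hN n) (le_sup (f := Nn) (mem_range.2 hn.2)) (Bad n) (ε n) (hbnd n hn.1)
  by_contra hcon
  push Not at hcon
  have h2 : S ⊆ (Ico n0 M0).biUnion fun n => S.filter fun p => Bad n p := by
    intro p hp
    obtain ⟨n, g1, g2, g3⟩ := hcon p ((hmem p).1 hp).1
    exact mem_biUnion.2 ⟨n, mem_Ico.2 ⟨g1, g2⟩, mem_filter.2 ⟨hp, g3⟩⟩
  have h3 : (S.card : ℝ) ≤ ∑ n ∈ Ico n0 M0, ((S.filter fun p => Bad n p).card : ℝ) := by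
    have := (card_le_card h2).trans card_biUnion_le
    exact_mod_cast this
  have h0 : (0 : ℝ) < S.card := Nat.cast_pos.2 (card_pos.2 ⟨_, (hmem _).2 (par0_mem Φ b)⟩)
  have h7 : (S.card : ℝ) ≤ (∑ n ∈ Ico n0 M0, ε n) * S.card := by
    rw [sum_mul]
    exact h3.trans (sum_le_sum h1)
  have h8 := hε M0
  nlinarith

/-- one of the procedures of number at most `n` is bad -/
def BadAll (Bd : OProc → ℕ → Par Φ → Prop) (E : ℕ → OProc) (n : ℕ) (p : Par Φ) : Prop :=
  ∃ e ∈ range (n + 1), Bd (E e) n p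

/-- **Countably many procedures**: procedure number `e` is considered from the length `e` on. -/
theorem exists_good_gen {MM : Set OProc} (hMM : MM.Countable) (Bd : OProc → ℕ → Par Φ → Prop)
    (Nn : ℕ → ℕ) (n0 : ℕ) (hN : ∀ n, n < Nn n)
    (hloc : ∀ (M : OProc) (n : ℕ) (p p' : Par Φ), p.WF → p'.WF → AgrF p p' (Nn n) →
      Bd M n p → Bd M n p')
    (ε : ℕ → ℝ) (hε : ∀ M, ∑ n ∈ Ico n0 M, ε n < 1)
    (hbnd : ∀ M : OProc, ∀ n ≥ n0, ∀ p : Par Φ, p.WF → ((n : ℝ) + 1) *
      (((allW Φ n (Nn n)).filter fun θ => Bd M n (par p θ)).card : ℝ) ≤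
        ε n * ((allW Φ n (Nn n)).card : ℝ)) :
    ∃ p : Par Φ, p.WF ∧ ∀ M ∈ MM, ∃ n₀ : ℕ, ∀ n ≥ n₀, ¬ Bd M n p := by
  have : Nonempty OProc := ⟨fun _ => (false, [])⟩
  obtain ⟨E, hE⟩ := Set.countable_iff_exists_subset_range.1 hMM
  have hbnd' : ∀ n ≥ n0, ∀ p : Par Φ, p.WF →
      (((allW Φ n (Nn n)).filter fun θ => BadAll Bd E n (par p θ)).card : ℝ) ≤
        ε n * ((allW Φ n (Nn n)).card : ℝ) := by
    intro n hn p hp
    set W := allW Φ n (Nn n) with hW
    have h1 : (W.filter fun θ => BadAll Bd E n (par p θ)) ⊆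
        (range (n + 1)).biUnion fun e => W.filter fun θ => Bd (E e) n (par p θ) := by
      intro θ hθ
      obtain ⟨h2, e, he, h3⟩ := mem_filter.1 hθ
      exact mem_biUnion.2 ⟨e, he, mem_filter.2 ⟨h2, h3⟩⟩
    have h2 : ((W.filter fun θ => BadAll Bd E n (par p θ)).card : ℝ) ≤
        ∑ e ∈ range (n + 1), ((W.filter fun θ => Bd (E e) n (par p θ)).card : ℝ) := by
      exact_mod_cast (card_le_card h1).trans card_biUnion_le
    have hn1 : (0 : ℝ) < (n : ℝ) + 1 := by positivity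
    have h3 : ∀ e ∈ range (n + 1), ((W.filter fun θ => Bd (E e) n (par p θ)).card : ℝ) ≤
        ε n * W.card / (n + 1) := by
      intro e _
      rw [le_div_iff₀ hn1, mul_comm]
      exact hbnd (E e) n hn p hp
    refine h2.trans ((sum_le_sum h3).trans (le_of_eq ?_))
    rw [sum_const, card_range, nsmul_eq_mul]
    push_cast
    field_simp
  obtain ⟨p, hp, hgood⟩ := exists_ae_eps (BadAll Bd E) Nn n0 hN
    (fun n p p' hp hp' h => by
      rintro ⟨e, he, h1⟩
      exact ⟨e, he, hloc _ n p p' hp hp' h h1⟩) ε hε hbnd'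
  refine ⟨p, hp, fun M hM => ?_⟩
  obtain ⟨e, he⟩ := hE hM
  refine ⟨max n0 e, fun n hn hB => hgood n (le_trans (le_max_left _ _) hn) ⟨e, ?_, ?_⟩⟩
  · rw [mem_range]
    have := le_trans (le_max_right n0 e) hn
    omega
  · rw [he]
    exact hB

end OAlg
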