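import Mathlib

/-!
# From lists of keys to fractions of keys: double counting, small densities
-/

set_option autoImplicit false

namespace OAlg

open Finset
open Classical

theorem descFact_q (r N : ℕ) (q : ℝ) (hq : 0 < q) (hr : 3 * q * N < r) :
    ∀ m : ℕ, (m : ℝ) ≤ q * N → m ≤ N →
      (2 * q) ^ m * (N.descFactorial m : ℝ) ≤ (r.descFactorial m : ℝ) := by
  intro m
  induction m with
  | zero => intro _ _; simp
  | succ m ih =>
    intro hm hmN1
    have hm1 : (m : ℝ) + 1 ≤ q * N := by push_cast at hm; exact hm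
    have hmN : m ≤ N := by omega
    have h1 := ih (by linarith) hmN
    have hN0 : (0 : ℝ) ≤ N := Nat.cast_nonneg N
    have hm0 : (0 : ℝ) ≤ m := Nat.cast_nonneg m
    have hqN : 0 ≤ q * N := by positivity
    have hmr : (m : ℝ) ≤ r := by nlinarith
    have hmr' : m ≤ r := by exact_mod_cast hmr
    rw [Nat.descFactorial_succ, Nat.descFactorial_succ, pow_succ, Nat.cast_mul, Nat.cast_mul,
      Nat.cast_sub hmN, Nat.cast_sub hmr']
    have key : (2 * q) * ((N : ℝ) - m) ≤ (r : ℝ) - m := by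
      have h5 : 0 ≤ q * m := by positivity
      nlinarith
    have hD : (0 : ℝ) ≤ (N.descFactorial m : ℝ) := Nat.cast_nonneg _
    have hrm : (0 : ℝ) ≤ (r : ℝ) - m := by linarith
    calc (2 * q) ^ m * (2 * q) * (((N : ℝ) - m) * (N.descFactorial m : ℝ))
        = ((2 * q) * ((N : ℝ) - m)) * ((2 * q) ^ m * (N.descFactorial m : ℝ)) := by ring
      _ ≤ ((r : ℝ) - m) * ((2 * q) ^ m * (N.descFactorial m : ℝ)) :=
          mul_le_mul_of_nonneg_right key (by positivity)
      _ ≤ ((r : ℝ) - m) * (r.descFactorial m : ℝ) := mul_le_mul_of_nonneg_left h1 hrm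

theorem choose_q (r N : ℕ) (q : ℝ) (hq : 0 < q) (hr : 3 * q * N < r)
    (m : ℕ) (hm : (m : ℝ) ≤ q * N) (hmN : m ≤ N) :
    (2 * q) ^ m * (N.choose m : ℝ) ≤ (r.choose m : ℝ) := by
  have h := descFact_q r N q hq hr m hm hmN
  rw [Nat.descFactorial_eq_factorial_mul_choose, Nat.descFactorial_eq_factorial_mul_choose,
    Nat.cast_mul, Nat.cast_mul] at h
  have hf : (0 : ℝ) < (m.factorial : ℝ) := by exact_mod_cast m.factorial_pos
  have h2 : (m.factorial : ℝ) * ((2 * q) ^ m * (N.choose m : ℝ)) ≤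
      (m.factorial : ℝ) * (r.choose m : ℝ) := by
    calc _ = (2 * q) ^ m * ((m.factorial : ℝ) * (N.choose m : ℝ)) := by ring
      _ ≤ _ := h
  exact le_of_mul_le_mul_left h2 hf

/-- **From lists of keys to fractions of keys, small densities.** -/
theorem avg_bound_q {Ω X : Type} [Fintype X] (W : Finset Ω) (R : Ω → X → Prop) (m : ℕ)
    (q : ℝ) (hq : 0 < q) (hm : (m : ℝ) ≤ q * Fintype.card X) (c : ℝ) (hc : 0 ≤ c)
    (h : ∀ l : List X, l.Nodup → l.length = m →
      ((W.filter fun θ => ∀ x ∈ l, R θ x).card : ℝ) ≤ (W.card : ℝ) * (q ^ m * c)) :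
    ((W.filter fun θ => 3 * q * Fintype.card X <
      ((univ.filter fun x => R θ x).card : ℝ)).card : ℝ) * 2 ^ m ≤ (W.card : ℝ) * c := by
  set N := Fintype.card X with hN
  set B := W.filter fun θ => 3 * q * N < ((univ.filter fun x => R θ x).card : ℝ)
    with hB
  rcases B.eq_empty_or_nonempty with hBe | ⟨θ₀, hθ₀⟩
  · rw [hBe, Finset.card_empty, Nat.cast_zero, zero_mul]
    positivity
  have hmN : m ≤ N := by
    have h0 : 3 * q * N < ((univ.filter fun x => R θ₀ x).card : ℝ) := (mem_filter.1 hθ₀).2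
    have h1 : ((univ.filter fun x => R θ₀ x).card : ℝ) ≤ N := by
      exact_mod_cast (Finset.card_le_univ _)
    have h2 : 0 ≤ q * N := by positivity
    have h3 : (m : ℝ) ≤ N := by nlinarith
    exact_mod_cast h3
  have hC : (0 : ℝ) < (N.choose m : ℝ) := by exact_mod_cast Nat.choose_pos hmN
  -- the double count
  have h1 : ∑ θ ∈ W, ((univ.filter fun x => R θ x).card.choose m : ℝ) ≤
      (N.choose m : ℝ) * ((W.card : ℝ) * (q ^ m * c)) := by
    have e1 : ∀ θ ∈ W, (((univ.filter fun x => R θ x).card.choose m : ℕ) : ℝ) =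
        ∑ S ∈ powersetCard m (univ : Finset X), if ∀ x ∈ S, R θ x then (1 : ℝ) else 0 := by
      intro θ _
      rw [← card_powersetCard, ← Finset.sum_filter, Finset.sum_const, nsmul_eq_mul, mul_one]
      congr 2
      ext S
      simp only [mem_powersetCard, mem_filter, subset_univ, true_and, subset_iff, mem_univ]
      tauto
    rw [Finset.sum_congr rfl e1, Finset.sum_comm]
    have e2 : ∀ S ∈ powersetCard m (univ : Finset X),
        (∑ θ ∈ W, if ∀ x ∈ S, R θ x then (1 : ℝ) else 0) ≤ (W.card : ℝ) * (q ^ m * c) := by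
      intro S hS
      rw [mem_powersetCard] at hS
      have h2 := h S.toList S.nodup_toList (by rw [Finset.length_toList]; exact hS.2)
      rw [← Finset.sum_filter, Finset.sum_const, nsmul_eq_mul, mul_one]
      simpa only [Finset.mem_toList] using h2
    refine (Finset.sum_le_sum e2).trans (le_of_eq ?_)
    rw [Finset.sum_const, nsmul_eq_mul, card_powersetCard, Finset.card_univ]
  have h2 : (B.card : ℝ) * ((2 * q) ^ m * (N.choose m : ℝ)) ≤
      ∑ θ ∈ W, ((univ.filter fun x => R θ x).card.choose m : ℝ) := by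
    have h3 : ∑ θ ∈ B, ((univ.filter fun x => R θ x).card.choose m : ℝ) ≤
        ∑ θ ∈ W, ((univ.filter fun x => R θ x).card.choose m : ℝ) :=
      Finset.sum_le_sum_of_subset_of_nonneg (filter_subset _ _) fun _ _ _ => Nat.cast_nonneg _
    refine le_trans ?_ h3
    rw [← nsmul_eq_mul, ← Finset.sum_const]
    refine Finset.sum_le_sum fun θ hθ => ?_
    rw [hB, mem_filter] at hθ
    exact choose_q _ N q hq hθ.2 m hm hmN
  have h4 := h2.trans h1
  rw [mul_pow] at h4
  have hp : (0 : ℝ) < q ^ m := by positivity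
  have h5 : (q ^ m * (N.choose m : ℝ)) * ((B.card : ℝ) * 2 ^ m) ≤
      (q ^ m * (N.choose m : ℝ)) * ((W.card : ℝ) * c) := by
    calc _ = (B.card : ℝ) * (2 ^ m * q ^ m * (N.choose m : ℝ)) := by ring
      _ ≤ _ := h4
      _ = _ := by ring
  exact le_of_mul_le_mul_left h5 (by positivity)

end OAlg
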