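import Pool.Agent.Work.MP_609cce_lc_alg2.Game2
import Pool.Agent.Work.MP_609cce_lc_alg.Base

/-!
# The guessing game with extensions and a weight: ordinary queries, revealing a name
-/

namespace OAlg

open OEth Orc Finset
open Classical

set_option linter.unusedSectionVars false

section game

variable {X Y T P Q C : Type} {W U M : C → Type} [∀ c, AddCommGroup (M c)]
  [Fintype X] [Fintype Y] [Fintype T] [Fintype P] [Fintype C]
  [∀ c, Fintype (W c)] [∀ c, Fintype (U c)] [∀ c, Fintype (M c)]
  {G : AG X Y T P Q C W U M} {E0 : Co X Y T → Finset (List Bool)} {H D : ℕ} {δ : ℝ}
  {wf : (Co X Y T → Finset (List Bool)) → ℝ}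

/-- the conditions for a weight -/
structure WOK (H D : ℕ) (δ : ℝ) (wf : (Co X Y T → Finset (List Bool)) → ℝ) : Prop where
  nonneg : ∀ E, 0 ≤ wf E
  wu : ∀ E x s, wf (Function.update E (cu x) s) = wf E
  wo : ∀ E y s, wf (Function.update E (co y) s) = wf E
  wb : ∀ E x b, (∀ x', 1 ≤ (E (cb x')).card) →
    wf (Function.update E (cb x) {[b]}) ≤ wf E * ((E (cb x)).card : ℝ)
  wg : ∀ (E : Co X Y T → Finset (List Bool)) (S : Finset T) (t : T), S.card + 1 ≤ D →
    (univ.filter fun t => ¬ H ≤ (E (cg t)).card).card + 1 ≤ D → H ≤ (E (cg t)).card →
    ∑ γ ∈ E (cg t), (if ∃ t' ∈ S, E (cg t') = {γ} then (2 : ℝ) else 1) *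
      wf (Function.update E (cg t) {γ}) ≤ ((E (cg t)).card : ℝ) * (1 + δ) * wf E

/-- the number of small coordinates does not change -/
theorem rv_same {E E' : Co X Y T → Finset (List Bool)} {k : ℕ} (h : ∀ t, E' (cg t) = E (cg t))
    (hk : (univ.filter fun t => ¬ H ≤ (E (cg t)).card).card ≤ k) :
    (univ.filter fun t => ¬ H ≤ (E' (cg t)).card).card ≤ k + 1 := by
  simp only [h]
  omega

/-- at most one new small coordinate -/
theorem rv_update {E : Co X Y T → Finset (List Bool)} {k : ℕ} (t : T) (s : Finset (List Bool))
    (hk : (univ.filter fun t => ¬ H ≤ (E (cg t)).card).card ≤ k) :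
    (univ.filter fun t' => ¬ H ≤ (Function.update E (cg t) s (cg t')).card).card ≤ k + 1 := by
  have h1 : (univ.filter fun t' => ¬ H ≤ (Function.update E (cg t) s (cg t')).card) ⊆
      insert t (univ.filter fun t => ¬ H ≤ (E (cg t)).card) := by
    intro t' ht'
    by_cases h : t' = t
    · rw [h]; exact mem_insert_self _ _
    · refine mem_insert_of_mem (mem_filter.2 ⟨mem_univ _, ?_⟩)
      have h2 := (mem_filter.1 ht').2
      rwa [Function.update_of_ne (by simpa using h)] at h2
  exact (card_le_card h1).trans ((card_insert_le _ _).trans (by omega))

/-- a splitting of the ordinary part -/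
theorem spl_mk2 {k : ℕ} {σ : Stt X Y T Q W U M} (hσ : Valid2 G E0 H k σ) {ι : Type}
    {Pr : Stt X Y T Q W U M → Prop}
    (s : Finset ι) (E : ι → Co X Y T → Finset (List Bool)) (S : ι → Finset T)
    (v : ι → T → Bool) (κ : ι → Q → Option Bool)
    (hcov : ∀ θ, InW G σ θ → ∃ i ∈ s, InW G (mk' σ (E i) (S i) (v i) (κ i)) θ)
    (hsub : ∀ i ∈ s, ∀ θ, InW G (mk' σ (E i) (S i) (v i) (κ i)) θ → InW G σ θ)
    (hE : ∀ i ∈ s, ∀ c, E i c ⊆ σ.E c)
    (hSt : ∀ i ∈ s, St G.toG E0 H (k + 1) (E i) (S i) (κ i))
    (hrv : ∀ i ∈ s, (univ.filter fun t => ¬ H ≤ (E i (cg t)).card).card ≤ k + 1)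
    (hdec : ∀ i ∈ s, Pr (mk' σ (E i) (S i) (v i) (κ i)))
    (hsum : ∑ i ∈ s, mass (E i) (S i) * wf (E i) ≤ (mass σ.E σ.S * wf σ.E) * (1 + δ)) :
    Spl2 G E0 H δ wf 0 1 k σ Pr := by
  have hcr : ∀ τ : Stt X Y T Q W U M, cr G 0 τ = 0 := by
    intro τ
    unfold cr
    exact sum_eq_zero fun c _ => if_neg (Nat.not_lt_zero _)
  refine ⟨{i // i ∈ s}, inferInstance, fun i => mk' σ (E i.1) (S i.1) (v i.1) (κ i.1),
    fun _ => k + 1, fun θ hθ => ?_, fun i => ⟨⟨hsub i.1 i.2, hE i.1 i.2,
      ⟨hSt i.1 i.2, ?_, hrv i.1 i.2⟩, ?_, fun c _ => ⟨rfl, rfl, rfl⟩⟩, hdec i.1 i.2⟩, ?_⟩
  · obtain ⟨i, hi, h⟩ := hcov θ hθ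
    exact ⟨⟨i, hi⟩, h⟩
  · intro c w hw θ hθ
    exact hσ.bits c w hw θ (hsub i.1 i.2 θ hθ)
  · rw [hcr, hcr]
  · simp only [hcr, pow_zero, mul_one, pow_one]
    have h1 : ∑ i : {i // i ∈ s}, phiW G wf (mk' σ (E i.1) (S i.1) (v i.1) (κ i.1)) =
        ∑ i ∈ s, mass (E i) (S i) * wf (E i) * gam G σ :=
      sum_coe_sort s fun i => mass (E i) (S i) * wf (E i) * gam G σ
    rw [h1, ← sum_mul]
    calc (∑ i ∈ s, mass (E i) (S i) * wf (E i)) * gam G σ
        ≤ (mass σ.E σ.S * wf σ.E) * (1 + δ) * gam G σ :=
          mul_le_mul_of_nonneg_right hsum (gam_nonneg _ _)
      _ = (1 + δ) * phiW G wf σ := by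
          unfold phiW
          ring

/-- a new name is revealed -/
theorem hash_split2 (hG : G.OK E0 H) (hδ : 0 ≤ δ) (hD1 : ∀ a : ℕ, H ≤ a + D → 1 ≤ δ * a)
    (hwf : WOK H D δ wf) {k : ℕ} {σ : Stt X Y T Q W U M} (hσ : Valid2 G E0 H k σ)
    (hk : k + 1 ≤ D) {t : T} (hH : H ≤ (σ.E (cg t)).card) (htS : t ∉ σ.S) :
    Spl2 G E0 H δ wf 0 1 k σ fun τ => ∃ γ, τ.E (cg t) = {γ} ∧ (t ∈ τ.S ∨
      ∀ q f, G.cls q = .hash t f → τ.κ q ≠ none) := by
  have hSt := hσ.st
  set E := σ.E with hEdef
  set S := σ.S with hSdef
  set κ := σ.κ with hκdef
  have hΨ : 0 ≤ mass E S * wf E := mul_nonneg (mass_nonneg _ _) (hwf.nonneg _)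
  set Ψ : ℝ := mass E S * wf E with hΨd
  have hmemE : ∀ θ, InW G σ θ → ∀ c, θ.1 c ∈ E c := fun θ hθ => hθ.1
  have hmem0 : ∀ θ, InW G σ θ → ∀ c, θ.1 c ∈ E0 c := fun θ hθ c => hSt.sub c (hmemE θ hθ c)
  set a : ℝ := ((E (cg t)).card : ℝ) with ha
  have ha1 : 1 ≤ δ * a := hD1 _ (by omega)
  have ha0 : 0 < a := by
    rcases eq_or_lt_of_le (show (0 : ℝ) ≤ a by positivity) with h | h
    · rw [← h] at ha1; norm_num at ha1
    · exact h
  set used : List Bool → Prop := fun γ => ∃ t' ∈ S, E (cg t') = {γ} with hused
  let E2 : List Bool × Bool → Co X Y T → Finset (List Bool) := fun z =>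
    Function.update E (cg t) {z.1}
  let S2 : List Bool × Bool → Finset T := fun z => if used z.1 then S else insert t S
  let v2 : List Bool × Bool → T → Bool := fun z =>
    if used z.1 then σ.v else Function.update σ.v t z.2
  let κ2 : List Bool × Bool → Q → Option Bool := fun z =>
    if used z.1 then factK G κ t z.1 z.2 else κ
  have hE2 : ∀ z, E2 z = Function.update E (cg t) {z.1} := fun _ => rfl
  have hE2t : ∀ z, E2 z (cg t) = {z.1} := fun z => by rw [hE2, Function.update_self]
  have hE2n : ∀ z c, c ≠ cg t → E2 z c = E c := fun z c h => by
    rw [hE2, Function.update_of_ne h]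
  have hS2u : ∀ z, used z.1 → S2 z = S := fun z h => if_pos h
  have hS2n : ∀ z, ¬ used z.1 → S2 z = insert t S := fun z h => if_neg h
  have hv2u : ∀ z, used z.1 → v2 z = σ.v := fun z h => if_pos h
  have hv2n : ∀ z, ¬ used z.1 → v2 z = Function.update σ.v t z.2 := fun z h => if_neg h
  have hκ2u : ∀ z, used z.1 → κ2 z = factK G κ t z.1 z.2 := fun z h => if_pos h
  have hκ2n : ∀ z, ¬ used z.1 → κ2 z = κ := fun z h => if_neg h
  have hm2 : ∀ z, mass (E2 z) S = mass E S / a := by
    intro z
    have h3 := mass_update E S (cg t) {z.1}
    rw [card_singleton, Nat.cast_one, mul_one, ← hE2] at h3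
    rw [eq_div_iff ha0.ne', ← h3]
  have hEsub : ∀ z : List Bool × Bool, z.1 ∈ E (cg t) → ∀ c, E2 z c ⊆ E0 c := by
    intro z hz c
    by_cases hc : c = cg t
    · subst hc
      rw [hE2t]
      exact (singleton_subset_iff.2 hz).trans (hSt.sub _)
    · rw [hE2n z c hc]
      exact hSt.sub c
  -- the worlds of the new states are worlds of the state
  have hsub : ∀ z : List Bool × Bool, z.1 ∈ E (cg t) → ∀ θ,
      InW G (mk' σ (E2 z) (S2 z) (v2 z) (κ2 z)) θ →
      InW G σ θ ∧ θ.1 (cg t) = z.1 ∧ (used z.1 → ∀ q' f', κ q' = none →
        G.cls q' = .hash t f' → G.B θ q' = f' z.1 z.2) ∧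
        (¬ used z.1 → G.vis θ t = z.2) := by
    intro z hz θ hθ
    obtain ⟨g1, g2, g3, g4, g5⟩ := inW_mk'.1 hθ
    have g6 : θ.1 (cg t) = z.1 := by
      have := g1 (cg t)
      rwa [hE2t, mem_singleton] at this
    have g7 : ∀ c, θ.1 c ∈ E c := by
      intro c
      by_cases hc : c = cg t
      · subst hc
        rw [g6]
        exact hz
      · have := g1 c
        rwa [hE2n z c hc] at this
    by_cases hus : used z.1
    · rw [hS2u z hus, hv2u z hus] at g3
      rw [hκ2u z hus] at g4
      refine ⟨⟨g7, g2, g3, fun q' a' h => g4 q' a' (factK_some h), g5⟩, g6,
        fun _ q' f' h h' => g4 q' _ (factK_hash h h'), fun h => absurd hus h⟩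
    · rw [hS2n z hus, hv2n z hus] at g3
      rw [hκ2n z hus] at g4
      refine ⟨⟨g7, g2, fun t' ht' => ?_, g4, g5⟩, g6, fun h => absurd h hus, fun _ => ?_⟩
      · have hne : t' ≠ t := fun h => htS (h ▸ ht')
        have := g3 t' (mem_insert_of_mem ht')
        rwa [Function.update_of_ne hne] at this
      · have := g3 t (mem_insert_self _ _)
        rwa [Function.update_self] at this
  refine spl_mk2 hσ ((E (cg t)) ×ˢ (univ : Finset Bool)) E2 S2 v2 κ2 ?_ ?_ ?_ ?_ ?_ ?_ ?_
  · intro θ hθ
    have h9 := hmemE θ hθ
    set z : List Bool × Bool := (θ.1 (cg t), G.vis θ t) with hz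
    refine ⟨z, mem_product.2 ⟨h9 _, mem_univ _⟩, inW_mk'.2 ⟨fun c' => ?_, hθ.2.1, ?_, ?_,
      hθ.2.2.2.2⟩⟩
    · by_cases hc' : c' = cg t
      · subst hc'
        rw [hE2t, mem_singleton]
      · rw [hE2n z c' hc']
        exact h9 c'
    · intro t' ht'
      by_cases hus : used z.1
      · rw [hS2u z hus] at ht'
        rw [hv2u z hus]
        exact hθ.2.2.1 t' ht'
      · rw [hS2n z hus] at ht'
        rw [hv2n z hus]
        by_cases ht : t' = t
        · subst ht
          rw [Function.update_self]
        · rw [Function.update_of_ne ht]
          exact hθ.2.2.1 t' ((mem_insert.1 ht').resolve_left ht)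
    · intro q' a' hq'
      by_cases hus : used z.1
      · rw [hκ2u z hus] at hq'
        rcases factK_cases G κ t z.1 z.2 q' with ⟨h8, f', h9', h10⟩ | h9'
        · rw [h10, Option.some.injEq] at hq'
          rw [hG.hash q' t f' h9' θ (hmem0 θ hθ) hθ.2.1, ← hq']
        · rw [h9'] at hq'
          exact hθ.2.2.2.1 q' a' hq'
      · rw [hκ2n z hus] at hq'
        exact hθ.2.2.2.1 q' a' hq'
  · intro z hz θ hθ
    exact (hsub z (mem_product.1 hz).1 θ hθ).1
  · intro z hz c
    have hz1 := (mem_product.1 hz).1
    by_cases hc : c = cg t
    · subst hc
      rw [hE2t]
      exact singleton_subset_iff.2 hz1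
    · rw [hE2n z c hc]
  · intro z hz
    have hz1 := (mem_product.1 hz).1
    by_cases hus : used z.1
    · rw [hS2u z hus, hκ2u z hus]
      refine ⟨hEsub z hz1, hSt.sc.trans (Nat.le_succ _), fun x' => ?_, fun x' => ?_,
        fun y' => ?_, fun t' => ?_, ?_⟩
      · rw [hE2n z _ (by simp)]
        exact hSt.hb x'
      · rw [hE2n z _ (by simp), hE2n z _ (by simp)]
        rcases hSt.hu x' with h | h
        · left; omega
        · right; exact h
      · rw [hE2n z _ (by simp)]
        rcases hSt.ho y' with h | ⟨w0, h3, h4⟩
        · left; omega
        · right
          exact ⟨w0, h3, fun q' w' h5 h6 => factK_ne_none (h4 q' w' h5 h6)⟩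
      · by_cases ht : t' = t
        · subst ht
          refine Or.inr ⟨z.1, hE2t z, Or.inr fun q' f' h3 => ?_⟩
          cases hκq : κ q' with
          | some a' => rw [factK_some hκq]; simp
          | none => rw [factK_hash hκq h3]; simp
        · rw [hE2n z _ (by simpa using ht)]
          rcases hSt.hg t' with h | ⟨γ', h3, h4⟩
          · exact Or.inl h
          · refine Or.inr ⟨γ', h3, ?_⟩
            rcases h4 with h4 | h4
            · exact Or.inl h4
            · exact Or.inr fun q' f' h5 => factK_ne_none (h4 q' f' h5)
      · intro t1 ht1 t2 ht2 h
        have hne1 : t1 ≠ t := fun h => htS (h ▸ ht1)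
        have hne2 : t2 ≠ t := fun h => htS (h ▸ ht2)
        rw [hE2n z _ (by simpa using hne1), hE2n z _ (by simpa using hne2)] at h
        exact hSt.inj t1 ht1 t2 ht2 h
    · rw [hS2n z hus, hκ2n z hus]
      refine ⟨hEsub z hz1, (card_insert_le _ _).trans (Nat.succ_le_succ hSt.sc),
        fun x' => ?_, fun x' => ?_, fun y' => ?_, fun t' => ?_, ?_⟩
      · rw [hE2n z _ (by simp)]
        exact hSt.hb x'
      · rw [hE2n z _ (by simp), hE2n z _ (by simp)]
        rcases hSt.hu x' with h | h
        · left; omega
        · right; exact h
      · rw [hE2n z _ (by simp)]
        rcases hSt.ho y' with h | h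
        · left; omega
        · right; exact h
      · by_cases ht : t' = t
        · subst ht
          exact Or.inr ⟨z.1, hE2t z, Or.inl (mem_insert_self _ _)⟩
        · rw [hE2n z _ (by simpa using ht)]
          rcases hSt.hg t' with ⟨h, h'⟩ | ⟨γ', h3, h4⟩
          · refine Or.inl ⟨h, fun h'' => ?_⟩
            rcases mem_insert.1 h'' with h'' | h''
            · exact ht h''
            · exact h' h''
          · refine Or.inr ⟨γ', h3, ?_⟩
            rcases h4 with h4 | h4
            · exact Or.inl (mem_insert_of_mem h4)
            · exact Or.inr h4
      · intro t1 ht1 t2 ht2 h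
        by_cases h3 : t1 = t
        · by_cases h4 : t2 = t
          · rw [h3, h4]
          · exfalso
            have h5 : t2 ∈ S := (mem_insert.1 ht2).resolve_left h4
            rw [h3, hE2t, hE2n z _ (by simpa using h4)] at h
            exact hus ⟨t2, h5, h.symm⟩
        · have h6 : t1 ∈ S := (mem_insert.1 ht1).resolve_left h3
          by_cases h4 : t2 = t
          · exfalso
            rw [h4, hE2t, hE2n z _ (by simpa using h3)] at h
            exact hus ⟨t1, h6, h⟩
          · have h5 : t2 ∈ S := (mem_insert.1 ht2).resolve_left h4
            rw [hE2n z _ (by simpa using h3), hE2n z _ (by simpa using h4)] at h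
            exact hSt.inj t1 h6 t2 h5 h
  · intro z _
    rw [hE2 z]
    exact rv_update t _ hσ.rv
  · intro z _
    refine ⟨z.1, hE2t z, ?_⟩
    show t ∈ S2 z ∨ ∀ q f, G.cls q = .hash t f → κ2 z q ≠ none
    by_cases hus : used z.1
    · right
      intro q f h3
      rw [hκ2u z hus]
      cases hκq : κ q with
      | some a' => rw [factK_some hκq]; simp
      | none => rw [factK_hash hκq h3]; simp
    · left
      rw [hS2n z hus]
      exact mem_insert_self _ _
  · have hval1 : ∀ z : List Bool × Bool, mass (E2 z) (S2 z) * wf (E2 z) =
        mass E S / a / 2 * ((if used z.1 then (2 : ℝ) else 1) * wf (E2 z)) := by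
      intro z
      by_cases hus : used z.1
      · rw [hS2u z hus, if_pos hus, hm2]
        ring
      · rw [hS2n z hus, if_neg hus]
        have h3 : mass (E2 z) (insert t S) = mass (E2 z) S / 2 := by
          unfold mass
          rw [card_insert_of_notMem htS, pow_succ, div_div]
        rw [h3, hm2 z]
        ring
    rw [sum_congr rfl fun z _ => hval1 z, sum_product]
    have hsum2 : ∀ γ ∈ E (cg t), ∑ b : Bool, mass E S / a / 2 *
        ((if used (γ, b).1 then (2 : ℝ) else 1) * wf (E2 (γ, b))) =
        mass E S / a * ((if ∃ t' ∈ S, E (cg t') = {γ} then (2 : ℝ) else 1) *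
          wf (Function.update E (cg t) {γ})) := by
      intro γ _
      rw [Fintype.sum_bool]
      show mass E S / a / 2 * ((if ∃ t' ∈ S, E (cg t') = {γ} then (2 : ℝ) else 1) *
          wf (Function.update E (cg t) {γ})) + mass E S / a / 2 *
          ((if ∃ t' ∈ S, E (cg t') = {γ} then (2 : ℝ) else 1) *
          wf (Function.update E (cg t) {γ})) = _
      ring
    rw [sum_congr rfl hsum2, ← mul_sum]
    have h4 := hwf.wg E S t ((Nat.succ_le_succ hSt.sc).trans hk)
      ((Nat.succ_le_succ hσ.rv).trans hk) hH
    have h5 : 0 ≤ mass E S / a := div_nonneg (mass_nonneg _ _) ha0.le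
    calc mass E S / a * ∑ γ ∈ E (cg t), (if ∃ t' ∈ S, E (cg t') = {γ} then (2 : ℝ) else 1) *
          wf (Function.update E (cg t) {γ})
        ≤ mass E S / a * (((E (cg t)).card : ℝ) * (1 + δ) * wf E) :=
          mul_le_mul_of_nonneg_left h4 h5
      _ = mass E S * wf E * (1 + δ) := by
          rw [← ha]
          field_simp

/-- **The splitting by an ordinary query.** -/
theorem base_split2 (hG : G.OK E0 H) (hδ : 0 ≤ δ) (hD1 : ∀ a : ℕ, H ≤ a + D → 1 ≤ δ * a)
    (hwf : WOK H D δ wf) : BaseSplit2 G E0 H D δ wf := by
  intro k σ hσ hk q
  have hSt := hσ.st
  set E := σ.E with hEdef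
  set S := σ.S with hSdef
  set κ := σ.κ with hκdef
  have hΨ : 0 ≤ mass E S * wf E := mul_nonneg (mass_nonneg _ _) (hwf.nonneg _)
  set Ψ : ℝ := mass E S * wf E with hΨd
  -- determined answers
  have det : ∀ a : Bool, (∀ θ, InW G σ θ → G.B θ q = a) →
      Spl2 G E0 H δ wf 0 1 k σ fun τ => ∃ a, ∀ θ, InW G τ θ → G.B θ q = a :=
    fun a ha => Spl2.refl hδ hwf.nonneg hσ ⟨a, ha⟩ 1
  have hmemE : ∀ θ, InW G σ θ → ∀ c, θ.1 c ∈ E c := fun θ hθ => hθ.1
  have hmem0 : ∀ θ, InW G σ θ → ∀ c, θ.1 c ∈ E0 c := fun θ hθ c => hSt.sub c (hmemE θ hθ c)
  cases hκ : κ q with
  | some a => exact det a fun θ hθ => hθ.2.2.2.1 q a hκ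
  | none =>
    cases hc : G.cls q with
    | fix =>
      obtain ⟨a, ha⟩ := hG.fix q hc
      exact det a fun θ hθ => ha θ (hmem0 θ hθ) hθ.2.1
    | plain x0 c u =>
      have hpl := fun θ hθ => hG.plain q x0 c u hc θ (hmem0 θ hθ) hθ.2.1
      by_cases hu : u ∈ E (cu x0)
      · rcases hSt.hu x0 with hH | ⟨u0, b0, h1, h2⟩
        · -- the main case
          set a : ℝ := ((E (cu x0)).card : ℝ) with ha
          have ha1 : 1 ≤ δ * a := hD1 _ (by omega)
          have ha0 : 0 < a := by
            rcases eq_or_lt_of_le (show (0 : ℝ) ≤ a by positivity) with h | h
            · rw [← h] at ha1; norm_num at ha1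
            · exact h
          set E1 := Function.update E (cu x0) ((E (cu x0)).erase u) with hE1
          set E' := Function.update E (cu x0) {u} with hE'
          let E2 : Bool → Co X Y T → Finset (List Bool) := fun b =>
            Function.update E' (cb x0) {[b]}
          have hSt1 : St G.toG E0 H (k + 1) E1 S κ := by
            refine ⟨fun c => ?_, hSt.sc.trans (Nat.le_succ _), fun x' => ?_, fun x' => ?_,
              fun y => ?_, fun t => ?_, ?_⟩
            · by_cases hc : c = cu x0
              · subst hc
                rw [hE1, Function.update_self]
                exact (erase_subset _ _).trans (hSt.sub _)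
              · rw [hE1, Function.update_of_ne hc]
                exact hSt.sub c
            · rw [hE1, Function.update_of_ne (by simp)]
              exact hSt.hb x'
            · by_cases hx : x' = x0
              · subst hx
                left
                rw [hE1, Function.update_self, card_erase_of_mem hu]
                omega
              · rw [hE1, Function.update_of_ne (by simpa using hx),
                  Function.update_of_ne (by simp)]
                rcases hSt.hu x' with h | h
                · left; omega
                · right; exact h
            · rw [hE1, Function.update_of_ne (by simp)]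
              rcases hSt.ho y with h | h
              · left; omega
              · right; exact h
            · rw [hE1, Function.update_of_ne (by simp)]
              exact hSt.hg t
            · intro t ht t' ht' h
              rw [hE1, Function.update_of_ne (by simp), Function.update_of_ne (by simp)] at h
              exact hSt.inj t ht t' ht' h
          have hSt2 : ∀ b, St G.toG E0 H (k + 1) (E2 b) S κ := by
            intro b
            have hE2 : E2 b = Function.update E' (cb x0) {[b]} := rfl
            refine ⟨fun c => ?_, hSt.sc.trans (Nat.le_succ _), fun x' => ?_, fun x' => ?_,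
              fun y => ?_, fun t => ?_, ?_⟩
            · by_cases hc : c = cb x0
              · subst hc
                rw [hE2, Function.update_self, hG.eb]
                cases b <;> simp
              · rw [hE2, Function.update_of_ne hc]
                by_cases hc' : c = cu x0
                · subst hc'
                  rw [hE', Function.update_self]
                  exact (singleton_subset_iff.2 hu).trans (hSt.sub _)
                · rw [hE', Function.update_of_ne hc']
                  exact hSt.sub c
            · by_cases hx : x' = x0
              · subst hx
                exact Or.inr ⟨b, by rw [hE2, Function.update_self]⟩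
              · rw [hE2, Function.update_of_ne (by simpa using hx), hE',
                  Function.update_of_ne (by simp)]
                exact hSt.hb x'
            · by_cases hx : x' = x0
              · subst hx
                right
                refine ⟨u, b, ?_, ?_⟩
                · rw [hE2, Function.update_of_ne (by simp), hE', Function.update_self]
                · rw [hE2, Function.update_self]
              · rw [hE2, Function.update_of_ne (by simp), hE',
                  Function.update_of_ne (by simpa using hx),
                  Function.update_of_ne (by simpa using hx), Function.update_of_ne (by simp)]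
                rcases hSt.hu x' with h | h
                · left; omega
                · right; exact h
            · rw [hE2, Function.update_of_ne (by simp), hE',
                Function.update_of_ne (by simp)]
              rcases hSt.ho y with h | h
              · left; omega
              · right; exact h
            · rw [hE2, Function.update_of_ne (by simp), hE',
                Function.update_of_ne (by simp)]
              exact hSt.hg t
            · intro t ht t' ht' h
              rw [hE2, Function.update_of_ne (by simp), Function.update_of_ne (by simp),
                hE', Function.update_of_ne (by simp), Function.update_of_ne (by simp)] at h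
              exact hSt.inj t ht t' ht' h
          have hm1 : mass E1 S * wf E1 = Ψ * (a - 1) / a := by
            have h3 := mass_update E S (cu x0) ((E (cu x0)).erase u)
            rw [← hE1, cast_card_erase_of_mem hu] at h3
            have h7 : wf E1 = wf E := hwf.wu _ _ _
            rw [h7, eq_div_iff ha0.ne', hΨd]
            calc mass E1 S * wf E * a = (mass E1 S * a) * wf E := by ring
              _ = (mass E S * (a - 1)) * wf E := by rw [h3]
              _ = _ := by ring
          have hm2 : ∀ b, mass (E2 b) S * wf (E2 b) ≤ Ψ / a := by
            intro b
            have hE2 : E2 b = Function.update E' (cb x0) {[b]} := rfl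
            have h3 := mass_update E S (cu x0) {u}
            have h4 := mass_update E' S (cb x0) {[b]}
            have h5 : E' (cb x0) = E (cb x0) := by
              rw [hE', Function.update_of_ne (by simp)]
            have h6 := hwf.wb E' x0 b (fun x' => by
              rw [hE', Function.update_of_ne (by simp)]
              exact hSt.cb_card x')
            have h7 : wf E' = wf E := hwf.wu _ _ _
            rw [card_singleton, Nat.cast_one, mul_one, ← hE'] at h3
            rw [card_singleton, Nat.cast_one, mul_one, ← hE2, h5] at h4
            rw [← hE2, h5, h7] at h6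
            have h8 : 0 ≤ mass (E2 b) S := mass_nonneg _ _
            calc mass (E2 b) S * wf (E2 b) ≤
                  mass (E2 b) S * (wf E * ((E (cb x0)).card : ℝ)) :=
                  mul_le_mul_of_nonneg_left h6 h8
              _ = (mass (E2 b) S * (E (cb x0)).card) * wf E := by ring
              _ = mass E' S * wf E := by rw [h4]
              _ = Ψ / a := by
                  rw [eq_div_iff ha0.ne', hΨd, ← h3]
                  ring
          have htot : Ψ * (a - 1) / a + 2 * (Ψ / a) ≤ Ψ * (1 + δ) := by
            have h12 : Ψ * (a - 1) / a + 2 * (Ψ / a) = Ψ + Ψ / a := by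
              field_simp
              ring
            have h13 : Ψ / a ≤ Ψ * δ := by
              rw [div_le_iff₀ ha0]
              nlinarith
            rw [h12]
            linarith
          let EE : Option Bool → Co X Y T → Finset (List Bool) := fun o => o.elim E1 E2
          let s : Finset (Option Bool) := univ.filter fun o => ∀ b, o = some b → [b] ∈ E (cb x0)
          have hms : ∀ o, o ∈ s ↔ ∀ b, o = some b → [b] ∈ E (cb x0) := fun o => by
            simp only [s, mem_filter]
            exact and_iff_right (mem_univ _)
          have hE'E : ∀ c', E' c' ⊆ E c' := by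
            intro c'
            by_cases hc' : c' = cu x0
            · subst hc'
              rw [hE', Function.update_self]
              exact singleton_subset_iff.2 hu
            · rw [hE', Function.update_of_ne hc']
          refine spl_mk2 hσ s EE (fun _ => S) (fun _ => σ.v) (fun _ => κ)
            ?_ ?_ ?_ ?_ ?_ ?_ ?_
          · intro θ hθ
            have h9 := hmemE θ hθ
            by_cases hcu : θ.1 (cu x0) = u
            · have h10 := hmem0 θ hθ (cb x0)
              rw [hG.eb, mem_insert, mem_singleton] at h10
              obtain ⟨b, hb⟩ : ∃ b, θ.1 (cb x0) = [b] := by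
                rcases h10 with h | h
                · exact ⟨false, h⟩
                · exact ⟨true, h⟩
              refine ⟨some b, (hms _).2 fun b' hb' => ?_, inW_mk'.2 ⟨fun c' => ?_, hθ.2⟩⟩
              · simp only [Option.some.injEq] at hb'
                rw [← hb', ← hb]
                exact h9 _
              · show θ.1 c' ∈ Function.update E' (cb x0) {[b]} c'
                by_cases hc' : c' = cb x0
                · subst hc'
                  rw [Function.update_self, mem_singleton]
                  exact hb
                · rw [Function.update_of_ne hc']
                  by_cases hc'' : c' = cu x0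
                  · subst hc''
                    rw [hE', Function.update_self, mem_singleton]
                    exact hcu
                  · rw [hE', Function.update_of_ne hc'']
                    exact h9 c'
            · refine ⟨none, (hms _).2 fun b' hb' => by simp at hb',
                inW_mk'.2 ⟨fun c' => ?_, hθ.2⟩⟩
              show θ.1 c' ∈ E1 c'
              by_cases hc' : c' = cu x0
              · subst hc'
                rw [hE1, Function.update_self, mem_erase]
                exact ⟨hcu, h9 _⟩
              · rw [hE1, Function.update_of_ne hc']
                exact h9 c'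
          · intro o ho θ hθ
            obtain ⟨g1, g2⟩ := inW_mk'.1 hθ
            refine ⟨fun c' => ?_, g2⟩
            cases o with
            | none =>
              have g3 : θ.1 c' ∈ E1 c' := g1 c'
              by_cases hc' : c' = cu x0
              · subst hc'
                rw [hE1, Function.update_self] at g3
                exact mem_of_mem_erase g3
              · rwa [hE1, Function.update_of_ne hc'] at g3
            | some b =>
              have g3 : θ.1 c' ∈ Function.update E' (cb x0) {[b]} c' := g1 c'
              by_cases hc' : c' = cb x0
              · subst hc'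
                rw [Function.update_self, mem_singleton] at g3
                rw [g3]
                exact (hms _).1 ho b rfl
              · rw [Function.update_of_ne hc'] at g3
                by_cases hc'' : c' = cu x0
                · subst hc''
                  rw [hE', Function.update_self, mem_singleton] at g3
                  rw [g3]
                  exact hu
                · rwa [hE', Function.update_of_ne hc''] at g3
          · intro o ho c'
            cases o with
            | none =>
              show E1 c' ⊆ E c'
              by_cases hc' : c' = cu x0
              · subst hc'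
                rw [hE1, Function.update_self]
                exact erase_subset _ _
              · rw [hE1, Function.update_of_ne hc']
            | some b =>
              show Function.update E' (cb x0) {[b]} c' ⊆ E c'
              by_cases hc' : c' = cb x0
              · subst hc'
                rw [Function.update_self]
                exact singleton_subset_iff.2 ((hms _).1 ho b rfl)
              · rw [Function.update_of_ne hc']
                exact hE'E c'
          · intro o _
            cases o with
            | none => exact hSt1
            | some b => exact hSt2 b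
          · intro o _
            refine rv_same (fun t => ?_) hσ.rv
            cases o with
            | none =>
              show E1 (cg t) = E (cg t)
              rw [hE1, Function.update_of_ne (by simp)]
            | some b =>
              show Function.update E' (cb x0) {[b]} (cg t) = E (cg t)
              rw [Function.update_of_ne (by simp), hE', Function.update_of_ne (by simp)]
          · intro o ho
            cases o with
            | none =>
              refine ⟨false, fun θ hθ => ?_⟩
              obtain ⟨g1, g2⟩ := inW_mk'.1 hθ
              have g3 : θ.1 (cu x0) ∈ E1 (cu x0) := g1 _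
              rw [hE1, Function.update_self, mem_erase] at g3
              have g4 : InW G σ θ := by
                refine ⟨fun c' => ?_, g2⟩
                have g5 : θ.1 c' ∈ E1 c' := g1 c'
                by_cases hc' : c' = cu x0
                · subst hc'
                  exact g3.2
                · rwa [hE1, Function.update_of_ne hc'] at g5
              rw [Bool.eq_false_iff]
              intro h
              exact g3.1 ((hpl θ g4).1 h).2
            | some b =>
              refine ⟨decide (b = c), fun θ hθ => ?_⟩
              obtain ⟨g1, g2⟩ := inW_mk'.1 hθ
              have g3 : θ.1 (cb x0) ∈ Function.update E' (cb x0) {[b]} (cb x0) := g1 _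
              have g3' : θ.1 (cu x0) ∈ Function.update E' (cb x0) {[b]} (cu x0) := g1 _
              rw [Function.update_self, mem_singleton] at g3
              rw [Function.update_of_ne (by simp), hE', Function.update_self,
                mem_singleton] at g3'
              have g4 : InW G σ θ := by
                refine ⟨fun c' => ?_, g2⟩
                have g5 : θ.1 c' ∈ Function.update E' (cb x0) {[b]} c' := g1 c'
                by_cases hc' : c' = cb x0
                · subst hc'
                  rw [g3]
                  exact (hms _).1 ho b rfl
                · rw [Function.update_of_ne hc'] at g5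
                  by_cases hc'' : c' = cu x0
                  · subst hc''
                    rw [g3']
                    exact hu
                  · rwa [hE', Function.update_of_ne hc''] at g5
              rw [Bool.eq_iff_iff, hpl θ g4, g3, g3', decide_eq_true_eq]
              simp
          · have h14 : ∑ o ∈ s, mass (EE o) S * wf (EE o) ≤
                ∑ o : Option Bool, mass (EE o) S * wf (EE o) :=
              sum_le_sum_of_subset_of_nonneg (filter_subset _ _) fun o _ _ =>
                mul_nonneg (mass_nonneg _ _) (hwf.nonneg _)
            refine h14.trans ?_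
            rw [Fintype.sum_option, Fintype.sum_bool]
            show mass E1 S * wf E1 + (mass (E2 true) S * wf (E2 true) +
              mass (E2 false) S * wf (E2 false)) ≤ _
            have q0 := hm2 false
            have q1 := hm2 true
            rw [hm1]
            linarith
        · -- everything about `x0` is known
          refine det (decide ([b0] = [c] ∧ u0 = u)) fun θ hθ => ?_
          have h3 := hmemE θ hθ (cu x0)
          have h4 := hmemE θ hθ (cb x0)
          rw [h1, mem_singleton] at h3
          rw [h2, mem_singleton] at h4
          rw [Bool.eq_iff_iff, hpl θ hθ, decide_eq_true_eq, h3, h4]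
      · refine det false fun θ hθ => ?_
        rw [Bool.eq_false_iff]
        intro h
        exact hu (((hpl θ hθ).1 h).2 ▸ hmemE θ hθ (cu x0))
    | wit y w1 =>
      have hw := fun θ hθ => hG.wit q y w1 hc θ (hmem0 θ hθ) hθ.2.1
      by_cases hwE : w1 ∈ E (co y)
      · rcases hSt.ho y with hH | ⟨w0, h1, h2⟩
        · set a : ℝ := ((E (co y)).card : ℝ) with ha
          have ha1 : 1 ≤ δ * a := hD1 _ (by omega)
          have ha0 : 0 < a := by
            rcases eq_or_lt_of_le (show (0 : ℝ) ≤ a by positivity) with h | h
            · rw [← h] at ha1; norm_num at ha1
            · exact h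
          set E1 := Function.update E (co y) ((E (co y)).erase w1) with hE1
          set E2 := Function.update E (co y) {w1} with hE2
          let κ' : Bool → Q → Option Bool := fun b => Function.update κ q (some b)
          have hκ'2 : ∀ b q', κ q' ≠ none → κ' b q' ≠ none := by
            intro b q' h
            show Function.update κ q (some b) q' ≠ none
            by_cases hq : q' = q
            · rw [hq, Function.update_self]; simp
            · rw [Function.update_of_ne hq]; exact h
          have hSt1 : St G.toG E0 H (k + 1) E1 S κ := by
            refine ⟨fun c => ?_, hSt.sc.trans (Nat.le_succ _), fun x' => ?_, fun x' => ?_,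
              fun y' => ?_, fun t => ?_, ?_⟩
            · by_cases hc : c = co y
              · subst hc
                rw [hE1, Function.update_self]
                exact (erase_subset _ _).trans (hSt.sub _)
              · rw [hE1, Function.update_of_ne hc]
                exact hSt.sub c
            · rw [hE1, Function.update_of_ne (by simp)]
              exact hSt.hb x'
            · rw [hE1, Function.update_of_ne (by simp), Function.update_of_ne (by simp)]
              rcases hSt.hu x' with h | h
              · left; omega
              · right; exact h
            · by_cases hy : y' = y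
              · subst hy
                left
                rw [hE1, Function.update_self, card_erase_of_mem hwE]
                omega
              · rw [hE1, Function.update_of_ne (by simpa using hy)]
                rcases hSt.ho y' with h | h
                · left; omega
                · right; exact h
            · rw [hE1, Function.update_of_ne (by simp)]
              exact hSt.hg t
            · intro t ht t' ht' h
              rw [hE1, Function.update_of_ne (by simp), Function.update_of_ne (by simp)] at h
              exact hSt.inj t ht t' ht' h
          have hSt2 : ∀ b, St G.toG E0 H (k + 1) E2 S (κ' b) := by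
            intro b
            refine ⟨fun c => ?_, hSt.sc.trans (Nat.le_succ _), fun x' => ?_, fun x' => ?_,
              fun y' => ?_, fun t => ?_, ?_⟩
            · by_cases hc : c = co y
              · subst hc
                rw [hE2, Function.update_self]
                exact (singleton_subset_iff.2 hwE).trans (hSt.sub _)
              · rw [hE2, Function.update_of_ne hc]
                exact hSt.sub c
            · rw [hE2, Function.update_of_ne (by simp)]
              exact hSt.hb x'
            · rw [hE2, Function.update_of_ne (by simp), Function.update_of_ne (by simp)]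
              rcases hSt.hu x' with h | h
              · left; omega
              · right; exact h
            · by_cases hy : y' = y
              · subst hy
                right
                refine ⟨w1, by rw [hE2, Function.update_self], fun q' w' h3 h4 => ?_⟩
                subst h4
                have h5 := hG.inj q' q y' w' h3 hc
                show Function.update κ q (some b) q' ≠ none
                rw [h5, Function.update_self]
                simp
              · rw [hE2, Function.update_of_ne (by simpa using hy)]
                rcases hSt.ho y' with h | ⟨w0, h3, h4⟩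
                · left; omega
                · right
                  exact ⟨w0, h3, fun q' w' h5 h6 => hκ'2 b q' (h4 q' w' h5 h6)⟩
            · rw [hE2, Function.update_of_ne (by simp)]
              rcases hSt.hg t with h | ⟨γ, h3, h4⟩
              · exact Or.inl h
              · refine Or.inr ⟨γ, h3, ?_⟩
                rcases h4 with h4 | h4
                · exact Or.inl h4
                · exact Or.inr fun q' f h5 => hκ'2 b q' (h4 q' f h5)
            · intro t ht t' ht' h
              rw [hE2, Function.update_of_ne (by simp), Function.update_of_ne (by simp)] at h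
              exact hSt.inj t ht t' ht' h
          have hm1 : mass E1 S * wf E1 = Ψ * (a - 1) / a := by
            have h3 := mass_update E S (co y) ((E (co y)).erase w1)
            rw [← hE1, cast_card_erase_of_mem hwE] at h3
            have h7 : wf E1 = wf E := hwf.wo _ _ _
            rw [h7, eq_div_iff ha0.ne', hΨd]
            calc mass E1 S * wf E * a = (mass E1 S * a) * wf E := by ring
              _ = (mass E S * (a - 1)) * wf E := by rw [h3]
              _ = _ := by ring
          have hm2 : mass E2 S * wf E2 = Ψ / a := by
            have h3 := mass_update E S (co y) {w1}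
            have h7 : wf E2 = wf E := hwf.wo _ _ _
            rw [card_singleton, Nat.cast_one, mul_one, ← hE2] at h3
            rw [h7, eq_div_iff ha0.ne', hΨd, ← h3]
            ring
          have htot : Ψ * (a - 1) / a + 2 * (Ψ / a) ≤ Ψ * (1 + δ) := by
            have h12 : Ψ * (a - 1) / a + 2 * (Ψ / a) = Ψ + Ψ / a := by
              field_simp
              ring
            have h13 : Ψ / a ≤ Ψ * δ := by
              rw [div_le_iff₀ ha0]
              nlinarith
            rw [h12]
            linarith
          -- a known answer is kept
          have hext : ∀ b q' a', κ q' = some a' → κ' b q' = some a' := by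
            intro b q' a' h
            show Function.update κ q (some b) q' = some a'
            have hne : q' ≠ q := fun h' => by rw [h', hκ] at h; simp at h
            rw [Function.update_of_ne hne, h]
          refine spl_mk2 hσ (univ : Finset (Option Bool)) (fun o => o.elim E1 fun _ => E2)
            (fun _ => S) (fun _ => σ.v) (fun o => o.elim κ κ') ?_ ?_ ?_ ?_ ?_ ?_ ?_
          · intro θ hθ
            have h9 := hmemE θ hθ
            by_cases hcu : θ.1 (co y) = w1
            · refine ⟨some (G.B θ q), mem_univ _, inW_mk'.2 ⟨fun c' => ?_, hθ.2.1, hθ.2.2.1,
                fun q' a' hq' => ?_, hθ.2.2.2.2⟩⟩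
              · show θ.1 c' ∈ E2 c'
                by_cases hc' : c' = co y
                · subst hc'
                  rw [hE2, Function.update_self, mem_singleton]
                  exact hcu
                · rw [hE2, Function.update_of_ne hc']
                  exact h9 c'
              · have hq'' : Function.update κ q (some (G.B θ q)) q' = some a' := hq'
                by_cases hq : q' = q
                · rw [hq, Function.update_self, Option.some.injEq] at hq''
                  rw [hq, hq'']
                · rw [Function.update_of_ne hq] at hq''
                  exact hθ.2.2.2.1 q' a' hq''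
            · refine ⟨none, mem_univ _, inW_mk'.2 ⟨fun c' => ?_, hθ.2⟩⟩
              show θ.1 c' ∈ E1 c'
              by_cases hc' : c' = co y
              · subst hc'
                rw [hE1, Function.update_self, mem_erase]
                exact ⟨hcu, h9 _⟩
              · rw [hE1, Function.update_of_ne hc']
                exact h9 c'
          · intro o _ θ hθ
            obtain ⟨g1, g2, g3, g4, g5⟩ := inW_mk'.1 hθ
            cases o with
            | none =>
              refine ⟨fun c' => ?_, g2, g3, g4, g5⟩
              have g6 : θ.1 c' ∈ E1 c' := g1 c'
              by_cases hc' : c' = co y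
              · subst hc'
                rw [hE1, Function.update_self] at g6
                exact mem_of_mem_erase g6
              · rwa [hE1, Function.update_of_ne hc'] at g6
            | some b =>
              refine ⟨fun c' => ?_, g2, g3, fun q' a' h => g4 q' a' (hext b q' a' h), g5⟩
              have g6 : θ.1 c' ∈ E2 c' := g1 c'
              by_cases hc' : c' = co y
              · subst hc'
                rw [hE2, Function.update_self, mem_singleton] at g6
                rw [g6]
                exact hwE
              · rwa [hE2, Function.update_of_ne hc'] at g6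
          · intro o _ c'
            cases o with
            | none =>
              show E1 c' ⊆ E c'
              by_cases hc' : c' = co y
              · subst hc'
                rw [hE1, Function.update_self]
                exact erase_subset _ _
              · rw [hE1, Function.update_of_ne hc']
            | some b =>
              show E2 c' ⊆ E c'
              by_cases hc' : c' = co y
              · subst hc'
                rw [hE2, Function.update_self]
                exact singleton_subset_iff.2 hwE
              · rw [hE2, Function.update_of_ne hc']
          · intro o _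
            cases o with
            | none => exact hSt1
            | some b => exact hSt2 b
          · intro o _
            refine rv_same (fun t => ?_) hσ.rv
            cases o with
            | none =>
              show E1 (cg t) = E (cg t)
              rw [hE1, Function.update_of_ne (by simp)]
            | some b =>
              show E2 (cg t) = E (cg t)
              rw [hE2, Function.update_of_ne (by simp)]
          · intro o _
            cases o with
            | none =>
              refine ⟨false, fun θ hθ => ?_⟩
              obtain ⟨g1, g2⟩ := inW_mk'.1 hθ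
              have g3 : θ.1 (co y) ∈ E1 (co y) := g1 _
              rw [hE1, Function.update_self, mem_erase] at g3
              have g4 : InW G σ θ := by
                refine ⟨fun c' => ?_, g2⟩
                have g5 : θ.1 c' ∈ E1 c' := g1 c'
                by_cases hc' : c' = co y
                · subst hc'
                  exact g3.2
                · rwa [hE1, Function.update_of_ne hc'] at g5
              rw [Bool.eq_false_iff]
              intro h
              exact g3.1 (hw θ g4 h)
            | some b =>
              refine ⟨b, fun θ hθ => ?_⟩
              refine (inW_mk'.1 hθ).2.2.2.1 q b ?_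
              show Function.update κ q (some b) q = some b
              rw [Function.update_self]
          · rw [Fintype.sum_option, Fintype.sum_bool]
            show mass E1 S * wf E1 + (mass E2 S * wf E2 + mass E2 S * wf E2) ≤ _
            rw [hm1, hm2]
            linarith
        · refine det false fun θ hθ => ?_
          rw [Bool.eq_false_iff]
          intro h
          have h3 := hmemE θ hθ (co y)
          rw [h1, mem_singleton] at h3
          have h4 := hw θ hθ h
          exact h2 q w1 hc (h4.symm.trans h3) hκ
      · refine det false fun θ hθ => ?_
        rw [Bool.eq_false_iff]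
        intro h
        exact hwE (hw θ hθ h ▸ hmemE θ hθ (co y))
    | hash t f =>
      have hh := fun θ hθ => hG.hash q t f hc θ (hmem0 θ hθ) hθ.2.1
      rcases hSt.hg t with ⟨hH, htS⟩ | ⟨γ0, h1, h2⟩
      · refine Spl2.imp (hash_split2 hG hδ hD1 hwf hσ hk hH htS) fun τ k' hτ ⟨γ, h1, h2⟩ => ?_
        have hm : ∀ θ, InW G τ θ → θ.1 (cg t) = γ := fun θ hθ => by
          have h3 := hθ.1 (cg t)
          rwa [h1, mem_singleton] at h3
        rcases h2 with h2 | h2
        · refine ⟨f γ (τ.v t), fun θ hθ => ?_⟩
          rw [hh θ (hτ.sub θ hθ), hm θ hθ, hθ.2.2.1 t h2]
        · cases hκq : τ.κ q with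
          | none => exact absurd hκq (h2 q f hc)
          | some a => exact ⟨a, fun θ hθ => hθ.2.2.2.1 q a hκq⟩
      · rcases h2 with h2 | h2
        · refine det (f γ0 (σ.v t)) fun θ hθ => ?_
          have h3 := hmemE θ hθ (cg t)
          rw [h1, mem_singleton] at h3
          rw [hh θ hθ, h3, hθ.2.2.1 t h2]
        · exact absurd hκ (h2 q f hc)

end game

end OAlg
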