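import Pool.Agent.Work.MP_609cce_lc_alg2.Base2
import Pool.Agent.Work.MP_609cce_lc_alg.Bound

/-!
# The collision game: a run with few queries rarely finds two sequences with the same name
-/

namespace OAlg

open OEth Orc Finset
open Classical

set_option linter.unusedSectionVars false

section game

variable {X Y T P Q C : Type} {W U M : C → Type} [∀ c, AddCommGroup (M c)]
  [Fintype X] [Fintype Y] [Fintype T] [Fintype P] [Fintype C]
  [∀ c, Fintype (W c)] [∀ c, Fintype (U c)] [∀ c, Fintype (M c)]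
  {G : AG X Y T P Q C W U M} {E0 : Co X Y T → Finset (List Bool)} {H D : ℕ} {δ : ℝ}
  {wf : (Co X Y T → Finset (List Bool)) → ℝ}

/-- the number of worlds of a state, with the weight -/
theorem worlds_boundW (hG : G.OK E0 H) {k : ℕ} {σ : Stt X Y T Q W U M}
    (hσ : Valid2 G E0 H k σ) (F : Finset (Wo X Y T P U M)) (hF : ∀ θ ∈ F, InW G σ θ) {b : ℝ}
    (hb : b ≤ wf σ.E) (hw : 0 ≤ wf σ.E) :
    (F.card : ℝ) * b ≤ 2 ^ Fintype.card P * phiW G wf σ := by
  have h1 := worlds_bound hG hσ.valid F hF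
  have h2 : phiW G wf σ = phi G [] σ * wf σ.E := by
    unfold phiW phi pot
    simp only [List.map_nil, List.prod_nil, mul_one]
    ring
  calc (F.card : ℝ) * b ≤ F.card * wf σ.E := mul_le_mul_of_nonneg_left hb (Nat.cast_nonneg _)
    _ ≤ 2 ^ Fintype.card P * phi G [] σ * wf σ.E := mul_le_mul_of_nonneg_right h1 hw
    _ = _ := by rw [h2]; ring

/-- the weight of the collisions -/
noncomputable def wC (B : ℝ) (E : Co X Y T → Finset (List Bool)) : ℝ :=
  if ∃ t t' : T, t ≠ t' ∧ ∃ γ, E (cg t) = {γ} ∧ E (cg t') = {γ} then B else 1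

theorem wC_congr (B : ℝ) {E E' : Co X Y T → Finset (List Bool)}
    (h : ∀ t, E' (cg t) = E (cg t)) : wC B E' = wC B E := by
  unfold wC
  simp only [h]

theorem wC_one_le {B : ℝ} (hB : 1 ≤ B) (E : Co X Y T → Finset (List Bool)) : 1 ≤ wC B E := by
  unfold wC
  split_ifs
  · exact hB
  · exact le_rfl

theorem wC_le {B : ℝ} (hB : 1 ≤ B) (E : Co X Y T → Finset (List Bool)) : wC B E ≤ B := by
  unfold wC
  split_ifs
  · exact le_rfl
  · exact hB

theorem wC_ok {B : ℝ} (hB : 1 ≤ B) (hH : 2 ≤ H) (hδ : 0 ≤ δ) (hBD : 2 * B * D ≤ δ * H) :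
    WOK (X := X) (Y := Y) (T := T) H D δ (wC B) := by
  refine ⟨fun E => zero_le_one.trans (wC_one_le hB E),
    fun E x s => wC_congr B fun t => Function.update_of_ne (by simp) _ _,
    fun E y s => wC_congr B fun t => Function.update_of_ne (by simp) _ _,
    fun E x b h1 => ?_, fun E S t hS hr ht => ?_⟩
  · rw [wC_congr B (E := E) fun t => Function.update_of_ne (by simp) _ _]
    refine le_mul_of_one_le_right (zero_le_one.trans (wC_one_le hB E)) ?_
    exact_mod_cast h1 x
  · set V : Finset (List Bool) := (univ.filter fun t => ¬ H ≤ (E (cg t)).card).biUnion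
      fun t' => if (E (cg t')).card = 1 then E (cg t') else ∅ with hV
    have hVc : V.card ≤ (univ.filter fun t => ¬ H ≤ (E (cg t)).card).card := by
      refine card_biUnion_le.trans ?_
      rw [card_eq_sum_ones]
      refine sum_le_sum fun t' _ => ?_
      split_ifs with h4
      · exact h4.le
      · simp
    have hmem : ∀ (t' : T) (γ : List Bool), E (cg t') = {γ} → γ ∈ V := by
      intro t' γ h
      rw [hV, mem_biUnion]
      refine ⟨t', mem_filter.2 ⟨mem_univ _, ?_⟩, ?_⟩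
      · rw [h, card_singleton]
        omega
      · rw [h, card_singleton, if_pos rfl]
        exact mem_singleton_self γ
    have hterm : ∀ γ ∈ E (cg t), (if ∃ t' ∈ S, E (cg t') = {γ} then (2 : ℝ) else 1) *
        wC B (Function.update E (cg t) {γ}) ≤ wC B E + if γ ∈ V then 2 * B else 0 := by
      intro γ _
      have h0 : 0 ≤ wC B (Function.update E (cg t) {γ}) :=
        zero_le_one.trans (wC_one_le hB _)
      by_cases hγ : γ ∈ V
      · rw [if_pos hγ]
        have h1 : (if ∃ t' ∈ S, E (cg t') = {γ} then (2 : ℝ) else 1) ≤ 2 := by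
          split_ifs <;> norm_num
        calc (if ∃ t' ∈ S, E (cg t') = {γ} then (2 : ℝ) else 1) *
              wC B (Function.update E (cg t) {γ})
            ≤ 2 * wC B (Function.update E (cg t) {γ}) := mul_le_mul_of_nonneg_right h1 h0
          _ ≤ 2 * B := by
              have := wC_le hB (Function.update E (cg t) {γ})
              linarith
          _ ≤ wC B E + 2 * B := by
              have := wC_one_le hB E
              linarith
      · rw [if_neg hγ, if_neg fun h => by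
          obtain ⟨t', _, h2⟩ := h
          exact hγ (hmem t' γ h2), one_mul, add_zero]
        refine le_of_eq ?_
        unfold wC
        congr 1
        refine propext ⟨?_, ?_⟩
        · rintro ⟨t1, t2, hne, γ', h1, h2⟩
          by_cases e1 : t1 = t
          · exfalso
            subst e1
            rw [Function.update_self] at h1
            rw [Function.update_of_ne (by simpa using Ne.symm hne), ← h1] at h2
            exact hγ (hmem t2 γ h2)
          · by_cases e2 : t2 = t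
            · exfalso
              subst e2
              rw [Function.update_self] at h2
              rw [Function.update_of_ne (by simpa using hne), ← h2] at h1
              exact hγ (hmem t1 γ h1)
            · rw [Function.update_of_ne (by simpa using e1)] at h1
              rw [Function.update_of_ne (by simpa using e2)] at h2
              exact ⟨t1, t2, hne, γ', h1, h2⟩
        · rintro ⟨t1, t2, hne, γ', h1, h2⟩
          have e1 : t1 ≠ t := fun h => by
            rw [← h, h1, card_singleton] at ht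
            omega
          have e2 : t2 ≠ t := fun h => by
            rw [← h, h2, card_singleton] at ht
            omega
          refine ⟨t1, t2, hne, γ', ?_, ?_⟩
          · rw [Function.update_of_ne (by simpa using e1)]; exact h1
          · rw [Function.update_of_ne (by simpa using e2)]; exact h2
    have h1 := sum_le_sum hterm
    rw [sum_add_distrib, sum_const, nsmul_eq_mul, ← sum_filter, sum_const, nsmul_eq_mul] at h1
    refine h1.trans ?_
    have h2 : (((E (cg t)).filter fun γ => γ ∈ V).card : ℝ) ≤ D := by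
      have h3 : ((E (cg t)).filter fun γ => γ ∈ V).card ≤ V.card :=
        card_le_card fun γ hγ => (mem_filter.1 hγ).2
      have h4 : ((E (cg t)).filter fun γ => γ ∈ V).card ≤ D := by omega
      exact_mod_cast h4
    have h3 : (H : ℝ) ≤ ((E (cg t)).card : ℝ) := by exact_mod_cast ht
    have h4 := wC_one_le hB E
    have h5 : (((E (cg t)).filter fun γ => γ ∈ V).card : ℝ) * (2 * B) ≤
        ((E (cg t)).card : ℝ) * δ * wC B E := by
      calc (((E (cg t)).filter fun γ => γ ∈ V).card : ℝ) * (2 * B)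
          ≤ D * (2 * B) := mul_le_mul_of_nonneg_right h2 (by linarith)
        _ = 2 * B * D := by ring
        _ ≤ δ * H := hBD
        _ ≤ δ * ((E (cg t)).card : ℝ) := mul_le_mul_of_nonneg_left h3 hδ
        _ ≤ δ * ((E (cg t)).card : ℝ) * wC B E := le_mul_of_one_le_right (by positivity) h4
        _ = _ := by ring
    linarith

/-- a name is revealed -/
theorem reveal_split (hG : G.OK E0 H) (hδ : 0 ≤ δ) (hD1 : ∀ a : ℕ, H ≤ a + D → 1 ≤ δ * a)
    (hwf : WOK H D δ wf) {k : ℕ} {σ : Stt X Y T Q W U M} (hσ : Valid2 G E0 H k σ)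
    (hk : k + 1 ≤ D) (t : T) :
    Spl2 G E0 H δ wf 0 1 k σ fun τ => ∃ γ, τ.E (cg t) = {γ} := by
  rcases hσ.st.hg t with ⟨h1, h2⟩ | ⟨γ, h1, _⟩
  · exact Spl2.imp (hash_split2 hG hδ hD1 hwf hσ hk h1 h2) fun τ _ _ ⟨γ, h3, _⟩ => ⟨γ, h3⟩
  · exact Spl2.refl hδ hwf.nonneg hσ ⟨γ, h1⟩ 1

/-- **The bound for collisions.** -/
theorem coll_bound (hG : G.OK E0 H) (hδ : 0 ≤ δ) (hD1 : ∀ a : ℕ, H ≤ a + D → 1 ≤ δ * a)
    {B : ℝ} (hB : 1 ≤ B) (hH : 2 ≤ H) (hBD : 2 * B * D ≤ δ * H) (hR : Res G E0)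
    {R : Type} {L t : ℕ} {tr : ATreeR R Q C U M} (htr : BdR G L tr t) (out : R → Option (T × T))
    {σ : Stt X Y T Q W U M} {k : ℕ} (hσ : Valid2 G E0 H k σ) (hk : k + cr G L σ + (t + 2) ≤ D)
    (F : Finset (Wo X Y T P U M)) (hF : ∀ θ ∈ F, InW G σ θ ∧ ∃ t₁ t₂,
      out (tr.eval G θ) = some (t₁, t₂) ∧ t₁ ≠ t₂ ∧ θ.1 (cg t₁) = θ.1 (cg t₂)) :
    (F.card : ℝ) * B ≤ 2 ^ Fintype.card P *
      ((1 + δ) ^ (t + 2) * (phiW G (wC B) σ * (1 + δ) ^ cr G L σ)) := by
  have hwf : WOK (X := X) (Y := Y) (T := T) H D δ (wC B) := wC_ok hB hH hδ hBD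
  have hP : (0 : ℝ) < 2 ^ Fintype.card P := by positivity
  have h1 := tree_split2 hδ hwf.nonneg (base_split2 hG hδ hD1 hwf) hR L R tr t htr k σ hσ
    (by omega)
  have rev : ∀ (k' : ℕ) (τ : Stt X Y T Q W U M), Valid2 G E0 H k' τ → k' + 1 ≤ D → ∀ t₁,
      Spl2 G E0 H δ (wC B) L 1 k' τ fun τ => ∃ γ, τ.E (cg t₁) = {γ} := fun k' τ hτ hk' t₁ =>
    Spl2.imp (Spl2.lift (Nat.zero_le L) hδ (reveal_split hG hδ hD1 hwf hτ hk' t₁))
      fun _ _ _ h => h.1
  have h2 : Spl2 G E0 H δ (wC B) L (t + 2) k σ fun τ => ∃ b,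
      (∀ θ, InW G τ θ → tr.eval G θ = b) ∧ ∀ t₁ t₂, out b = some (t₁, t₂) →
        ∃ γ₁ γ₂, τ.E (cg t₁) = {γ₁} ∧ τ.E (cg t₂) = {γ₂} := by
    refine Spl2.comp hδ h1 fun τ k' hτ ⟨b, hb⟩ => ?_
    have hbud := hτ.bud
    cases ho : out b with
    | none =>
      refine Spl2.refl hδ hwf.nonneg hτ.valid ⟨b, hb, fun t₁ t₂ h => ?_⟩ 2
      rw [ho] at h
      exact absurd h (by simp)
    | some z =>
      obtain ⟨z1, z2⟩ := z
      refine Spl2.comp (d := 1) (d' := 1) hδ (rev k' τ hτ.valid (by omega) z1)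
        fun τ1 k1 hτ1 ⟨γ1, hγ1⟩ => ?_
      have hbud1 := hτ1.bud
      refine Spl2.imp (rev k1 τ1 hτ1.valid (by omega) z2) fun τ2 k2 hτ2 ⟨γ2, hγ2⟩ => ?_
      refine ⟨b, fun θ hθ => hb θ (hτ1.sub θ (hτ2.sub θ hθ)), fun t₁ t₂ h => ?_⟩
      rw [ho, Option.some.injEq, Prod.mk.injEq] at h
      rw [← h.1, ← h.2]
      have h3 : (τ2.E (cg z1)).card ≤ 1 := by
        have := card_le_card (hτ2.E (cg z1))
        rwa [hγ1, card_singleton] at this
      rcases hτ2.valid.st.hg z1 with ⟨h4, _⟩ | ⟨γ, h4, _⟩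
      · omega
      · exact ⟨γ, γ2, h4, hγ2⟩
  obtain ⟨ι, hι, τ, kk, g1, g2, g3⟩ := h2
  have hcov : F ⊆ univ.biUnion fun i => F.filter fun θ => InW G (τ i) θ := by
    intro θ hθ
    obtain ⟨i, hi⟩ := g1 θ (hF θ hθ).1
    exact mem_biUnion.2 ⟨i, mem_univ _, mem_filter.2 ⟨hθ, hi⟩⟩
  have hpart : ∀ i, ((F.filter fun θ => InW G (τ i) θ).card : ℝ) * B ≤ 2 ^ Fintype.card P *
      (phiW G (wC B) (τ i) * (1 + δ) ^ cr G L (τ i)) := by
    intro i
    obtain ⟨b1, b, hb, hb2⟩ := g2 i
    have hone : (1 : ℝ) ≤ (1 + δ) ^ cr G L (τ i) := one_le_pow₀ (by linarith)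
    have hph := phiW_nonneg G hwf.nonneg (τ i)
    rcases (F.filter fun θ => InW G (τ i) θ).eq_empty_or_nonempty with he | ⟨θ0, hθ0⟩
    · rw [he, card_empty, Nat.cast_zero, zero_mul]
      positivity
    · obtain ⟨hθ1, hθ2⟩ := mem_filter.1 hθ0
      obtain ⟨t₁, t₂, h5, hne, h6⟩ := (hF θ0 hθ1).2
      rw [hb θ0 hθ2] at h5
      obtain ⟨γ₁, γ₂, h7, h8⟩ := hb2 t₁ t₂ h5
      have h9 := hθ2.1 (cg t₁)
      have h10 := hθ2.1 (cg t₂)
      rw [h7, mem_singleton] at h9
      rw [h8, mem_singleton] at h10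
      have h11 : B ≤ wC B (τ i).E := by
        unfold wC
        rw [if_pos ⟨t₁, t₂, hne, γ₁, h7, by rw [h8, ← h10, ← h6, h9]⟩]
      refine (worlds_boundW hG b1.valid _ (fun θ hθ => (mem_filter.1 hθ).2) h11
        (hwf.nonneg _)).trans ?_
      exact mul_le_mul_of_nonneg_left (le_mul_of_one_le_right hph hone) hP.le
  have hcard : (F.card : ℝ) ≤ ∑ i, ((F.filter fun θ => InW G (τ i) θ).card : ℝ) := by
    exact_mod_cast (card_le_card hcov).trans card_biUnion_le
  calc (F.card : ℝ) * B ≤ (∑ i, ((F.filter fun θ => InW G (τ i) θ).card : ℝ)) * B :=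
        mul_le_mul_of_nonneg_right hcard (by linarith)
    _ = ∑ i, ((F.filter fun θ => InW G (τ i) θ).card : ℝ) * B := by rw [sum_mul]
    _ ≤ ∑ i, 2 ^ Fintype.card P * (phiW G (wC B) (τ i) * (1 + δ) ^ cr G L (τ i)) :=
        sum_le_sum fun i _ => hpart i
    _ = 2 ^ Fintype.card P * ∑ i, phiW G (wC B) (τ i) * (1 + δ) ^ cr G L (τ i) := by
        rw [mul_sum]
    _ ≤ _ := mul_le_mul_of_nonneg_left g3 hP.le

end game

end OAlg
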