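import Pool.Agent.Work.MP_609cce_lc_alg2.Coll2

/-!
# The collision game with keys: many runs at once
-/

namespace OAlg

open OEth Orc Finset
open Classical

set_option linter.unusedSectionVars false

section game

variable {X Y T P Q C : Type} {W U M : C → Type} [∀ c, AddCommGroup (M c)]
  [Fintype X] [Fintype Y] [Fintype T] [Fintype P] [Fintype C]
  [∀ c, Fintype (W c)] [∀ c, Fintype (U c)] [∀ c, Fintype (M c)]
  {G : AG X Y T P Q C W U M} {E0 : Co X Y T → Finset (List Bool)} {H D : ℕ} {δ : ℝ}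
  {wf : (Co X Y T → Finset (List Bool)) → ℝ}

/-- a weight which grows at most by the factor `B`, and only when a known name appears again -/
theorem wok_of {B : ℝ} (hB : 1 ≤ B) (hH : 2 ≤ H) (hδ : 0 ≤ δ) (hBD : 2 * B * D ≤ δ * H)
    (h0 : ∀ E, 0 ≤ wf E)
    (hc : ∀ E E' : Co X Y T → Finset (List Bool), (∀ t, E' (cg t) = E (cg t)) → wf E' = wf E)
    (hup : ∀ (E : Co X Y T → Finset (List Bool)) (t : T) (γ : List Bool),
      H ≤ (E (cg t)).card → wf (Function.update E (cg t) {γ}) ≤ B * wf E)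
    (hnew : ∀ (E : Co X Y T → Finset (List Bool)) (t : T) (γ : List Bool),
      H ≤ (E (cg t)).card → (∀ t', E (cg t') ≠ {γ}) →
      wf (Function.update E (cg t) {γ}) ≤ wf E) : WOK H D δ wf := by
  refine ⟨h0, fun E x s => hc _ _ fun t => Function.update_of_ne (by simp) _ _,
    fun E y s => hc _ _ fun t => Function.update_of_ne (by simp) _ _,
    fun E x b h1 => ?_, fun E S t hS hr ht => ?_⟩
  · rw [hc E _ fun t => Function.update_of_ne (by simp) _ _]
    refine le_mul_of_one_le_right (h0 E) ?_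
    exact_mod_cast h1 x
  · set V : Finset (List Bool) := (univ.filter fun t => ¬ H ≤ (E (cg t)).card).biUnion
      fun t' => if (E (cg t')).card = 1 then E (cg t') else ∅ with hV
    have hVc : V.card ≤ (univ.filter fun t => ¬ H ≤ (E (cg t)).card).card := by
      refine card_biUnion_le.trans ?_
      rw [card_eq_sum_ones]
      refine sum_le_sum fun t' _ => ?_
      split_ifs with h4
      · exact h4.le
      · simp
    have hmem : ∀ (t' : T) (γ : List Bool), E (cg t') = {γ} → γ ∈ V := by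
      intro t' γ h
      rw [hV, mem_biUnion]
      refine ⟨t', mem_filter.2 ⟨mem_univ _, ?_⟩, ?_⟩
      · rw [h, card_singleton]
        omega
      · rw [h, card_singleton, if_pos rfl]
        exact mem_singleton_self γ
    have hE := h0 E
    have hterm : ∀ γ ∈ E (cg t), (if ∃ t' ∈ S, E (cg t') = {γ} then (2 : ℝ) else 1) *
        wf (Function.update E (cg t) {γ}) ≤ wf E + if γ ∈ V then 2 * B * wf E else 0 := by
      intro γ _
      have h0' : 0 ≤ wf (Function.update E (cg t) {γ}) := h0 _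
      by_cases hγ : γ ∈ V
      · rw [if_pos hγ]
        have h1 : (if ∃ t' ∈ S, E (cg t') = {γ} then (2 : ℝ) else 1) ≤ 2 := by
          split_ifs <;> norm_num
        calc (if ∃ t' ∈ S, E (cg t') = {γ} then (2 : ℝ) else 1) *
              wf (Function.update E (cg t) {γ})
            ≤ 2 * wf (Function.update E (cg t) {γ}) := mul_le_mul_of_nonneg_right h1 h0'
          _ ≤ 2 * (B * wf E) := mul_le_mul_of_nonneg_left (hup E t γ ht) (by norm_num)
          _ ≤ wf E + 2 * B * wf E := by linarith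
      · rw [if_neg hγ, if_neg fun h => by
          obtain ⟨t', _, h2⟩ := h
          exact hγ (hmem t' γ h2), one_mul, add_zero]
        exact hnew E t γ ht fun t' h => hγ (hmem t' γ h)
    have h1 := sum_le_sum hterm
    rw [sum_add_distrib, sum_const, nsmul_eq_mul, ← sum_filter, sum_const, nsmul_eq_mul] at h1
    refine h1.trans ?_
    have h2 : (((E (cg t)).filter fun γ => γ ∈ V).card : ℝ) ≤ D := by
      have h3 : ((E (cg t)).filter fun γ => γ ∈ V).card ≤ V.card :=
        card_le_card fun γ hγ => (mem_filter.1 hγ).2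
      have h4 : ((E (cg t)).filter fun γ => γ ∈ V).card ≤ D := by omega
      exact_mod_cast h4
    have h3 : (H : ℝ) ≤ ((E (cg t)).card : ℝ) := by exact_mod_cast ht
    have h5 : (((E (cg t)).filter fun γ => γ ∈ V).card : ℝ) * (2 * B * wf E) ≤
        ((E (cg t)).card : ℝ) * δ * wf E := by
      calc (((E (cg t)).filter fun γ => γ ∈ V).card : ℝ) * (2 * B * wf E)
          ≤ D * (2 * B * wf E) := mul_le_mul_of_nonneg_right h2 (by positivity)
        _ = 2 * B * D * wf E := by ring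
        _ ≤ δ * H * wf E := mul_le_mul_of_nonneg_right hBD hE
        _ ≤ δ * ((E (cg t)).card : ℝ) * wf E :=
            mul_le_mul_of_nonneg_right (mul_le_mul_of_nonneg_left h3 hδ) hE
        _ = _ := by ring
    linarith

variable {K : Type}

/-- the weight of the collisions with the key `κ` -/
noncomputable def wK (key : T → K) (B : ℝ) (κ : K) (E : Co X Y T → Finset (List Bool)) : ℝ :=
  if ∃ t t' : T, t ≠ t' ∧ key t = κ ∧ key t' = κ ∧ ∃ γ, E (cg t) = {γ} ∧ E (cg t') = {γ}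
  then B else 1

/-- the weight of the collisions with the keys in `S` -/
noncomputable def wKs (key : T → K) (B : ℝ) (S : Finset K)
    (E : Co X Y T → Finset (List Bool)) : ℝ := ∏ κ ∈ S, wK key B κ E

theorem wK_congr (key : T → K) (B : ℝ) (κ : K) {E E' : Co X Y T → Finset (List Bool)}
    (h : ∀ t, key t = κ → E' (cg t) = E (cg t)) : wK key B κ E' = wK key B κ E := by
  unfold wK
  congr 1
  refine propext ⟨?_, ?_⟩
  · rintro ⟨t, t', hne, h1, h2, γ, h3, h4⟩
    exact ⟨t, t', hne, h1, h2, γ, by rw [← h t h1]; exact h3, by rw [← h t' h2]; exact h4⟩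
  · rintro ⟨t, t', hne, h1, h2, γ, h3, h4⟩
    exact ⟨t, t', hne, h1, h2, γ, by rw [h t h1]; exact h3, by rw [h t' h2]; exact h4⟩

theorem wK_one_le {B : ℝ} (hB : 1 ≤ B) (key : T → K) (κ : K)
    (E : Co X Y T → Finset (List Bool)) : 1 ≤ wK key B κ E := by
  unfold wK
  split_ifs
  · exact hB
  · exact le_rfl

theorem wK_le {B : ℝ} (hB : 1 ≤ B) (key : T → K) (κ : K)
    (E : Co X Y T → Finset (List Bool)) : wK key B κ E ≤ B := by
  unfold wK
  split_ifs
  · exact le_rfl
  · exact hB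

theorem wKs_one_le {B : ℝ} (hB : 1 ≤ B) (key : T → K) (S : Finset K)
    (E : Co X Y T → Finset (List Bool)) : 1 ≤ wKs key B S E := by
  unfold wKs
  have h := Finset.prod_le_prod (s := S) (f := fun _ : K => (1 : ℝ))
    (g := fun κ => wK key B κ E) (fun _ _ => zero_le_one) fun κ _ => wK_one_le hB key κ E
  rwa [prod_const_one] at h

theorem wKs_ok {B : ℝ} (hB : 1 ≤ B) (hH : 2 ≤ H) (hδ : 0 ≤ δ) (hBD : 2 * B * D ≤ δ * H)
    (key : T → K) (S : Finset K) : WOK (X := X) (Y := Y) (T := T) H D δ (wKs key B S) := by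
  have hpos : ∀ (κ : K) (E : Co X Y T → Finset (List Bool)), 0 ≤ wK key B κ E :=
    fun κ E => zero_le_one.trans (wK_one_le hB key κ E)
  refine wok_of hB hH hδ hBD (fun E => prod_nonneg fun κ _ => hpos κ E)
    (fun E E' h => prod_congr rfl fun κ _ => wK_congr key B κ fun t _ => h t) ?_ ?_
  · intro E t γ _
    have hrest : ∀ κ ∈ S.erase (key t), wK key B κ (Function.update E (cg t) {γ}) =
        wK key B κ E := by
      intro κ hκ
      refine wK_congr key B κ fun t' ht' => Function.update_of_ne ?_ _ _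
      have hne := (mem_erase.1 hκ).1
      intro h
      have h' : t' = t := by simpa using h
      exact hne (by rw [← ht', h'])
    unfold wKs
    by_cases hk : key t ∈ S
    · rw [← mul_prod_erase S _ hk, ← mul_prod_erase S (fun κ => wK key B κ E) hk,
        prod_congr rfl hrest]
      have h1 := wK_le hB key (key t) (Function.update E (cg t) {γ})
      have h2 := wK_one_le hB key (key t) E
      have h3 : 0 ≤ ∏ κ ∈ S.erase (key t), wK key B κ E := prod_nonneg fun κ _ => hpos κ E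
      calc wK key B (key t) (Function.update E (cg t) {γ}) *
            ∏ κ ∈ S.erase (key t), wK key B κ E
          ≤ B * ∏ κ ∈ S.erase (key t), wK key B κ E := mul_le_mul_of_nonneg_right h1 h3
        _ ≤ B * (wK key B (key t) E * ∏ κ ∈ S.erase (key t), wK key B κ E) :=
            mul_le_mul_of_nonneg_left (le_mul_of_one_le_left h3 h2) (by linarith)
    · rw [erase_eq_of_notMem hk] at hrest
      rw [prod_congr rfl hrest]
      exact le_mul_of_one_le_left (prod_nonneg fun κ _ => hpos κ E) hB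
  · intro E t γ ht hγ
    refine le_of_eq (prod_congr rfl fun κ _ => ?_)
    unfold wK
    congr 1
    refine propext ⟨?_, ?_⟩
    · rintro ⟨t1, t2, hne, k1, k2, γ', h1, h2⟩
      by_cases e1 : t1 = t
      · exfalso
        subst e1
        rw [Function.update_self] at h1
        rw [Function.update_of_ne (by simpa using Ne.symm hne), ← h1] at h2
        exact hγ t2 h2
      · by_cases e2 : t2 = t
        · exfalso
          subst e2
          rw [Function.update_self] at h2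
          rw [Function.update_of_ne (by simpa using hne), ← h2] at h1
          exact hγ t1 h1
        · rw [Function.update_of_ne (by simpa using e1)] at h1
          rw [Function.update_of_ne (by simpa using e2)] at h2
          exact ⟨t1, t2, hne, k1, k2, γ', h1, h2⟩
    · rintro ⟨t1, t2, hne, k1, k2, γ', h1, h2⟩
      have e1 : t1 ≠ t := fun h => by
        rw [← h, h1, card_singleton] at ht
        omega
      have e2 : t2 ≠ t := fun h => by
        rw [← h, h2, card_singleton] at ht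
        omega
      refine ⟨t1, t2, hne, k1, k2, γ', ?_, ?_⟩
      · rw [Function.update_of_ne (by simpa using e1)]; exact h1
      · rw [Function.update_of_ne (by simpa using e2)]; exact h2

/-- the run of the tree is known, with the names of its output -/
def Known {R : Type} (G : AG X Y T P Q C W U M) (tr : ATreeR R Q C U M) (out : R → Option (T × T))
    (τ : Stt X Y T Q W U M) : Prop :=
  ∃ b, (∀ θ, InW G τ θ → tr.eval G θ = b) ∧ ∀ t₁ t₂, out b = some (t₁, t₂) →
    ∃ γ₁ γ₂, τ.E (cg t₁) = {γ₁} ∧ τ.E (cg t₂) = {γ₂}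

theorem single_ref (hH : 2 ≤ H) {L d k k' : ℕ} {σ τ : Stt X Y T Q W U M}
    (h : Ref G E0 H L d k σ k' τ) {t : T} {γ : List Bool} (h1 : σ.E (cg t) = {γ}) :
    ∃ γ', τ.E (cg t) = {γ'} := by
  have h3 : (τ.E (cg t)).card ≤ 1 := by
    have := card_le_card (h.E (cg t))
    rwa [h1, card_singleton] at this
  rcases h.valid.st.hg t with ⟨h4, _⟩ | ⟨γ', h4, _⟩
  · omega
  · exact ⟨γ', h4⟩

theorem Known.ref {R : Type} (hH : 2 ≤ H) {tr : ATreeR R Q C U M} {out : R → Option (T × T)}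
    {L d k k' : ℕ} {σ τ : Stt X Y T Q W U M} (h : Ref G E0 H L d k σ k' τ)
    (hK : Known G tr out σ) : Known G tr out τ := by
  obtain ⟨b, hb, h2⟩ := hK
  refine ⟨b, fun θ hθ => hb θ (h.sub θ hθ), fun t₁ t₂ ho => ?_⟩
  obtain ⟨γ₁, γ₂, h3, h4⟩ := h2 t₁ t₂ ho
  obtain ⟨γ₃, h5⟩ := single_ref hH h h3
  obtain ⟨γ₄, h6⟩ := single_ref hH h h4
  exact ⟨γ₃, γ₄, h5, h6⟩

/-- one run -/
theorem known_split (hG : G.OK E0 H) (hδ : 0 ≤ δ) (hD1 : ∀ a : ℕ, H ≤ a + D → 1 ≤ δ * a)
    (hH : 2 ≤ H) (hwf : WOK H D δ wf) (hR : Res G E0)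
    {R : Type} {L t : ℕ} {tr : ATreeR R Q C U M} (htr : BdR G L tr t) (out : R → Option (T × T))
    {σ : Stt X Y T Q W U M} {k : ℕ} (hσ : Valid2 G E0 H k σ)
    (hk : k + cr G L σ + (t + 2) ≤ D) : Spl2 G E0 H δ wf L (t + 2) k σ (Known G tr out) := by
  have h1 := tree_split2 hδ hwf.nonneg (base_split2 hG hδ hD1 hwf) hR L R tr t htr k σ hσ
    (by omega)
  have rev : ∀ (k' : ℕ) (τ : Stt X Y T Q W U M), Valid2 G E0 H k' τ → k' + 1 ≤ D → ∀ t₁,
      Spl2 G E0 H δ wf L 1 k' τ fun τ => ∃ γ, τ.E (cg t₁) = {γ} := fun k' τ hτ hk' t₁ =>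
    Spl2.imp (Spl2.lift (Nat.zero_le L) hδ (reveal_split hG hδ hD1 hwf hτ hk' t₁))
      fun _ _ _ h => h.1
  refine Spl2.comp hδ h1 fun τ k' hτ ⟨b, hb⟩ => ?_
  have hbud := hτ.bud
  cases ho : out b with
  | none =>
    refine Spl2.refl hδ hwf.nonneg hτ.valid ⟨b, hb, fun t₁ t₂ h => ?_⟩ 2
    rw [ho] at h
    exact absurd h (by simp)
  | some z =>
    obtain ⟨z1, z2⟩ := z
    refine Spl2.comp (d := 1) (d' := 1) hδ (rev k' τ hτ.valid (by omega) z1)
      fun τ1 k1 hτ1 ⟨γ1, hγ1⟩ => ?_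
    have hbud1 := hτ1.bud
    refine Spl2.imp (rev k1 τ1 hτ1.valid (by omega) z2) fun τ2 k2 hτ2 ⟨γ2, hγ2⟩ => ?_
    refine ⟨b, fun θ hθ => hb θ (hτ1.sub θ (hτ2.sub θ hθ)), fun t₁ t₂ h => ?_⟩
    rw [ho, Option.some.injEq, Prod.mk.injEq] at h
    rw [← h.1, ← h.2]
    obtain ⟨γ, h4⟩ := single_ref hH hτ2 hγ1
    exact ⟨γ, γ2, h4, hγ2⟩

/-- many runs -/
theorem known_all (hG : G.OK E0 H) (hδ : 0 ≤ δ) (hD1 : ∀ a : ℕ, H ≤ a + D → 1 ≤ δ * a)
    (hH : 2 ≤ H) (hwf : WOK H D δ wf) (hR : Res G E0)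
    {R : Type} {L t : ℕ} (tr : K → ATreeR R Q C U M) (out : K → R → Option (T × T)) :
    ∀ S : Finset K, (∀ κ ∈ S, BdR G L (tr κ) t) → ∀ (k : ℕ) (σ : Stt X Y T Q W U M),
    Valid2 G E0 H k σ → k + cr G L σ + S.card * (t + 2) ≤ D →
    Spl2 G E0 H δ wf L (S.card * (t + 2)) k σ fun τ => ∀ κ ∈ S, Known G (tr κ) (out κ) τ := by
  intro S
  induction S using Finset.induction_on with
  | empty =>
    intro _ k σ hσ _
    exact Spl2.refl hδ hwf.nonneg hσ (fun κ hκ => absurd hκ (notMem_empty κ)) _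
  | insert κ S hκ ih =>
    intro htr k σ hσ hk
    have e1 : (insert κ S).card * (t + 2) = (t + 2) + S.card * (t + 2) := by
      rw [card_insert_of_notMem hκ]
      ring
    rw [e1] at hk ⊢
    refine Spl2.comp hδ (known_split hG hδ hD1 hH hwf hR (htr κ (mem_insert_self _ _)) (out κ) hσ
      (by omega)) fun τ k' hτ hK => ?_
    have hbud := hτ.bud
    refine Spl2.imp (ih (fun κ' h => htr κ' (mem_insert_of_mem h)) k' τ hτ.valid (by omega))
      fun τ' k'' hτ' hall κ' hκ' => ?_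
    rcases mem_insert.1 hκ' with rfl | h
    · exact hK.ref hH hτ'
    · exact hall κ' h

/-- **The bound for collisions with many keys.** -/
theorem coll_list_bound (hG : G.OK E0 H) (hδ : 0 ≤ δ) (hD1 : ∀ a : ℕ, H ≤ a + D → 1 ≤ δ * a)
    {B : ℝ} (hB : 1 ≤ B) (hH : 2 ≤ H) (hBD : 2 * B * D ≤ δ * H) (hR : Res G E0)
    (key : T → K) {R : Type} {L t : ℕ} (tr : K → ATreeR R Q C U M)
    (out : K → R → Option (T × T)) (S : Finset K) (htr : ∀ κ ∈ S, BdR G L (tr κ) t)
    {σ : Stt X Y T Q W U M} {k : ℕ} (hσ : Valid2 G E0 H k σ)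
    (hk : k + cr G L σ + S.card * (t + 2) ≤ D)
    (F : Finset (Wo X Y T P U M)) (hF : ∀ θ ∈ F, InW G σ θ ∧ ∀ κ ∈ S, ∃ t₁ t₂,
      out κ ((tr κ).eval G θ) = some (t₁, t₂) ∧ t₁ ≠ t₂ ∧ key t₁ = κ ∧ key t₂ = κ ∧
        θ.1 (cg t₁) = θ.1 (cg t₂)) :
    (F.card : ℝ) * B ^ S.card ≤ 2 ^ Fintype.card P *
      ((1 + δ) ^ (S.card * (t + 2)) * (phiW G (wKs key B S) σ * (1 + δ) ^ cr G L σ)) := by
  have hwf : WOK (X := X) (Y := Y) (T := T) H D δ (wKs key B S) := wKs_ok hB hH hδ hBD key S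
  have hP : (0 : ℝ) < 2 ^ Fintype.card P := by positivity
  obtain ⟨ι, hι, τ, kk, g1, g2, g3⟩ := known_all hG hδ hD1 hH hwf hR tr out S htr k σ hσ hk
  have hcov : F ⊆ univ.biUnion fun i => F.filter fun θ => InW G (τ i) θ := by
    intro θ hθ
    obtain ⟨i, hi⟩ := g1 θ (hF θ hθ).1
    exact mem_biUnion.2 ⟨i, mem_univ _, mem_filter.2 ⟨hθ, hi⟩⟩
  have hBS : (0 : ℝ) ≤ B ^ S.card := pow_nonneg (by linarith) _
  have hpart : ∀ i, ((F.filter fun θ => InW G (τ i) θ).card : ℝ) * B ^ S.card ≤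
      2 ^ Fintype.card P * (phiW G (wKs key B S) (τ i) * (1 + δ) ^ cr G L (τ i)) := by
    intro i
    obtain ⟨b1, hK⟩ := g2 i
    have hone : (1 : ℝ) ≤ (1 + δ) ^ cr G L (τ i) := one_le_pow₀ (by linarith)
    have hph := phiW_nonneg G hwf.nonneg (τ i)
    rcases (F.filter fun θ => InW G (τ i) θ).eq_empty_or_nonempty with he | ⟨θ0, hθ0⟩
    · rw [he, card_empty, Nat.cast_zero, zero_mul]
      positivity
    · obtain ⟨hθ1, hθ2⟩ := mem_filter.1 hθ0
      have h11 : B ^ S.card ≤ wKs key B S (τ i).E := by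
        unfold wKs
        rw [← prod_const]
        refine Finset.prod_le_prod (fun _ _ => by linarith) fun κ hκ => ?_
        obtain ⟨b, hb, hb2⟩ := hK κ hκ
        obtain ⟨t₁, t₂, h5, hne, k1, k2, h6⟩ := (hF θ0 hθ1).2 κ hκ
        rw [hb θ0 hθ2] at h5
        obtain ⟨γ₁, γ₂, h7, h8⟩ := hb2 t₁ t₂ h5
        have h9 := hθ2.1 (cg t₁)
        have h10 := hθ2.1 (cg t₂)
        rw [h7, mem_singleton] at h9
        rw [h8, mem_singleton] at h10
        unfold wK
        rw [if_pos ⟨t₁, t₂, hne, k1, k2, γ₁, h7, by rw [h8, ← h10, ← h6, h9]⟩]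
      refine (worlds_boundW hG b1.valid _ (fun θ hθ => (mem_filter.1 hθ).2) h11
        (hwf.nonneg _)).trans ?_
      exact mul_le_mul_of_nonneg_left (le_mul_of_one_le_right hph hone) hP.le
  have hcard : (F.card : ℝ) ≤ ∑ i, ((F.filter fun θ => InW G (τ i) θ).card : ℝ) := by
    exact_mod_cast (card_le_card hcov).trans card_biUnion_le
  calc (F.card : ℝ) * B ^ S.card
      ≤ (∑ i, ((F.filter fun θ => InW G (τ i) θ).card : ℝ)) * B ^ S.card :=
        mul_le_mul_of_nonneg_right hcard hBS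
    _ = ∑ i, ((F.filter fun θ => InW G (τ i) θ).card : ℝ) * B ^ S.card := by rw [sum_mul]
    _ ≤ ∑ i, 2 ^ Fintype.card P * (phiW G (wKs key B S) (τ i) * (1 + δ) ^ cr G L (τ i)) :=
        sum_le_sum fun i _ => hpart i
    _ = 2 ^ Fintype.card P * ∑ i, phiW G (wKs key B S) (τ i) * (1 + δ) ^ cr G L (τ i) := by
        rw [mul_sum]
    _ ≤ _ := mul_le_mul_of_nonneg_left g3 hP.le

end game

end OAlg
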