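import Pool.Agent.Work.MP_609cce_lc_alg.World
import Pool.Agent.Work.MP_609cce_lc_alg.RunT
import Pool.Agent.Work.MP_609cce_lc_eth.ERuns

/-!
# The second version: hardness almost everywhere and on average, collision resistance: definitions
-/

namespace ORDist

/-- with the oracle `A` the procedure `M` stops on the input `x` with the output `y`, after queries
of total cost at most `t`, where a query `q` costs `|q| + 1` -/
def RunsOut (A : List Bool → Bool) (M : OProc) (x : List Bool) (t : ℕ) (y : List Bool) : Prop :=
  ∃ k : ℕ, (∀ j < k, (M (x, answers A M x j)).1 = true) ∧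
    ∑ j ∈ Finset.range k, ((M (x, answers A M x j)).2.length + 1) ≤ t ∧
    M (x, answers A M x k) = (false, y)

/-- clocked simulation: the output of `M`, if it stops within the budget `t` -/
def simS (A : Str → Bool) (M : OProc) (inp : Str) (t : ℕ) (a : Str) : Option Str :=
  if (M (inp, a)).1 = true then
    if _h : (M (inp, a)).2.length < t then
      simS A M inp (t - (M (inp, a)).2.length - 1) (a ++ [A (M (inp, a)).2])
    else none
  else some (M (inp, a)).2
termination_by t

end ORDist

namespace OAlg

open ORDist hiding stepA stepR stepA_congr stepR_congr orc lang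
open OEth hiding orc lang par par_wf par_agr
open Orc Finset
open Classical

variable {Φ : Fields}

/-- the parameters agree on the finitely many strings, sequences and cubes of size less than `n` -/
structure AgrF (p p' : Par Φ) (n : ℕ) : Prop where
  base : ∀ x : Str, x.length < n → p.par.base x = p'.par.base x
  g : ∀ T : List Str, (seqBits T).length < n → p.par.g T = p'.par.g T
  pad : ∀ γ : Str, γ.length < n → p.par.pad γ = p'.par.pad γ
  om : ∀ y : Str, y.length < n → p.par.om y = p'.par.om y
  V : ∀ (s : Str) (k : ℕ), s.length < n → k < n → p.V s k = p'.V s k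

/-- all the worlds of a window -/
noncomputable def allW (Φ : Fields) (n N : ℕ) : Finset (WW Φ n N) :=
  (Fintype.piFinset E0) ×ˢ ((univ : Finset (IP n N → Bool)) ×ˢ
    (Fintype.piFinset fun c : IC n N => univ.filter fun f : CU Φ c → CM Φ c => Van f))

theorem mem_allW {n N : ℕ} {θ : WW Φ n N} :
    θ ∈ allW Φ n N ↔ (∀ c, θ.1 c ∈ E0 c) ∧ ∀ c : IC n N, Van (θ.2.2 c) := by
  unfold allW
  simp only [mem_product, Fintype.mem_piFinset, mem_univ, true_and, mem_filter]

end OAlg
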