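import Pool.Agent.Work.MP_609cce_lc_alg.Tree

/-!
# The game with extensions and a general weight: states, splittings, trees with any values
-/

namespace OAlg

open OEth Orc Finset
open Classical

set_option linter.unusedSectionVars false

/-- decision trees with queries and extension queries, and results in `R` -/
inductive ATreeR (R Q C : Type) (U M : C → Type) : Type
  | ret (r : R) : ATreeR R Q C U M
  | ask (q : Q) (t0 t1 : ATreeR R Q C U M) : ATreeR R Q C U M
  | alg (c : C) (y : U c) (k : M c → ATreeR R Q C U M) : ATreeR R Q C U M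

section game

variable {R X Y T P Q C : Type} {W U M : C → Type} [∀ c, AddCommGroup (M c)]
  [Fintype X] [Fintype Y] [Fintype T] [Fintype P] [Fintype C]
  [∀ c, Fintype (W c)] [∀ c, Fintype (U c)] [∀ c, Fintype (M c)]

/-- the result of the tree in a world -/
noncomputable def ATreeR.eval (G : AG X Y T P Q C W U M) (θ : Wo X Y T P U M) :
    ATreeR R Q C U M → R
  | .ret r => r
  | .ask q t0 t1 => bif G.B θ q then t1.eval G θ else t0.eval G θ
  | .alg c y k => (k (G.f θ c y)).eval G θ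

/-- the tree has cost at most `d` and uses cubes of level less than `L` only -/
inductive BdR (G : AG X Y T P Q C W U M) (L : ℕ) : ATreeR R Q C U M → ℕ → Prop
  | ret (r : R) (d : ℕ) : BdR G L (.ret r) d
  | ask (q : Q) (t0 t1 : ATreeR R Q C U M) (d : ℕ) : BdR G L t0 d → BdR G L t1 d →
      BdR G L (.ask q t0 t1) (d + 1)
  | alg (c : C) (y : U c) (k : M c → ATreeR R Q C U M) (d : ℕ) : G.lev c < L →
      (∀ α, BdR G L (k α) d) → BdR G L (.alg c y k) (G.wt c + d)

theorem BdR.mono {G : AG X Y T P Q C W U M} {L L' : ℕ} (hL : L ≤ L') {t : ATreeR R Q C U M}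
    {d : ℕ} (h : BdR G L t d) : ∀ d', d ≤ d' → BdR G L' t d' := by
  induction h with
  | ret b d => exact fun d' _ => BdR.ret b d'
  | ask q t0 t1 d _ _ ih0 ih1 =>
    intro d' hd
    obtain ⟨e, rfl⟩ : ∃ e, d' = e + 1 := ⟨d' - 1, by omega⟩
    exact BdR.ask q t0 t1 e (ih0 e (by omega)) (ih1 e (by omega))
  | alg c y k d hc _ ih =>
    intro d' hd
    obtain ⟨e, rfl⟩ : ∃ e, d' = G.wt c + e := ⟨d' - G.wt c, by omega⟩
    exact BdR.alg c y k e (by omega) fun α => ih α e (by omega)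

/-- continue a tree with boolean results by trees with results in `R` -/
def ATree.bindR (t : ATree Q C U M) (k : Bool → ATreeR R Q C U M) : ATreeR R Q C U M :=
  match t with
  | .ret b => k b
  | .ask q t0 t1 => .ask q (t0.bindR k) (t1.bindR k)
  | .alg c y g => .alg c y fun α => (g α).bindR k

theorem ATree.eval_bindR (G : AG X Y T P Q C W U M) (θ : Wo X Y T P U M)
    (t : ATree Q C U M) (k : Bool → ATreeR R Q C U M) :
    (t.bindR k).eval G θ = (k (t.eval G θ)).eval G θ := by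
  induction t with
  | ret b => rfl
  | ask q t0 t1 ih0 ih1 =>
    simp only [ATree.bindR, ATree.eval, ATreeR.eval]
    cases G.B θ q with
    | false => simpa using ih0
    | true => simpa using ih1
  | alg c y g ih =>
    simp only [ATree.bindR, ATree.eval, ATreeR.eval]
    exact ih _

theorem Bd.bindR {G : AG X Y T P Q C W U M} {L : ℕ} {t : ATree Q C U M}
    {k : Bool → ATreeR R Q C U M} {d d' : ℕ} (h : Bd G L t d) (hk : ∀ b, BdR G L (k b) d') :
    BdR G L (t.bindR k) (d + d') := by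
  induction h with
  | ret b d => exact BdR.mono le_rfl (hk b) _ (by omega)
  | ask q t0 t1 d _ _ ih0 ih1 =>
    have h1 := BdR.ask q _ _ _ ih0 ih1
    rwa [show d + 1 + d' = d + d' + 1 by omega]
  | alg c y g d hc _ ih =>
    have h1 := BdR.alg c y _ _ hc ih
    rwa [show G.wt c + d + d' = G.wt c + (d + d') by omega]

/-- a tree with boolean results -/
def ATree.toR (t : ATree Q C U M) : ATreeR Bool Q C U M := t.bindR ATreeR.ret

theorem ATree.eval_toR (G : AG X Y T P Q C W U M) (θ : Wo X Y T P U M) (t : ATree Q C U M) :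
    t.toR.eval G θ = t.eval G θ := t.eval_bindR G θ _

theorem Bd.toR {G : AG X Y T P Q C W U M} {L : ℕ} {t : ATree Q C U M} {d : ℕ}
    (h : Bd G L t d) : BdR G L t.toR d := h.bindR (d' := 0) fun b => BdR.ret b 0

/-! ### states -/

/-- the valid states after at most `k` queries -/
structure Valid2 (G : AG X Y T P Q C W U M) (E0 : Co X Y T → Finset (List Bool)) (H k : ℕ)
    (σ : Stt X Y T Q W U M) : Prop where
  st : St G.toG E0 H k σ.E σ.S σ.κ
  bits : ∀ c, ∀ w ∈ (G.cube c).B (σ.Sa c), ∀ θ, InW G σ θ → G.bit θ c w = σ.aa c w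
  rv : (univ.filter fun t => ¬ H ≤ (σ.E (cg t)).card).card ≤ k

theorem Valid2.valid {G : AG X Y T P Q C W U M} {E0 : Co X Y T → Finset (List Bool)} {H k : ℕ}
    {σ : Stt X Y T Q W U M} (h : Valid2 G E0 H k σ) : Valid G E0 H k σ := ⟨h.st, h.bits⟩

/-- the potential with the weight `w` -/
noncomputable def phiW (G : AG X Y T P Q C W U M) (w : (Co X Y T → Finset (List Bool)) → ℝ)
    (σ : Stt X Y T Q W U M) : ℝ := mass σ.E σ.S * w σ.E * gam G σ

theorem phiW_nonneg (G : AG X Y T P Q C W U M) {w : (Co X Y T → Finset (List Bool)) → ℝ}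
    (hw : ∀ E, 0 ≤ w E) (σ : Stt X Y T Q W U M) : 0 ≤ phiW G w σ :=
  mul_nonneg (mul_nonneg (mass_nonneg _ _) (hw _)) (gam_nonneg _ _)

/-- the state `τ` is reached from `σ` at the cost `d`, by queries in cubes of level less than
`L` -/
structure Ref (G : AG X Y T P Q C W U M) (E0 : Co X Y T → Finset (List Bool)) (H : ℕ)
    (L d k : ℕ) (σ : Stt X Y T Q W U M) (k' : ℕ) (τ : Stt X Y T Q W U M) : Prop where
  sub : ∀ θ, InW G τ θ → InW G σ θ
  E : ∀ c, τ.E c ⊆ σ.E c
  valid : Valid2 G E0 H k' τ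
  bud : k' + cr G L τ ≤ k + cr G L σ + d
  same : ∀ c, L ≤ G.lev c → τ.Sa c = σ.Sa c ∧ τ.va c = σ.va c ∧ τ.aa c = σ.aa c

variable {G : AG X Y T P Q C W U M} {E0 : Co X Y T → Finset (List Bool)} {H : ℕ} {δ : ℝ}
  {w : (Co X Y T → Finset (List Bool)) → ℝ}

theorem Ref.refl {L d k : ℕ} {σ : Stt X Y T Q W U M} (h : Valid2 G E0 H k σ) :
    Ref G E0 H L d k σ k σ :=
  ⟨fun _ h => h, fun _ => Subset.refl _, h, Nat.le_add_right _ _, fun _ _ => ⟨rfl, rfl, rfl⟩⟩

theorem Ref.trans {L d d' k k' k'' : ℕ} {σ τ τ' : Stt X Y T Q W U M}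
    (h : Ref G E0 H L d k σ k' τ) (h' : Ref G E0 H L d' k' τ k'' τ') :
    Ref G E0 H L (d + d') k σ k'' τ' := by
  refine ⟨fun θ hθ => h.sub θ (h'.sub θ hθ), fun c => (h'.E c).trans (h.E c), h'.valid, ?_,
    fun c hc => ?_⟩
  · have h1 := h.bud
    have h2 := h'.bud
    omega
  · obtain ⟨e1, e2, e3⟩ := h'.same c hc
    obtain ⟨e4, e5, e6⟩ := h.same c hc
    exact ⟨e1.trans e4, e2.trans e5, e3.trans e6⟩

theorem Ref.mono {L d d' k k' : ℕ} {σ τ : Stt X Y T Q W U M}
    (h : Ref G E0 H L d k σ k' τ) (hd : d ≤ d') : Ref G E0 H L d' k σ k' τ :=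
  ⟨h.sub, h.E, h.valid, h.bud.trans (by omega), h.same⟩

/-- the additional credit of more levels is the same -/
theorem cr_same {L L' : ℕ} (hL : L ≤ L') {σ τ : Stt X Y T Q W U M}
    (h : ∀ c, L ≤ G.lev c → τ.Sa c = σ.Sa c ∧ τ.va c = σ.va c ∧ τ.aa c = σ.aa c) :
    ∃ z, cr G L' σ = cr G L σ + z ∧ cr G L' τ = cr G L τ + z := by
  refine ⟨_, cr_add G hL σ, ?_⟩
  rw [cr_add G hL τ]
  congr 1
  refine sum_congr rfl fun c _ => ?_
  by_cases hc : L ≤ G.lev c ∧ G.lev c < L'
  · rw [if_pos hc, if_pos hc, (h c hc.1).1]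
  · rw [if_neg hc, if_neg hc]

theorem Ref.lift {L L' d k k' : ℕ} (hL : L ≤ L') {σ τ : Stt X Y T Q W U M}
    (h : Ref G E0 H L d k σ k' τ) : Ref G E0 H L' d k σ k' τ := by
  obtain ⟨z, h1, h2⟩ := cr_same (G := G) hL h.same
  refine ⟨h.sub, h.E, h.valid, ?_, fun c hc => h.same c (hL.trans hc)⟩
  have := h.bud
  omega

/-- the state `σ` can be split at the cost `d`, by queries in cubes of level less than `L` only,
into states with the property `Pr`; `w` is the weight -/
def Spl2 (G : AG X Y T P Q C W U M) (E0 : Co X Y T → Finset (List Bool)) (H : ℕ) (δ : ℝ)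
    (w : (Co X Y T → Finset (List Bool)) → ℝ) (L d k : ℕ) (σ : Stt X Y T Q W U M)
    (Pr : Stt X Y T Q W U M → Prop) : Prop :=
  ∃ (ι : Type) (_ : Fintype ι) (τ : ι → Stt X Y T Q W U M) (kk : ι → ℕ),
    (∀ θ, InW G σ θ → ∃ i, InW G (τ i) θ) ∧
    (∀ i, Ref G E0 H L d k σ (kk i) (τ i) ∧ Pr (τ i)) ∧
    ∑ i, phiW G w (τ i) * (1 + δ) ^ cr G L (τ i) ≤
      (1 + δ) ^ d * (phiW G w σ * (1 + δ) ^ cr G L σ)

/-- nothing to do -/
theorem Spl2.refl (hδ : 0 ≤ δ) (hw : ∀ E, 0 ≤ w E) {L k : ℕ} {σ : Stt X Y T Q W U M}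
    (hσ : Valid2 G E0 H k σ)
    {Pr : Stt X Y T Q W U M → Prop} (h : Pr σ) (d : ℕ) : Spl2 G E0 H δ w L d k σ Pr := by
  refine ⟨Unit, inferInstance, fun _ => σ, fun _ => k, fun θ hθ => ⟨(), hθ⟩, fun _ =>
    ⟨Ref.refl hσ, h⟩, ?_⟩
  rw [Fintype.sum_unique]
  have h1 : (1 : ℝ) ≤ (1 + δ) ^ d := one_le_pow₀ (by linarith)
  have h2 := mul_nonneg (phiW_nonneg G hw σ) (by positivity : (0 : ℝ) ≤ (1 + δ) ^ cr G L σ)
  exact le_mul_of_one_le_left h2 h1

/-- composition -/
theorem Spl2.comp (hδ : 0 ≤ δ) {L d d' k : ℕ} {σ : Stt X Y T Q W U M}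
    {Pr Pr' : Stt X Y T Q W U M → Prop} (h : Spl2 G E0 H δ w L d k σ Pr)
    (h' : ∀ (τ : Stt X Y T Q W U M) (k' : ℕ), Ref G E0 H L d k σ k' τ → Pr τ →
      Spl2 G E0 H δ w L d' k' τ Pr') :
    Spl2 G E0 H δ w L (d + d') k σ Pr' := by
  obtain ⟨ι, hι, τ, kk, h1, h2, h3⟩ := h
  have h4 := fun i => h' (τ i) (kk i) (h2 i).1 (h2 i).2
  choose ι' hι' τ' kk' g1 g2 g3 using h4
  refine ⟨Σ i, ι' i, inferInstance, fun j => τ' j.1 j.2, fun j => kk' j.1 j.2, ?_, ?_, ?_⟩
  · intro θ hθ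
    obtain ⟨i, hi⟩ := h1 θ hθ
    obtain ⟨j, hj⟩ := g1 i θ hi
    exact ⟨⟨i, j⟩, hj⟩
  · rintro ⟨i, j⟩
    exact ⟨(h2 i).1.trans (g2 i j).1, (g2 i j).2⟩
  · rw [Fintype.sum_sigma]
    calc ∑ i, ∑ j, phiW G w (τ' i j) * (1 + δ) ^ cr G L (τ' i j)
        ≤ ∑ i, (1 + δ) ^ d' * (phiW G w (τ i) * (1 + δ) ^ cr G L (τ i)) :=
          sum_le_sum fun i _ => g3 i
      _ = (1 + δ) ^ d' * ∑ i, phiW G w (τ i) * (1 + δ) ^ cr G L (τ i) := by rw [mul_sum]
      _ ≤ (1 + δ) ^ d' * ((1 + δ) ^ d * (phiW G w σ * (1 + δ) ^ cr G L σ)) :=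
          mul_le_mul_of_nonneg_left h3 (by positivity)
      _ = _ := by rw [pow_add]; ring

/-- a weaker property -/
theorem Spl2.imp {L d k : ℕ} {σ : Stt X Y T Q W U M}
    {Pr Pr' : Stt X Y T Q W U M → Prop} (h : Spl2 G E0 H δ w L d k σ Pr)
    (hP : ∀ (τ : Stt X Y T Q W U M) (k' : ℕ), Ref G E0 H L d k σ k' τ → Pr τ → Pr' τ) :
    Spl2 G E0 H δ w L d k σ Pr' := by
  obtain ⟨ι, hι, τ, kk, h1, h2, h3⟩ := h
  exact ⟨ι, hι, τ, kk, h1, fun i => ⟨(h2 i).1, hP _ _ (h2 i).1 (h2 i).2⟩, h3⟩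

/-- a larger cost -/
theorem Spl2.mono (hδ : 0 ≤ δ) (hw : ∀ E, 0 ≤ w E) {L d d' k : ℕ} {σ : Stt X Y T Q W U M}
    {Pr : Stt X Y T Q W U M → Prop} (h : Spl2 G E0 H δ w L d k σ Pr) (hd : d ≤ d') :
    Spl2 G E0 H δ w L d' k σ Pr := by
  obtain ⟨ι, hι, τ, kk, h1, h2, h3⟩ := h
  refine ⟨ι, hι, τ, kk, h1, fun i => ⟨(h2 i).1.mono hd, (h2 i).2⟩, h3.trans ?_⟩
  refine mul_le_mul_of_nonneg_right (pow_le_pow_right₀ (by linarith) hd) ?_
  exact mul_nonneg (phiW_nonneg _ hw _) (by positivity)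

/-- more levels; the cubes of the old levels are still untouched -/
theorem Spl2.lift {L L' d k : ℕ} (hL : L ≤ L') {σ : Stt X Y T Q W U M} (hδ : 0 ≤ δ)
    {Pr : Stt X Y T Q W U M → Prop} (h : Spl2 G E0 H δ w L d k σ Pr) :
    Spl2 G E0 H δ w L' d k σ fun τ => Pr τ ∧
      ∀ c, L ≤ G.lev c → τ.Sa c = σ.Sa c ∧ τ.va c = σ.va c ∧ τ.aa c = σ.aa c := by
  obtain ⟨ι, hι, τ, kk, h1, h2, h3⟩ := h
  have hz : ∃ z, cr G L' σ = cr G L σ + z ∧ ∀ i, cr G L' (τ i) = cr G L (τ i) + z := by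
    refine ⟨_, cr_add G hL σ, fun i => ?_⟩
    rw [cr_add G hL (τ i)]
    congr 1
    refine sum_congr rfl fun c _ => ?_
    by_cases hc : L ≤ G.lev c ∧ G.lev c < L'
    · rw [if_pos hc, if_pos hc, ((h2 i).1.same c hc.1).1]
    · rw [if_neg hc, if_neg hc]
  obtain ⟨z, hz1, hz2⟩ := hz
  refine ⟨ι, hι, τ, kk, h1, fun i => ⟨(h2 i).1.lift hL, (h2 i).2, (h2 i).1.same⟩, ?_⟩
  simp only [hz2, hz1, pow_add]
  calc ∑ i, phiW G w (τ i) * ((1 + δ) ^ cr G L (τ i) * (1 + δ) ^ z)
      = (∑ i, phiW G w (τ i) * (1 + δ) ^ cr G L (τ i)) * (1 + δ) ^ z := by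
        rw [sum_mul]
        exact sum_congr rfl fun i _ => by ring
    _ ≤ ((1 + δ) ^ d * (phiW G w σ * (1 + δ) ^ cr G L σ)) * (1 + δ) ^ z :=
        mul_le_mul_of_nonneg_right h3 (by positivity)
    _ = _ := by ring

theorem phiW_addA {σ : Stt X Y T Q W U M} {c : C} {y : U c} (hy : y ∉ σ.Sa c)
    {a : W c → Bool} (ha : ∀ w ∈ (G.cube c).B (σ.Sa c), a w = σ.aa c w) :
    ∑ α, phiW G w (addA σ c y α a) = phiW G w σ := by
  unfold phiW
  show ∑ α, mass σ.E σ.S * w σ.E * gam G (addA σ c y α a) = _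
  rw [← mul_sum]
  exact congrArg _ (gam_addA hy ha)

/-- a query of the extension at a new point, the new bad points being resolved first -/
theorem alg_split2 (hδ : 0 ≤ δ) {L k : ℕ} {σ : Stt X Y T Q W U M}
    {c : C} {y : U c} (hL : G.lev c < L) (hy : y ∉ σ.Sa c)
    (h : Spl2 G E0 H δ w (G.lev c) ((((G.cube c).B (insert y (σ.Sa c))).card -
      ((G.cube c).B (σ.Sa c)).card) * G.wt c) k σ
      fun τ => ∀ w ∈ (G.cube c).B (insert y (σ.Sa c)), w ∉ (G.cube c).B (σ.Sa c) →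
        ∃ b, ∀ θ, InW G τ θ → G.bit θ c w = b) :
    Spl2 G E0 H δ w L (G.wt c) k σ fun τ => y ∈ τ.Sa c := by
  set r := ((G.cube c).B (insert y (σ.Sa c))).card - ((G.cube c).B (σ.Sa c)).card with hr
  obtain ⟨ι, hι, τ, kk, h1, h2, h3⟩ := Spl2.lift hL.le hδ h
  have hSa : ∀ i, (τ i).Sa c = σ.Sa c ∧ (τ i).va c = σ.va c ∧ (τ i).aa c = σ.aa c :=
    fun i => (h2 i).2.2 c le_rfl
  have hnew : ∀ i, ∃ a : W c → Bool, (∀ w ∈ (G.cube c).B (σ.Sa c), a w = (τ i).aa c w) ∧
      ∀ w ∈ (G.cube c).B (insert y (σ.Sa c)), ∀ θ, InW G (τ i) θ → G.bit θ c w = a w := by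
    intro i
    have h4 : ∀ w, ∃ b : Bool, (w ∈ (G.cube c).B (σ.Sa c) → b = (τ i).aa c w) ∧
        (w ∈ (G.cube c).B (insert y (σ.Sa c)) → ∀ θ, InW G (τ i) θ → G.bit θ c w = b) := by
      intro w
      by_cases hw : w ∈ (G.cube c).B (σ.Sa c)
      · exact ⟨(τ i).aa c w, fun _ => rfl, fun _ θ hθ => (h2 i).1.valid.bits c w
          (by rw [(hSa i).1]; exact hw) θ hθ⟩
      · by_cases hw' : w ∈ (G.cube c).B (insert y (σ.Sa c))
        · obtain ⟨b, hb⟩ := (h2 i).2.1 w hw' hw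
          exact ⟨b, fun h => absurd h hw, fun _ => hb⟩
        · exact ⟨false, fun h => absurd h hw, fun h => absurd h hw'⟩
    choose a ha1 ha2 using h4
    exact ⟨a, fun w hw => ha1 w hw, fun w hw => ha2 w hw⟩
  choose a ha1 ha2 using hnew
  have hyi : ∀ i, y ∉ (τ i).Sa c := fun i => by rw [(hSa i).1]; exact hy
  have hcr : ∀ i (α : M c), cr G L (addA (τ i) c y α (a i)) + G.wt c * r =
      cr G L (τ i) + G.wt c := by
    intro i α
    have h4 := cr_addA (G := G) (L := L) (σ := τ i) (hyi i) (α := α) (a := a i) hL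
    rw [(hSa i).1] at h4
    exact h4
  refine ⟨Σ _ : ι, M c, inferInstance, fun j => addA (τ j.1) c y j.2 (a j.1), fun j => kk j.1,
    fun θ hθ => ?_, ?_, ?_⟩
  · obtain ⟨i, hi⟩ := h1 θ hθ
    exact ⟨⟨i, G.f θ c y⟩, (inW_addA (hyi i)).2 ⟨hi, rfl⟩⟩
  · rintro ⟨i, α⟩
    simp only
    obtain ⟨b1, b2, b3⟩ := h2 i
    refine ⟨⟨fun θ hθ => b1.sub θ ((inW_addA (hyi i)).1 hθ).1, b1.E,
      ⟨b1.valid.st, ?_, b1.valid.rv⟩, ?_, ?_⟩, ?_⟩
    · intro c' w hw θ hθ
      have hθ' := ((inW_addA (hyi i)).1 hθ).1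
      by_cases hc : c' = c
      · subst hc
        have hw' : w ∈ (G.cube c').B (insert y (σ.Sa c')) := by
          unfold addA at hw
          simp only [Function.update_self] at hw
          rwa [(hSa i).1] at hw
        unfold addA
        simp only [Function.update_self]
        exact ha2 i w hw' θ hθ'
      · have hw' : w ∈ (G.cube c').B ((τ i).Sa c') := by
          unfold addA at hw
          simp only [Function.update_of_ne hc] at hw
          exact hw
        unfold addA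
        simp only [Function.update_of_ne hc]
        exact b1.valid.bits c' w hw' θ hθ'
    · have h4 := hcr i α
      have h5 : r * G.wt c = G.wt c * r := Nat.mul_comm _ _
      have h6 := b1.bud
      omega
    · intro c' hc'
      have hne : c' ≠ c := fun h => by
        subst h
        omega
      have h6 := b1.same c' hc'
      unfold addA
      simp only [Function.update_of_ne hne]
      exact h6
    · unfold addA
      simp only [Function.update_self]
      exact mem_insert_self _ _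
  · rw [Fintype.sum_sigma]
    have h1δ : (0 : ℝ) < 1 + δ := by linarith
    have hpos : (0 : ℝ) < (1 + δ) ^ (G.wt c * r) := pow_pos h1δ _
    have key : ∀ i, (∑ α, phiW G w (addA (τ i) c y α (a i)) *
        (1 + δ) ^ cr G L (addA (τ i) c y α (a i))) * (1 + δ) ^ (G.wt c * r) =
        phiW G w (τ i) * (1 + δ) ^ cr G L (τ i) * (1 + δ) ^ G.wt c := by
      intro i
      rw [sum_mul]
      have h4 : ∀ α, phiW G w (addA (τ i) c y α (a i)) *
          (1 + δ) ^ cr G L (addA (τ i) c y α (a i)) * (1 + δ) ^ (G.wt c * r) =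
          phiW G w (addA (τ i) c y α (a i)) * ((1 + δ) ^ cr G L (τ i) * (1 + δ) ^ G.wt c) := by
        intro α
        rw [mul_assoc, ← pow_add, hcr i α, pow_add]
      rw [sum_congr rfl fun α _ => h4 α, ← sum_mul,
        phiW_addA (hyi i) (fun w hw => ha1 i w (by rwa [(hSa i).1] at hw))]
      ring
    refine le_of_mul_le_mul_right ?_ hpos
    calc (∑ i, ∑ α, phiW G w (addA (τ i) c y α (a i)) *
          (1 + δ) ^ cr G L (addA (τ i) c y α (a i))) * (1 + δ) ^ (G.wt c * r)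
        = (∑ i, phiW G w (τ i) * (1 + δ) ^ cr G L (τ i)) * (1 + δ) ^ G.wt c := by
          rw [sum_mul, sum_mul]
          exact sum_congr rfl fun i _ => key i
      _ ≤ ((1 + δ) ^ (r * G.wt c) * (phiW G w σ * (1 + δ) ^ cr G L σ)) * (1 + δ) ^ G.wt c :=
          mul_le_mul_of_nonneg_right h3 (by positivity)
      _ = _ := by
          rw [Nat.mul_comm r]
          ring

/-- the splitting by an ordinary query -/
def BaseSplit2 (G : AG X Y T P Q C W U M) (E0 : Co X Y T → Finset (List Bool)) (H D : ℕ)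
    (δ : ℝ) (w : (Co X Y T → Finset (List Bool)) → ℝ) : Prop :=
  ∀ (k : ℕ) (σ : Stt X Y T Q W U M), Valid2 G E0 H k σ → k + 1 ≤ D → ∀ q : Q,
    Spl2 G E0 H δ w 0 1 k σ fun τ => ∃ a, ∀ θ, InW G τ θ → G.B θ q = a

/-- **The tree lemma.** -/
theorem tree_split2 (hδ : 0 ≤ δ) (hw : ∀ E, 0 ≤ w E) {D : ℕ}
    (hB : BaseSplit2 G E0 H D δ w) (hR : Res G E0) :
    ∀ (L : ℕ) (R : Type) (t : ATreeR R Q C U M) (d : ℕ), BdR G L t d →
      ∀ (k : ℕ) (σ : Stt X Y T Q W U M),
      Valid2 G E0 H k σ → k + cr G L σ + d ≤ D →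
      Spl2 G E0 H δ w L d k σ fun τ => ∃ b, ∀ θ, InW G τ θ → t.eval G θ = b := by
  intro L
  induction L using Nat.strong_induction_on with
  | _ L ihL =>
    intro R t d ht
    induction ht with
    | ret b d =>
      intro k σ hσ _
      exact Spl2.refl hδ hw hσ ⟨b, fun _ _ => rfl⟩ d
    | ask q t0 t1 d h0 h1 ih0 ih1 =>
      intro k σ hσ hk
      have h2 := Spl2.lift (Nat.zero_le L) hδ (hB k σ hσ (by omega) q)
      rw [Nat.add_comm]
      refine Spl2.comp hδ h2 fun τ k' hτ hPr => ?_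
      obtain ⟨⟨a, ha⟩, _⟩ := hPr
      have hbud := hτ.bud
      cases a with
      | false =>
        refine Spl2.imp (ih0 k' τ hτ.valid (by omega)) fun τ' _ hτ' ⟨b, hb⟩ =>
          ⟨b, fun θ hθ => ?_⟩
        rw [ATreeR.eval, ha θ (hτ'.sub θ hθ), cond_false]
        exact hb θ hθ
      | true =>
        refine Spl2.imp (ih1 k' τ hτ.valid (by omega)) fun τ' _ hτ' ⟨b, hb⟩ =>
          ⟨b, fun θ hθ => ?_⟩
        rw [ATreeR.eval, ha θ (hτ'.sub θ hθ), cond_true]
        exact hb θ hθ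
    | alg c y kt d hc h0 ih =>
      intro k σ hσ hk
      have known : ∀ (k' : ℕ) (τ : Stt X Y T Q W U M), Valid2 G E0 H k' τ → y ∈ τ.Sa c →
          k' + cr G L τ + d ≤ D → Spl2 G E0 H δ w L d k' τ
            fun τ' => ∃ b, ∀ θ, InW G τ' θ → (ATreeR.alg c y kt).eval G θ = b := by
        intro k' τ hτ hy hk'
        refine Spl2.imp (ih (τ.va c y) k' τ hτ hk') fun τ' _ hτ' ⟨b, hb⟩ => ⟨b, fun θ hθ => ?_⟩
        rw [ATreeR.eval, (hτ'.sub θ hθ).2.2.2.2 c y hy]
        exact hb θ hθ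
      by_cases hy : y ∈ σ.Sa c
      · exact Spl2.mono hδ hw (known k σ hσ hy (by omega)) (by omega)
      · set B1 := (G.cube c).B (insert y (σ.Sa c)) with hB1
        set B0 := (G.cube c).B (σ.Sa c) with hB0
        have hsub : B0 ⊆ B1 := (G.cube c).B_mono _ _ (subset_insert _ _)
        have c1 : B0.card ≤ (σ.Sa c).card := (G.cube c).B_card (σ.Sa c)
        have c2 : B1.card ≤ (insert y (σ.Sa c)).card := (G.cube c).B_card (insert y (σ.Sa c))
        have c4 := card_insert_of_notMem hy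
        have hcr : cr G L σ = cr G (G.lev c) σ + ∑ c', if G.lev c ≤ G.lev c' ∧ G.lev c' < L then
            G.wt c' * ((σ.Sa c').card - ((G.cube c').B (σ.Sa c')).card) else 0 :=
          cr_add G hc.le σ
        have hterm : G.wt c * ((σ.Sa c).card - B0.card) ≤
            ∑ c', if G.lev c ≤ G.lev c' ∧ G.lev c' < L then
              G.wt c' * ((σ.Sa c').card - ((G.cube c').B (σ.Sa c')).card) else 0 := by
          have h5 := single_le_sum (f := fun c' => if G.lev c ≤ G.lev c' ∧ G.lev c' < L then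
              G.wt c' * ((σ.Sa c').card - ((G.cube c').B (σ.Sa c')).card) else 0)
            (fun _ _ => Nat.zero_le _) (mem_univ c)
          simp only [if_pos (show G.lev c ≤ G.lev c ∧ G.lev c < L from ⟨le_rfl, hc⟩)] at h5
          exact h5
        have hbud : k + cr G (G.lev c) σ + (B1.card - B0.card) * G.wt c ≤ D := by
          have h6 : (B1.card - B0.card) * G.wt c ≤
              G.wt c * ((σ.Sa c).card - B0.card) + G.wt c := by
            rw [← Nat.mul_succ, Nat.mul_comm]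
            exact Nat.mul_le_mul_left _ (by omega)
          omega
        -- the new bad points
        have hlist : ∀ l : List (W c), ∀ (k' : ℕ) (τ : Stt X Y T Q W U M), Valid2 G E0 H k' τ →
            k' + cr G (G.lev c) τ + l.length * G.wt c ≤ D →
            Spl2 G E0 H δ w (G.lev c) (l.length * G.wt c) k' τ
              fun τ' => ∀ w ∈ l, ∃ b, ∀ θ, InW G τ' θ → G.bit θ c w = b := by
          intro l
          induction l with
          | nil =>
            intro k' τ hτ _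
            exact Spl2.refl hδ hw hτ (fun w hw => absurd hw (List.not_mem_nil)) _
          | cons x l ihl =>
            intro k' τ hτ hk'
            have e1 : (x :: l).length * G.wt c = G.wt c + l.length * G.wt c := by
              rw [List.length_cons]; ring
            rw [e1] at hk' ⊢
            obtain ⟨tw, htw, hev⟩ := hR c x
            have h7 := ihL (G.lev c) hc Bool tw.toR (G.wt c) htw.toR k' τ hτ (by omega)
            refine Spl2.comp hδ h7 fun τ1 k1 hτ1 ⟨b, hb⟩ => ?_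
            have hb1 := hτ1.bud
            refine Spl2.imp (ihl k1 τ1 hτ1.valid (by omega)) fun τ2 _ hτ2 hall => ?_
            intro w' hw'
            rcases List.mem_cons.1 hw' with rfl | hw'
            · refine ⟨b, fun θ hθ => ?_⟩
              rw [← hev θ (fun c => hτ1.valid.valid.mem0 (hτ2.sub θ hθ) c) (hτ2.sub θ hθ).2.1,
                ← ATree.eval_toR]
              exact hb θ (hτ2.sub θ hθ)
            · exact hall w' hw'
        have h8 := hlist (B1 \ B0).toList k σ hσ (by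
          rw [length_toList, card_sdiff_of_subset hsub]
          exact hbud)
        rw [length_toList, card_sdiff_of_subset hsub] at h8
        have h9 := alg_split2 hδ hc hy (Spl2.imp h8 fun τ _ _ hall w hw hw' =>
          hall w (mem_toList.2 (mem_sdiff.2 ⟨hw, hw'⟩)))
        exact Spl2.comp hδ h9 fun τ k' hτ hyτ => known k' τ hτ.valid hyτ (by
          have := hτ.bud
          omega)

end game

end OAlg
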