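import Pool.Agent.Work.MP_609cce_lc_alg.Loc
import Pool.Agent.Work.MP_609cce_lc.OrcPT
import Pool.Agent.Work.MP_609cce_lc.OrcHard
import Pool.Agent.Work.MP_609cce_lc.OrcDist
import Pool.Agent.Work.MP_a17a63_lc.SHelper
import Pool.Agent.Work.MP_a81742_lc_or.Member

/-!
# The complete language is in UP, and so is its complement

The name of the sequence with the only member `x` has a unique witness.
-/

namespace OAlg

open ORDist hiding stepA stepR stepA_congr stepR_congr orc lang
open OEth PTime

variable {Φ : Fields} {Mach : ℕ → OProc}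

/-- the queries about the bits of the name of `x` -/
def nmQs (x : Str) : List Str :=
  (List.range (2 * (x.length + 2) + 1)).map fun j => hashQ j [x]

/-- the name as proposed by the witness, or the other name with the same last bits -/
def nmW (σ : Bool) (x W : Str) : Str :=
  (bif σ then (W.take (x.length + 2)).headD false else !(W.take (x.length + 2)).headD false) ::
    (W.take (x.length + 2)).tail

/-- all queries of the verifier -/
def upQs (σ : Bool) (s : Str) : List Str :=
  wQ (nmW σ (unpairS s).1 (unpairS s).2) ((unpairS s).2.drop ((unpairS s).1.length + 2)) ::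
    nmQs (unpairS s).1

/-- the output of the verifier -/
def upOut (r : Str × Str) : Str :=
  [(decide ((unpairS r.1).2.length = 2 * ((unpairS r.1).1.length + 2)) &&
    decide (r.2.tail = pairStr ((unpairS r.1).2.take ((unpairS r.1).1.length + 2), []))) &&
    r.2.headD false]

theorem pt_upQs (σ : Bool) : PT (upQs σ) := by
  have hx : PT (fun s : Str => (unpairS s).1) := (PT.unpairS PT.id).fst'
  have hW : PT (fun s : Str => (unpairS s).2) := (PT.unpairS PT.id).snd'
  have hn : PT (fun s : Str => (unpairS s).1.length + 2) := hx.length.add (PT.const 2)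
  have ht : PT (fun s : Str => (unpairS s).2.take ((unpairS s).1.length + 2)) := hW.take hn
  have hy : PT (fun s : Str => nmW σ (unpairS s).1 (unpairS s).2) :=
    (PT.cond (PT.const σ) (ht.headD (PT.const false)) (ht.headD (PT.const false)).not).cons ht.tail
  have hq1 : PT (fun s : Str => wQ (nmW σ (unpairS s).1 (unpairS s).2)
      ((unpairS s).2.drop ((unpairS s).1.length + 2))) :=
    (PT.const true).cons ((PT.const false).cons (pt_pairStr_comp hy (hW.drop hn)))
  have hr : PT (fun s : Str => List.range (2 * ((unpairS s).1.length + 2) + 1)) :=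
    (((PT.const 2).mul hn).add (PT.const 1)).range
  have hg : PT (fun z : Str × ℕ => hashQ z.2 [(unpairS z.1).1]) := by
    have h1 : PT (fun z : Str × ℕ => pairStr ((unpairS z.1).1, [])) :=
      pt_pairStr_comp (hx.comp PT.fst) (PT.const [])
    exact (PT.const false).cons ((PT.const true).cons (pt_un PT.snd h1))
  exact hq1.cons (PT.map hr hg)

theorem pt_upOut : PT upOut := by
  have hx : PT (fun r : Str × Str => (unpairS r.1).1) := (PT.unpairS PT.fst).fst'
  have hW : PT (fun r : Str × Str => (unpairS r.1).2) := (PT.unpairS PT.fst).snd'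
  have hn : PT (fun r : Str × Str => (unpairS r.1).1.length + 2) := hx.length.add (PT.const 2)
  have ht : PT (fun r : Str × Str => (unpairS r.1).2.take ((unpairS r.1).1.length + 2)) :=
    hW.take hn
  have h1 : PT (fun r : Str × Str =>
      decide ((unpairS r.1).2.length = 2 * ((unpairS r.1).1.length + 2))) :=
    PT.natEq hW.length ((PT.const 2).mul hn)
  have h2 : PT (fun r : Str × Str => decide (r.2.tail =
      pairStr ((unpairS r.1).2.take ((unpairS r.1).1.length + 2), []))) :=
    PT.eq PT.snd.tail (pt_pairStr_comp ht (PT.const []))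
  exact ((h1.and h2).and (PT.snd.headD (PT.const false))).cons (PT.const [])

/-- the answers about the name -/
theorem map_nmQs {p : Par Φ} (hp : p.WF) (x : Str) :
    (nmQs x).map (orc Mach p) = pairStr (nm p.par (lang Mach p) [x], []) := by
  have hl : (pairStr (nm p.par (lang Mach p) [x], [])).length = 2 * (x.length + 2) + 1 := by
    have h1 := dist_length (Mach := Mach) hp [x]
    have h2 : maxlen [x] = x.length := by simp [maxlen]
    unfold dist at h1
    rw [List.length_cons, h2] at h1
    rw [pairStr_length', List.length_nil]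
    omega
  refine List.ext_getElem ?_ fun j h1 h2 => ?_
  · rw [List.length_map, nmQs, List.length_map, List.length_range, hl]
  · rw [List.getElem_map]
    simp only [nmQs, List.getElem_map, List.getElem_range]
    rw [orc_hash hp, List.getD_eq_getElem _ _ h2]

/-- the verifier -/
noncomputable def upV (A : Str → Bool) (σ : Bool) (z : Str × Str) : Bool :=
  (decide (z.2.length = 2 * (z.1.length + 2)) &&
    decide ((nmQs z.1).map A = pairStr (z.2.take (z.1.length + 2), []))) &&
    A (wQ (nmW σ z.1 z.2) (z.2.drop (z.1.length + 2)))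

theorem upV_true {p : Par Φ} (hp : p.WF) {σ : Bool} {x W : Str} :
    upV (orc Mach p) σ (x, W) = true ↔ W.length = 2 * (x.length + 2) ∧
      W.take (x.length + 2) = nm p.par (lang Mach p) [x] ∧
      yesN p.par (nmW σ x W) ∧ W.drop (x.length + 2) = p.par.om (nmW σ x W) := by
  unfold upV
  simp only [Bool.and_eq_true, decide_eq_true_eq]
  rw [map_nmQs hp, orc_wQ hp]
  constructor
  · rintro ⟨⟨h1, h2⟩, h3, h4⟩
    exact ⟨h1, (pairStr_inj' h2).1.symm, h3, h4⟩
  · rintro ⟨h1, h2, h3, h4⟩
    exact ⟨⟨h1, by rw [h2]⟩, h3, h4⟩

/-- the name proposed by a right witness -/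
def nmS (σ : Bool) (y : Str) : Str := (bif σ then y.headD false else !y.headD false) :: y.tail

theorem yes_nmS {p : Par Φ} {σ : Bool} (x : Str) :
    yesN p.par (nmS σ (nm p.par (lang Mach p) [x])) ↔ lang Mach p x = σ := by
  have h1 : lang Mach p (true :: nmS σ (nm p.par (lang Mach p) [x])) = true ↔
      yesN p.par (nmS σ (nm p.par (lang Mach p) [x])) := lang_true _
  unfold nmS nm
  simp only [List.headD_cons, List.tail_cons]
  rw [yesN_cons]
  have h2 : st (lang Mach p) [x] = lang Mach p x := by
    rw [Bool.eq_iff_iff, st, cdec]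
    simp
  rw [h2]
  cases lang Mach p x <;> cases p.par.pad (p.par.g [x]) <;> cases σ <;> simp

theorem lang_up_aux {p : Par Φ} (hp : p.WF) (σ : Bool) :
    InUPO (orc Mach p) {x | lang Mach p x = σ} := by
  have hnl : ∀ x : Str, (nm p.par (lang Mach p) [x]).length = x.length + 2 := by
    intro x
    have h1 := dist_length (Mach := Mach) hp [x]
    have h2 : maxlen [x] = x.length := by simp [maxlen]
    unfold dist at h1
    rw [List.length_cons, h2] at h1
    omega
  refine ⟨upV (orc Mach p) σ, 2 * Polynomial.X + 4, ?_, fun x => ?_, fun x W W' _ _ h h' => ?_⟩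
  · refine polyTimeO_list (qs := upQs σ) (out := upOut) (pt_upQs σ) pt_upOut ?_
    rintro ⟨x, W⟩
    unfold upV upOut upQs
    simp only [unpairS_pairStr, List.map_cons, List.tail_cons, List.headD_cons]
  · rw [Set.mem_ofPred_eq]
    simp only [Polynomial.eval_add, Polynomial.eval_mul, Polynomial.eval_X,
      Polynomial.eval_ofNat]
    constructor
    · intro h
      set y := nm p.par (lang Mach p) [x] with hy
      have hyl : y.length = x.length + 2 := hnl x
      have hol : (p.par.om (nmS σ y)).length = x.length + 2 := by
        rw [hp.wf.om_len, nmS, List.length_cons, List.length_tail, hyl]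
        omega
      have ht : (y ++ p.par.om (nmS σ y)).take (x.length + 2) = y := by
        rw [← hyl, List.take_left]
      have hd : (y ++ p.par.om (nmS σ y)).drop (x.length + 2) = p.par.om (nmS σ y) := by
        rw [← hyl, List.drop_left]
      have hw : nmW σ x (y ++ p.par.om (nmS σ y)) = nmS σ y := by
        unfold nmW
        rw [ht]
        rfl
      refine ⟨y ++ p.par.om (nmS σ y), ?_, (upV_true hp).2 ⟨?_, ht, ?_, ?_⟩⟩
      · rw [List.length_append, hyl, hol]
        omega
      · rw [List.length_append, hyl, hol]
        omega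
      · rw [hw]
        exact (yes_nmS x).2 h
      · rw [hw, hd]
    · rintro ⟨W, _, h⟩
      obtain ⟨_, h2, h3, _⟩ := (upV_true hp).1 h
      have hw : nmW σ x W = nmS σ (nm p.par (lang Mach p) [x]) := by
        unfold nmW nmS
        rw [h2]
      rw [hw] at h3
      exact (yes_nmS x).1 h3
  · obtain ⟨_, h2, _, h4⟩ := (upV_true hp).1 h
    obtain ⟨_, h2', _, h4'⟩ := (upV_true hp).1 h'
    have hw : nmW σ x W = nmW σ x W' := by
      unfold nmW
      rw [h2, h2']
    rw [← List.take_append_drop (x.length + 2) W, ← List.take_append_drop (x.length + 2) W', h2,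
      h2', h4, h4', hw]

/-- the complete language is in UP -/
theorem lang_inUPO {p : Par Φ} (hp : p.WF) : InUPO (orc Mach p) {x | lang Mach p x = true} :=
  lang_up_aux hp true

/-- the complement of the complete language is in UP -/
theorem lang_compl_inUPO {p : Par Φ} (hp : p.WF) :
    InUPO (orc Mach p) {x | lang Mach p x = true}ᶜ := by
  have h : ({x | lang Mach p x = true} : Set Str)ᶜ = {x | lang Mach p x = false} := by
    ext x
    rw [Set.mem_compl_iff, Set.mem_ofPred_eq, Set.mem_ofPred_eq, Bool.not_eq_true]
  rw [h]
  exact lang_up_aux hp false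

end OAlg
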