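import Pool.Agent.Work.MP_609cce_lc_alg2.Defs2

/-!
# Locality in finitely many coordinates
-/

namespace OAlg

open ORDist hiding stepA stepR stepA_congr stepR_congr orc lang
open OEth hiding orc lang par par_wf par_agr
open Orc Finset
open Classical

variable {Φ : Fields} {Mach : ℕ → OProc}

theorem extO_congrF {A A' : Str → Bool} {f f' : ExtF Φ} {q : Str}
    (hA : ∀ q' : Str, q'.length < q.length → A q' = A' q')
    (hf : ∀ (s : Str) (n : ℕ), s.length < q.length → n < q.length → f s n = f' s n) :
    extO Φ A f q = extO Φ A' f' q := by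
  unfold extO
  refine decide_eq_decide.2 (or_congr ?_ ?_)
  · refine exists_congr fun q' => and_congr_right fun h => ?_
    rw [hA q' (by rw [h, List.length_cons]; omega)]
  · refine exists_congr fun s => exists_congr fun j => exists_congr fun ws =>
      and_congr_right fun h => ?_
    have h1 := length_le_seqBits ws
    have h2 := algQ_length s j ws
    rw [hf s ws.length (by rw [h, List.length_cons]; omega) (by rw [h, List.length_cons]; omega)]

theorem alO_congrF {p p' : OAlg.Par Φ} {A A' : Str → Bool} {q : Str}
    (hV : ∀ (s : Str) (n : ℕ), s.length < q.length → n < q.length → p.V s n = p'.V s n)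
    (hA : ∀ q' : Str, q'.length < q.length → A q' = A' q') : alO p A q = alO p' A' q := by
  refine extO_congrF hA fun s n hs hn => ?_
  funext z
  unfold fx
  rw [hV s n hs hn, mle_congr fun q' hq' => hA q' (by omega)]

theorem yesN_congrF {p p' : OAlg.Par Φ} {y : Str} {n : ℕ} (h : AgrF p p' n) (hy : y.length ≤ n) :
    yesN p.par y ↔ yesN p'.par y := by
  unfold yesN
  refine exists_congr fun c => exists_congr fun γ => and_congr_right fun e => ?_
  rw [h.pad γ (by rw [e] at hy; simp only [List.length_cons] at hy; omega)]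

theorem nm_congrF {p p' : OAlg.Par Φ} (hp : p.WF) {R R' : Str → Bool} {T : List Str} {n : ℕ}
    (h : AgrF p p' n) (hT : (seqBits T).length + 1 < n) (hR : ∀ x ∈ T, R x = R' x) :
    nm p.par R T = nm p'.par R' T := by
  have h1 := maxlen_le_seqBits T
  unfold nm
  rw [← h.g T (by omega), h.pad (p.par.g T) (by rw [hp.wf.g_len]; omega), st_congr hR]

theorem stepA_congrF {p p' : OAlg.Par Φ} {A A' R R' : Str → Bool} {q : Str} {n : ℕ} (hp : p.WF)
    (h : AgrF p p' n) (hq : q.length ≤ n) (hA : ∀ q' : Str, q'.length < q.length → A q' = A' q')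
    (hR : ∀ x : Str, x.length < q.length → R x = R' x) :
    stepA Mach p.par A R q = stepA Mach p'.par A' R' q := by
  unfold stepA
  refine decide_eq_decide.2 (or_congr ?_ (or_congr ?_ (or_congr ?_ ?_)))
  · refine exists_congr fun x => exists_congr fun w => and_congr_right fun hw => ?_
    have h2 : q.length = 2 * x.length + w.length + 3 := by
      rw [hw]; simp only [bQ, List.length_cons, pairStr_length']
    rw [h.base x (by omega)]
  · refine exists_congr fun j => exists_congr fun T => and_congr_right fun hT => ?_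
    have h1 := maxlen_le_seqBits T
    have h2 : q.length = j + (seqBits T).length + 3 := by
      rw [hT]; simp only [hashQ, List.length_cons, un_length]
    rw [nm_congrF hp h (by omega) fun x hx => hR x (by have := le_maxlen hx; omega)]
  · refine exists_congr fun y => exists_congr fun w => and_congr_right fun hw => ?_
    have h2 : q.length = 2 * y.length + w.length + 3 := by
      rw [hw]; simp only [wQ, List.length_cons, pairStr_length']
    rw [yesN_congrF h (by omega : y.length ≤ n), h.om y (by omega)]
  · refine exists_congr fun r => exists_congr fun w => and_congr_right fun hw => ?_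
    have h2 : q.length = 2 * r.length + w.length + 3 := by
      rw [hw]; simp only [kQ, List.length_cons, pairStr_length']
    exact yesK_congr fun q' hq' => hA q' (by omega)

theorem stepP_congrF {p p' : OAlg.Par Φ} {A A' : Str → Bool} {q : Str} {n : ℕ}
    (h : AgrF p p' n) (hq : q.length ≤ n) (hA : ∀ q' : Str, q'.length < q.length → A q' = A' q') :
    stepP Mach p.par A q = stepP Mach p'.par A' q := by
  unfold stepP
  refine decide_eq_decide.2 (or_congr ?_ (stepP_aux hA))
  refine exists_congr fun y => and_congr_right fun hw => ?_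
  have h2 : q.length = y.length + 1 := by rw [hw, List.length_cons]
  exact yesN_congrF h (by omega)

/-- locality in finitely many coordinates -/
theorem local_auxF {p p' : OAlg.Par Φ} (hp : p.WF) (hp' : p'.WF) {n : ℕ} (h : AgrF p p' n) :
    ∀ k ≤ n, ∀ q : Str, q.length = k →
      OAlg.orc Mach p q = OAlg.orc Mach p' q ∧ OAlg.lang Mach p q = OAlg.lang Mach p' q := by
  intro k
  induction k using Nat.strong_induction_on with
  | _ k ih =>
    intro hk q hq
    have hA : ∀ q' : Str, q'.length < q.length → aorc Mach p q' = aorc Mach p' q' := by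
      intro q' hq'
      refine alO_congrF (fun s m hs hm => h.V s m (by omega) (by omega)) fun q'' hq'' => ?_
      exact (ih _ (by omega) (by omega) q'' rfl).1
    have hR : ∀ q' : Str, q'.length < q.length → OAlg.lang Mach p q' = OAlg.lang Mach p' q' :=
      fun q' hq' => (ih _ (by omega) (by omega) q' rfl).2
    rw [OAlg.orc_eq hp, OAlg.orc_eq hp', OAlg.lang_eq, OAlg.lang_eq]
    exact ⟨stepA_congrF hp h (by omega) hA hR, stepP_congrF h (by omega) hA⟩

theorem orc_localF {p p' : OAlg.Par Φ} (hp : p.WF) (hp' : p'.WF) {n : ℕ} (h : AgrF p p' n)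
    {q : Str} (hq : q.length ≤ n) : OAlg.orc Mach p q = OAlg.orc Mach p' q :=
  (local_auxF hp hp' h q.length hq q rfl).1

theorem lang_localF {p p' : OAlg.Par Φ} (hp : p.WF) (hp' : p'.WF) {n : ℕ} (h : AgrF p p' n)
    {q : Str} (hq : q.length ≤ n) : OAlg.lang Mach p q = OAlg.lang Mach p' q :=
  (local_auxF hp hp' h q.length hq q rfl).2

theorem aorc_localF {p p' : OAlg.Par Φ} (hp : p.WF) (hp' : p'.WF) {n : ℕ} (h : AgrF p p' n)
    {q : Str} (hq : q.length ≤ n) : aorc Mach p q = aorc Mach p' q :=
  alO_congrF (fun s m hs hm => h.V s m (by omega) (by omega)) fun q' hq' =>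
    orc_localF hp hp' h (by omega)

theorem dist_localF {p p' : OAlg.Par Φ} (hp : p.WF) (hp' : p'.WF) {n : ℕ} (h : AgrF p p' n)
    {T : List Str} (hT : (seqBits T).length + 1 < n) :
    OAlg.dist Mach p T = OAlg.dist Mach p' T := by
  unfold OAlg.dist
  rw [nm_congrF hp h hT fun x hx => lang_localF hp hp' h (by
    have h1 := le_maxlen hx
    have h2 := maxlen_le_seqBits T
    omega)]

/-- agreement in all coordinates of size less than `n` -/
theorem AgrF.refl (p : OAlg.Par Φ) (n : ℕ) : AgrF p p n :=
  ⟨fun _ _ => rfl, fun _ _ => rfl, fun _ _ => rfl, fun _ _ => rfl, fun _ _ _ _ => rfl⟩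

theorem AgrF.mono {p p' : OAlg.Par Φ} {m n : ℕ} (h : AgrF p p' n) (hmn : m ≤ n) : AgrF p p' m :=
  ⟨fun x hx => h.base x (by omega), fun T hT => h.g T (by omega),
    fun γ hγ => h.pad γ (by omega), fun y hy => h.om y (by omega),
    fun s k hs hk => h.V s k (by omega) (by omega)⟩

theorem AgrF.trans {p p' p'' : OAlg.Par Φ} {n : ℕ} (h : AgrF p p' n) (h' : AgrF p' p'' n) :
    AgrF p p'' n :=
  ⟨fun x hx => (h.base x hx).trans (h'.base x hx), fun T hT => (h.g T hT).trans (h'.g T hT),
    fun γ hγ => (h.pad γ hγ).trans (h'.pad γ hγ), fun y hy => (h.om y hy).trans (h'.om y hy),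
    fun s k hs hk => (h.V s k hs hk).trans (h'.V s k hs hk)⟩

theorem AgrF.symm {p p' : OAlg.Par Φ} {n : ℕ} (h : AgrF p p' n) : AgrF p' p n :=
  ⟨fun x hx => (h.base x hx).symm, fun T hT => (h.g T hT).symm,
    fun γ hγ => (h.pad γ hγ).symm, fun y hy => (h.om y hy).symm,
    fun s k hs hk => (h.V s k hs hk).symm⟩

end OAlg
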