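import Mathlib

/-!
# The numbers of the second version
-/

set_option autoImplicit false

namespace OAlg

open Finset

/-- The length bound `2^(n/7)`. -/
def uu (n : ℕ) : ℕ := 2 ^ (n / 7)

/-- The length of the long strings. -/
def rr (n : ℕ) : ℕ := uu n + 2 * n + 10

/-- The density `2^(n/4)`. -/
def bb (n : ℕ) : ℕ := 2 ^ (n / 4)

/-- The first good length. -/
def n1 : ℕ := 70

/-- The bad fraction at length `n`. -/
noncomputable def epsn (n : ℕ) : ℝ := 1 / (((n : ℝ) + 1) * ((n : ℝ) + 2))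

theorem lin_le_pow (q : ℕ) (hq : 7 ≤ q) : 14 * q + 22 ≤ 2 ^ q := by
  induction q, hq using Nat.le_induction with
  | base => norm_num
  | succ q hq ih => rw [pow_succ]; omega

theorem two_n_le (n : ℕ) (hn : n1 ≤ n) : 2 * n + 10 ≤ uu n := by
  have hn' : 70 ≤ n := hn
  have h := lin_le_pow (n / 7) (by omega)
  unfold uu
  omega

theorem rr_le (n : ℕ) (hn : n1 ≤ n) : rr n ≤ 2 * uu n := by
  have := two_n_le n hn
  unfold rr
  omega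

theorem uu_pos (n : ℕ) : 1 ≤ uu n := Nat.one_le_two_pow

theorem uu_two (n : ℕ) (hn : n1 ≤ n) : 2 ≤ uu n := by
  have := two_n_le n hn
  omega

theorem pow_uu_le (n k a : ℕ) (h : a + k * (n / 7) ≤ n) : 2 ^ a * uu n ^ k ≤ 2 ^ n := by
  unfold uu
  rw [← pow_mul, ← pow_add]
  exact Nat.pow_le_pow_right (by norm_num) (by rw [Nat.mul_comm (n / 7) k]; exact h)

theorem num_a (n : ℕ) (hn : n1 ≤ n) : 2 * uu n * (uu n * rr n) ≤ 2 ^ n := by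
  have hn' : 70 ≤ n := hn
  have h1 := rr_le n hn
  calc 2 * uu n * (uu n * rr n) ≤ 2 * uu n * (uu n * (2 * uu n)) := by gcongr
    _ = 2 ^ 2 * uu n ^ 3 := by ring
    _ ≤ 2 ^ n := pow_uu_le n 3 2 (by omega)

theorem num_b (n : ℕ) (hn : n1 ≤ n) :
    (uu n * rr n * uu n) * (uu n * rr n * uu n + 2) ≤ 2 ^ n := by
  have hn' : 70 ≤ n := hn
  have h1 := rr_le n hn
  have h2 := uu_pos n
  have h3 : uu n * rr n * uu n ≤ 2 * uu n ^ 3 := by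
    calc uu n * rr n * uu n ≤ uu n * (2 * uu n) * uu n := by gcongr
      _ = 2 * uu n ^ 3 := by ring
  have h4 : 1 ≤ uu n ^ 3 := Nat.one_le_pow _ _ h2
  calc (uu n * rr n * uu n) * (uu n * rr n * uu n + 2)
      ≤ (2 * uu n ^ 3) * (2 * uu n ^ 3 + 2 * uu n ^ 3) := by
        apply Nat.mul_le_mul h3
        omega
    _ = 2 ^ 3 * uu n ^ 6 := by ring
    _ ≤ 2 ^ n := pow_uu_le n 6 3 (by omega)

theorem num_c (n : ℕ) (hn : n1 ≤ n) : 2 * (uu n * rr n * uu n) ≤ 2 ^ n := by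
  have h := num_a n hn
  calc 2 * (uu n * rr n * uu n) = 2 * uu n * (uu n * rr n) := by ring
    _ ≤ 2 ^ n := h

theorem num_d (n : ℕ) (hn : n1 ≤ n) : 2 * 2 ^ (n / 3) * (uu n + 2) ^ 2 ≤ 2 ^ n := by
  have hn' : 70 ≤ n := hn
  have h2 := uu_two n hn
  calc 2 * 2 ^ (n / 3) * (uu n + 2) ^ 2 ≤ 2 * 2 ^ (n / 3) * (2 * uu n) ^ 2 := by
        gcongr
        omega
    _ = 2 ^ (3 + n / 3) * uu n ^ 2 := by rw [pow_add]; ring
    _ ≤ 2 ^ n := pow_uu_le n 2 (3 + n / 3) (by omega)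

theorem num_e1 (n : ℕ) (hn : n1 ≤ n) : rr n ≤ 2 ^ n / bb n := by
  have hn' : 70 ≤ n := hn
  have h1 := rr_le n hn
  unfold bb
  rw [Nat.pow_div (by omega) (by norm_num)]
  refine h1.trans ?_
  unfold uu
  rw [← pow_succ']
  exact Nat.pow_le_pow_right (by norm_num) (by omega)

theorem num_e2 (n : ℕ) (hn : n1 ≤ n) : 2 * bb n * (rr n * (uu n + 2)) ^ 2 ≤ 2 ^ n := by
  have hn' : 70 ≤ n := hn
  have h1 := rr_le n hn
  have h2 := uu_two n hn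
  unfold bb
  calc 2 * 2 ^ (n / 4) * (rr n * (uu n + 2)) ^ 2
      ≤ 2 * 2 ^ (n / 4) * ((2 * uu n) * (2 * uu n)) ^ 2 := by
        gcongr
        omega
    _ = 2 ^ (5 + n / 4) * uu n ^ 4 := by rw [pow_add]; ring
    _ ≤ 2 ^ n := pow_uu_le n 4 (5 + n / 4) (by omega)

theorem cube_le_pow (q : ℕ) (hq : 21 ≤ q) : 5 * (3 * q + 3) ^ 2 * (3 * q + 4) ≤ 2 ^ q := by
  induction q, hq using Nat.le_induction with
  | base => norm_num
  | succ q hq ih =>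
    have h : 5 * (3 * (q + 1) + 3) ^ 2 * (3 * (q + 1) + 4) ≤
        2 * (5 * (3 * q + 3) ^ 2 * (3 * q + 4)) := by
      obtain ⟨k, rfl⟩ := Nat.exists_eq_add_of_le hq
      ring_nf
      nlinarith
    calc _ ≤ 2 * (5 * (3 * q + 3) ^ 2 * (3 * q + 4)) := h
      _ ≤ 2 * 2 ^ q := by omega
      _ = 2 ^ (q + 1) := by ring

theorem cube_le (n : ℕ) (hn : n1 ≤ n) : 5 * (n + 1) ^ 2 * (n + 2) ≤ 2 ^ (n / 3) := by
  have hn' : 70 ≤ n := hn
  have h := cube_le_pow (n / 3) (by omega)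
  have h1 : n + 1 ≤ 3 * (n / 3) + 3 := by omega
  have h2 : n + 2 ≤ 3 * (n / 3) + 4 := by omega
  calc 5 * (n + 1) ^ 2 * (n + 2) ≤ 5 * (3 * (n / 3) + 3) ^ 2 * (3 * (n / 3) + 4) := by gcongr
    _ ≤ 2 ^ (n / 3) := h

theorem pow_ratio (n : ℕ) (a : ℕ) :
    (2 : ℝ) ^ (a + 3) / 2 ^ (a + 2 * n + 10) = 1 / 2 ^ (2 * n + 7) := by
  rw [div_eq_div_iff (by positivity) (by positivity), one_mul, ← pow_add]
  congr 1
  ring

theorem pow_ratio_le (n : ℕ) (a : ℕ) :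
    (2 : ℝ) ^ (a + 3) / 2 ^ (a + 2 * n + 10) ≤ (1 / 2) / 2 ^ (n / 3) := by
  rw [pow_ratio, div_le_div_iff₀ (by positivity) (by positivity), one_mul]
  have h : (2 : ℝ) ^ (n / 3) * 2 ≤ 2 ^ (2 * n + 7) := by
    rw [← pow_succ]
    exact pow_le_pow_right₀ (by norm_num) (by omega)
  linarith

/-- The sum of the three bad fractions, times the number of machines. -/
theorem num_f (n : ℕ) (hn : n1 ≤ n) :
    ((n : ℝ) + 1) * ((2 : ℝ) ^ (uu n + 3) / 2 ^ (rr n) + 4 / 2 ^ (n / 3) +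
      2 ^ (uu n + 1) * 4 / 2 ^ (rr n)) ≤ epsn n := by
  have e1 : (2 : ℝ) ^ (uu n + 1) * 4 = 2 ^ (uu n + 3) := by
    rw [pow_add, pow_add]; norm_num; ring
  rw [e1]
  have h1 : (2 : ℝ) ^ (uu n + 3) / 2 ^ (rr n) ≤ (1 / 2) / 2 ^ (n / 3) := pow_ratio_le n (uu n)
  have h2 : (5 : ℝ) * ((n : ℝ) + 1) ^ 2 * ((n : ℝ) + 2) ≤ 2 ^ (n / 3) := by
    exact_mod_cast cube_le n hn
  have hn0 : (0 : ℝ) ≤ n := Nat.cast_nonneg n
  have hP : (0 : ℝ) < 2 ^ (n / 3) := by positivity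
  have h3 : (2 : ℝ) ^ (uu n + 3) / 2 ^ (rr n) + 4 / 2 ^ (n / 3) +
      2 ^ (uu n + 3) / 2 ^ (rr n) ≤ 5 / 2 ^ (n / 3) := by
    calc _ ≤ (1 / 2) / 2 ^ (n / 3) + 4 / 2 ^ (n / 3) + (1 / 2) / (2 : ℝ) ^ (n / 3) := by gcongr
      _ = 5 / 2 ^ (n / 3) := by ring
  calc _ ≤ ((n : ℝ) + 1) * (5 / 2 ^ (n / 3)) := by gcongr
    _ ≤ epsn n := by
      unfold epsn
      rw [← mul_div_assoc, div_le_div_iff₀ hP (by positivity), one_mul]
      calc ((n : ℝ) + 1) * 5 * (((n : ℝ) + 1) * ((n : ℝ) + 2))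
          = 5 * ((n : ℝ) + 1) ^ 2 * ((n : ℝ) + 2) := by ring
        _ ≤ _ := h2

theorem epsn_nonneg (n : ℕ) : 0 ≤ epsn n := by unfold epsn; positivity

theorem sum_epsn (a k : ℕ) :
    ∑ n ∈ Ico a (a + k), epsn n = 1 / ((a : ℝ) + 1) - 1 / ((a : ℝ) + k + 1) := by
  induction k with
  | zero => simp
  | succ k ih =>
    rw [← Nat.add_assoc, Finset.sum_Ico_succ_top (by omega), ih]
    unfold epsn
    push_cast
    have h1 : (a : ℝ) + k + 1 ≠ 0 := by positivity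
    have h2 : (a : ℝ) + k + 2 ≠ 0 := by positivity
    have h3 : (a : ℝ) + (k + 1) + 1 ≠ 0 := by positivity
    have h4 : (a : ℝ) + 1 ≠ 0 := by positivity
    field_simp
    ring

/-- The bad fractions of all lengths together are less than one. -/
theorem num_g (M : ℕ) : ∑ n ∈ Ico n1 M, epsn n < 1 := by
  rcases le_total M n1 with h | h
  · rw [Finset.Ico_eq_empty (by omega), Finset.sum_empty]
    exact one_pos
  · obtain ⟨k, rfl⟩ := Nat.exists_eq_add_of_le h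
    rw [sum_epsn]
    have h1 : (0 : ℝ) < 1 / ((n1 : ℝ) + k + 1) := by positivity
    have h2 : 1 / ((n1 : ℝ) + 1) ≤ 1 := by
      rw [div_le_one (by positivity)]
      have : (0 : ℝ) ≤ n1 := Nat.cast_nonneg _
      linarith
    linarith

/-- The third clause: `3 * 2^n / 2^(n/4)` keys are at most `2^n / 2^(n/7)` keys. -/
theorem num_h (n : ℕ) (hn : 28 ≤ n) :
    (3 : ℝ) * 2 ^ n / 2 ^ (n / 4) ≤ 2 ^ n / 2 ^ (n / 7) := by
  rw [div_le_div_iff₀ (by positivity) (by positivity)]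
  have h : (3 : ℝ) * 2 ^ (n / 7) ≤ 2 ^ (n / 4) := by
    calc (3 : ℝ) * 2 ^ (n / 7) ≤ 2 ^ 2 * 2 ^ (n / 7) := by gcongr; norm_num
      _ = 2 ^ (n / 7 + 2) := by rw [pow_add]; ring
      _ ≤ 2 ^ (n / 4) := pow_le_pow_right₀ (by norm_num) (by omega)
  calc (3 : ℝ) * 2 ^ n * 2 ^ (n / 7) = 2 ^ n * (3 * 2 ^ (n / 7)) := by ring
    _ ≤ 2 ^ n * 2 ^ (n / 4) := by gcongr

theorem num_h1 (n : ℕ) (hn : n1 ≤ n) :
    (3 : ℝ) * 2 ^ n / 2 ^ (n / 4) ≤ 2 ^ n / 2 ^ (n / 7) := by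
  have hn' : 70 ≤ n := hn
  exact num_h n (by omega)

theorem num_e3 (n : ℕ) (hn : n1 ≤ n) : rr n * bb n ≤ 2 ^ n :=
  (Nat.mul_le_mul_right _ (num_e1 n hn)).trans (Nat.div_mul_le_self _ _)

theorem bb_pos (n : ℕ) : (0 : ℝ) < bb n := by unfold bb; positivity

/-- The hypothesis of `avg_bound_q` with `q = 1 / bb n`. -/
theorem num_e4 (n : ℕ) (hn : n1 ≤ n) : (rr n : ℝ) ≤ 1 / (bb n : ℝ) * 2 ^ n := by
  rw [one_div, inv_mul_eq_div, le_div_iff₀ (bb_pos n)]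
  exact_mod_cast num_e3 n hn

/-- The sum of the three bad fractions, times the number of machines, third term as in SK. -/
theorem num_f' (n : ℕ) (hn : n1 ≤ n) :
    ((n : ℝ) + 1) * ((2 : ℝ) ^ (uu n + 3) / 2 ^ (rr n) + 4 / 2 ^ (n / 3) +
      2 ^ (uu n + 3) / 2 ^ (rr n)) ≤ epsn n := by
  have e1 : (2 : ℝ) ^ (uu n + 1) * 4 = 2 ^ (uu n + 3) := by
    rw [pow_add, pow_add]; norm_num; ring
  have h := num_f n hn
  rwa [e1] at h

/-- All numerical conditions at the length `n`. -/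
structure Nums (n : ℕ) : Prop where
  hn : 14 ≤ n
  d1 : 2 * uu n * (uu n * (uu n + 2 * n + 10)) ≤ 2 ^ n
  d2 : uu n * (uu n + 2 * n + 10) * uu n * (uu n * (uu n + 2 * n + 10) * uu n + 2) ≤ 2 ^ n
  d3 : 2 * (uu n * (uu n + 2 * n + 10) * uu n) ≤ 2 ^ n
  c1 : 2 * (2 : ℝ) ^ (n / 3) * ((uu n : ℝ) + 2) ^ 2 ≤ 2 ^ n
  k1 : (((uu n + 2 * n + 10 : ℕ)) : ℝ) ≤ 2 ^ n / 2 ^ (n / 4)
  k2 : 2 * (2 : ℝ) ^ (n / 4) * (((uu n + 2 * n + 10 : ℕ) : ℝ) * ((uu n : ℝ) + 2)) ^ 2 ≤ 2 ^ n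
  k3 : 3 * (2 : ℝ) ^ n / 2 ^ (n / 4) ≤ 2 ^ n / 2 ^ (n / 7)
  e1 : ((n : ℝ) + 1) * (2 ^ (uu n + 3) / 2 ^ (uu n + 2 * n + 10) + 4 / 2 ^ (n / 3) +
    2 ^ (uu n + 1) * 4 / 2 ^ (uu n + 2 * n + 10)) ≤ 1 / (((n : ℝ) + 1) * (n + 2))

theorem nums_of_le (n : ℕ) (hn : n1 ≤ n) : Nums n where
  hn := by have hn' : 70 ≤ n := hn; omega
  d1 := num_a n hn
  d2 := num_b n hn
  d3 := num_c n hn
  c1 := by exact_mod_cast num_d n hn
  k1 := by
    rw [le_div_iff₀ (by positivity)]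
    have h := num_e3 n hn
    unfold rr bb at h
    exact_mod_cast h
  k2 := by
    have h := num_e2 n hn
    unfold rr bb at h
    exact_mod_cast h
  k3 := num_h1 n hn
  e1 := num_f n hn

theorem exists_nums : ∃ n1, ∀ n ≥ n1, Nums n := ⟨n1, fun n hn => nums_of_le n hn⟩

end OAlg
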