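import Pool.Agent.Work.MP_609cce_lc_eth.EMain

/-!
# No polynomial size circuits, from the bound `2 ^ (n / 7)`
-/

namespace OAlg

open ORDist hiding stepA stepR stepA_congr stepR_congr orc lang
open PTime Finset

theorem poly_le_two_pow_div7 (P : Polynomial ℕ) : ∃ n₁, ∀ n ≥ n₁, P.eval n ≤ 2 ^ (n / 7) := by
  obtain ⟨m₁, h⟩ := OEth.poly_le_two_pow (P.comp (7 * Polynomial.X + 6))
  refine ⟨7 * m₁, fun n hn => ?_⟩
  have h1 := h (n / 7) (by omega)
  rw [Polynomial.eval_comp] at h1
  refine (eval_mono P ?_).trans h1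
  simp only [Polynomial.eval_add, Polynomial.eval_mul, Polynomial.eval_X, Polynomial.eval_ofNat]
  omega

/-- no polynomial size circuits -/
theorem test_not_inPPolyO7 {A : Str → Bool} {base : Str → Str}
    (h : ∀ M : OProc, PT M → ∀ n₀ : ℕ, ∃ n ≥ n₀, ∀ a : Str, a.length ≤ 2 ^ (n / 7) →
      ∃ x : Str, x.length = n ∧
        sim A M (pairStr (x, a)) (2 ^ (n / 7)) [] ≠ (base x).headD false) :
    ¬ InPPolyO A {x | (base x).headD false = true} := by
  rintro ⟨V, adv, r, ⟨M, hM, p2, hp2⟩, hadv, hV⟩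
  obtain ⟨s, hs⟩ := exists_act_bound (pt_of_polyTime hM)
  let N0 : Polynomial ℕ := 2 * Polynomial.X + r + 1
  let tP : Polynomial ℕ := p2.comp N0 * s.comp (N0 + p2.comp N0)
  obtain ⟨n₁, hn₁⟩ := poly_le_two_pow_div7 r
  obtain ⟨n₂, hn₂⟩ := poly_le_two_pow_div7 tP
  obtain ⟨n, hn, hbad⟩ := h M (pt_of_polyTime hM) (n₁ + n₂)
  obtain ⟨x, hx, hne⟩ := hbad (adv n) ((hadv n).trans (hn₁ n (by omega)))
  apply hne
  obtain ⟨k, hk, h1, h2⟩ := hp2 (x, adv n)
  have hN : (pairStr (x, adv n)).length ≤ N0.eval n := by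
    rw [pairStr_length']
    have := hadv n
    simp only [N0, Polynomial.eval_add, Polynomial.eval_mul, Polynomial.eval_X,
      Polynomial.eval_ofNat, Polynomial.eval_one]
    omega
  have hk2 : k ≤ p2.eval (N0.eval n) := hk.trans (eval_mono p2 hN)
  have hlen : ∀ j, (answers A M (pairStr (x, adv n)) j).length = j := by
    intro j
    induction j with
    | zero => rfl
    | succ j ih => rw [answers, List.length_append, ih]; rfl
  have hB : ∀ j < k, (M (pairStr (x, adv n),
      answers A M (pairStr (x, adv n)) j)).2.length + 1 ≤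
      s.eval (N0.eval n + p2.eval (N0.eval n)) := by
    intro j hj
    refine (hs _ _).trans (eval_mono s ?_)
    rw [hlen]
    omega
  have h3 := sim_of_run h1 h2 hB k 0 (by omega) (2 ^ (n / 7)) (by
    refine le_trans ?_ (hn₂ n (by omega))
    simp only [tP, Polynomial.eval_mul, Polynomial.eval_comp, Polynomial.eval_add]
    exact Nat.mul_le_mul_right _ hk2)
  refine h3.trans ?_
  have h4 := hV x
  rw [hx] at h4
  have h5 : (base x).headD false = V (x, adv n) := by
    rw [Bool.eq_iff_iff]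
    exact h4
  rw [h5]
  cases hv : V (x, adv n) <;> simp [hv]

end OAlg
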