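import Pool.Agent.Work.MP_609cce_lc_alg2.Defs2
import Pool.Agent.Work.MP_609cce_lc_alg2.Game2

/-!
# Runs of procedures with string outputs as decision trees
-/

namespace OAlg

open ORDist hiding stepA stepR stepA_congr stepR_congr orc lang
open OEth hiding orc lang par par_wf par_agr
open Orc Finset
open Classical

/-! ### the clocked simulation with the output -/

theorem simS_of_runsOut {A : Str → Bool} {M : OProc} {x y : Str} {t : ℕ}
    (h : RunsOut A M x t y) : simS A M x t [] = some y := by
  obtain ⟨k, h1, h2, h3⟩ := h
  have key : ∀ j i, i + j = k → ∀ s, ∑ m ∈ range j, ((M (x, answers A M x (i + m))).2.length + 1)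
      ≤ s → simS A M x s (answers A M x i) = some y := by
    intro j
    induction j with
    | zero =>
      intro i hi s _
      have e : i = k := by omega
      subst e
      rw [simS.eq_def, h3]
      simp
    | succ j ih =>
      intro i hi s hs
      rw [sum_range_succ'] at hs
      simp only [add_zero] at hs
      rw [simS.eq_def, if_pos (h1 i (by omega)), dif_pos (by omega)]
      refine ih (i + 1) (by omega) _ ?_
      have e : ∑ m ∈ range j, ((M (x, answers A M x (i + 1 + m))).2.length + 1) =
          ∑ m ∈ range j, ((M (x, answers A M x (i + (m + 1)))).2.length + 1) :=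
        sum_congr rfl fun m _ => by rw [show i + 1 + m = i + (m + 1) by omega]
      omega
  have h4 := key k 0 (by omega) t (by simpa using h2)
  simpa [answers] using h4

theorem simS_congr {A A' : Str → Bool} (M : OProc) (inp : Str) : ∀ (t : ℕ) (a : Str),
    (∀ q : Str, q.length < t → A q = A' q) → simS A M inp t a = simS A' M inp t a := by
  intro t
  induction t using Nat.strong_induction_on with
  | _ t ih =>
    intro a h
    rw [simS.eq_def A M inp t a, simS.eq_def A' M inp t a]
    split_ifs with h1 h2
    · rw [h _ h2]
      exact ih _ (by omega) _ fun q hq => h q (by omega)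
    · rfl
    · rfl

/-! ### trees with string results -/

variable {Φ : Fields} {n N : ℕ}

/-- the tree of the clocked simulation with the output, `QT` being the trees of the queries -/
noncomputable def atsimS (QT : Str → AT Φ n N) (M : OProc) (inp : Str) (t : ℕ) (a : Str) :
    ATreeR (Option Str) Str (IC n N) (CU Φ) (CM Φ) :=
  if (M (inp, a)).1 = true then
    if _h : (M (inp, a)).2.length < t then
      (QT (M (inp, a)).2).bindR fun b =>
        atsimS QT M inp (t - (M (inp, a)).2.length - 1) (a ++ [b])
    else .ret none
  else .ret (some (M (inp, a)).2)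
termination_by t

variable {G : AG (IX n) (IY n N) (IT n N) (IP n N) Str (IC n N) CW (CU Φ) (CM Φ)}

theorem atsimS_eval {QT : Str → AT Φ n N} {A : Str → Bool} {θ : WW Φ n N} (M : OProc)
    (inp : Str) :
    ∀ (t : ℕ) (a : Str), (∀ q : Str, q.length < t → (QT q).eval G θ = A q) →
      (atsimS QT M inp t a).eval G θ = simS A M inp t a := by
  intro t
  induction t using Nat.strong_induction_on with
  | _ t ih =>
    intro a h
    rw [atsimS.eq_def QT M inp t a, simS.eq_def A M inp t a]
    split_ifs with h1 h2
    · rw [ATree.eval_bindR, h _ h2]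
      exact ih _ (by omega) _ fun q hq => h q (by omega)
    · rfl
    · rfl

theorem atsimS_bd {QT : Str → AT Φ n N} {L : ℕ} (M : OProc) (inp : Str) :
    ∀ (t : ℕ) (a : Str), (∀ q : Str, q.length < t → Bd G L (QT q) (q.length + 1)) →
      BdR G L (atsimS QT M inp t a) t := by
  intro t
  induction t using Nat.strong_induction_on with
  | _ t ih =>
    intro a h
    rw [atsimS.eq_def QT M inp t a]
    split_ifs with h1 h2
    · exact ((h _ h2).bindR fun b => ih (t - (M (inp, a)).2.length - 1) (by omega) (a ++ [b])
        fun q hq => h q (by omega)).mono le_rfl _ (by omega)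
    · exact BdR.ret _ _
    · exact BdR.ret _ _

/-- **The trees of the runs with string outputs.** -/
theorem exists_runS {p : Par Φ} (K : Cubes Φ) (Mach : ℕ → OProc) (hp : p.WF) (M : OProc)
    (inp : Str) {t : ℕ} (ht : t ≤ N) :
    ∃ tr : ATreeR (Option Str) Str (IC n N) (CU Φ) (CM Φ), BdR (agW K Mach p n N) N tr t ∧
      ∀ θ : WW Φ n N, (∀ c, θ.1 c ∈ E0 c) → (agW K Mach p n N).VV θ.2.2 →
        tr.eval (agW K Mach p n N) θ = simS (aorc Mach (par p θ)) M inp t [] := by
  refine ⟨atsimS (xT Mach p (aqtn Mach p N)) M inp t [], ?_, fun θ hη hV => ?_⟩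
  · exact atsimS_bd _ _ _ _ fun q hq => xT_bd K (by omega) fun q' hq' =>
      aqtn_bd K N q' (by omega) (by omega)
  · exact atsimS_eval _ _ _ _ fun q hq => xT_eval K hp (par_wf_aux K hp hη hV) (by omega)
      fun q' hq' => aqtn_eval K hp (par_wf_aux K hp hη hV) N q' (by omega) (by omega)

end OAlg
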