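import Pool.Agent.Work.MP_609cce_lc_alg.Stage
import Pool.Agent.Work.MP_609cce_lc_alg2.Avg
import Pool.Agent.Work.MP_609cce_lc_alg2.LocF

/-!
# The decision bound of one window

In all but a small part of the worlds of a window, a procedure with any short advice is right on
at most a little more than half of the strings of length `n`.
-/

namespace OAlg

open ORDist hiding stepA stepR stepA_congr stepR_congr orc lang
open OEth hiding orc lang par orc_local stage par_wf par_agr
open Orc Finset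
open Classical

variable {Φ : Fields}

theorem card_IX (n : ℕ) : Fintype.card (IX n) = 2 ^ n := by
  rw [← card_sF n, ← Fintype.card_coe]
  exact Fintype.card_congr (Equiv.subtypeEquivRight fun x => mem_sF.symm)

theorem valid_st0 (K : Cubes Φ) {Mach : ℕ → OProc} {p : Par Φ} {n N H : ℕ}
    (hok : (agW K Mach p n N).OK E0 H) :
    Valid (agW K Mach p n N) E0 H 0 (st0 Φ n N) := by
  refine ⟨⟨fun c => Subset.refl _, (card_empty).le, fun x => Or.inl rfl, fun x => Or.inl ?_,
    fun y => Or.inl ?_, fun t => Or.inl ⟨?_, notMem_empty t⟩,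
    fun t ht => absurd ht (notMem_empty t)⟩, fun c w hw => ?_⟩
  · exact (hok.eu x).trans (Nat.le_add_right _ _)
  · exact (hok.eo y).trans (Nat.le_add_right _ _)
  · exact hok.eg t
  · have h4 := ((agW K Mach p n N).cube c).B_card ∅
    rw [card_empty, Nat.le_zero, card_eq_zero] at h4
    have h5 : w ∈ ((agW K Mach p n N).cube c).B ∅ := hw
    rw [h4] at h5
    exact absurd h5 (notMem_empty w)

theorem cr_st0 (K : Cubes Φ) (Mach : ℕ → OProc) (p : Par Φ) (n N L : ℕ) :
    cr (agW K Mach p n N) L (st0 Φ n N) = 0 := by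
  unfold cr
  refine sum_eq_zero fun c _ => ?_
  split_ifs
  · have : (((st0 Φ n N).Sa c).card -
        (((agW K Mach p n N).cube c).B ((st0 Φ n N).Sa c)).card) = 0 := by
      show (∅ : Finset (CU Φ c)).card - _ = 0
      rw [card_empty, Nat.zero_sub]
    rw [this, Nat.mul_zero]
  · rfl

theorem VV_allW (K : Cubes Φ) {Mach : ℕ → OProc} {p : Par Φ} {n N : ℕ} {θ : WW Φ n N} :
    θ ∈ allW Φ n N ↔ (∀ c, θ.1 c ∈ E0 c) ∧ (agW K Mach p n N).VV θ.2.2 := by
  rw [mem_allW]
  refine and_congr_right fun _ => forall_congr' fun c => ?_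
  exact (K.mem_van c.1.1 c.1.2 (θ.2.2 c)).symm

theorem inW_st0 (K : Cubes Φ) {Mach : ℕ → OProc} {p : Par Φ} {n N : ℕ} {θ : WW Φ n N}
    (hθ : θ ∈ allW Φ n N) : InW (agW K Mach p n N) (st0 Φ n N) θ := by
  obtain ⟨h4, h5⟩ := (VV_allW K (Mach := Mach) (p := p)).1 hθ
  exact ⟨h4, h5, fun t ht => absurd ht (notMem_empty t), fun q a h => by
    simp [st0] at h, fun c y hy => absurd hy (notMem_empty y)⟩

/-- the number of the worlds of a window -/
theorem card_allW (K : Cubes Φ) (Mach : ℕ → OProc) (p : Par Φ) (n N : ℕ) :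
    ((allW Φ n N).card : ℝ) =
      2 ^ Fintype.card (IP n N) * phi (agW K Mach p n N) [] (st0 Φ n N) := by
  set G := agW K Mach p n N with hG
  have hΩ : allW Φ n N = (Fintype.piFinset E0) ×ˢ ((univ : Finset (IP n N → Bool)) ×ˢ
      Fintype.piFinset fun c => (G.cube c).gs ((st0 Φ n N).Sa c) ((st0 Φ n N).va c)
        ((st0 Φ n N).aa c)) := by
    ext θ
    rw [VV_allW K (Mach := Mach) (p := p)]
    simp only [mem_product, Fintype.mem_piFinset, mem_univ, true_and]
    refine and_congr_right fun _ => forall_congr' fun c => ?_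
    rw [Cube.mem_gs]
    exact ⟨fun h => ⟨h, fun y hy => absurd hy (notMem_empty y)⟩, fun h => h.1⟩
  rw [hΩ, card_product, card_product, Fintype.card_piFinset, Fintype.card_piFinset, card_univ,
    Fintype.card_fun, Fintype.card_bool]
  unfold phi mass pot gam
  show _ = 2 ^ Fintype.card (IP n N) * ((∏ c, ((E0 c).card : ℝ)) / 2 ^ (∅ : Finset _).card *
    _ * _)
  rw [card_empty, pow_zero, div_one, List.map_nil, List.prod_nil, mul_one]
  push_cast
  ring

theorem phi_st0 (K : Cubes Φ) {Mach : ℕ → OProc} {p : Par Φ} {n N H : ℕ}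
    (hok : (agW K Mach p n N).OK E0 H) (l : List (IX n)) :
    phi (agW K Mach p n N) l (st0 Φ n N) =
      phi (agW K Mach p n N) [] (st0 Φ n N) * (1 / 2) ^ l.length := by
  have h5 : pot (E0 : WC n N → Finset Str) l = (1 / 2) ^ l.length := by
    induction l with
    | nil => simp [pot]
    | cons x l ih =>
      unfold pot at ih ⊢
      rw [List.map_cons, List.prod_cons, ih, List.length_cons, pow_succ, hok.eb x]
      norm_num
      ring
  unfold phi
  show mass E0 ∅ * pot E0 l * _ = mass E0 ∅ * pot E0 [] * _ * _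
  rw [h5]
  simp only [pot, List.map_nil, List.prod_nil]
  ring

/-- **A list of inputs.** -/
theorem window_list (K : Cubes Φ) (Mach : ℕ → OProc) {p : Par Φ} (hp : p.WF) (M : OProc)
    {n N : ℕ} (hn : 1 ≤ n) (a : Str) (m t : ℕ) (htN : t ≤ N)
    (h2 : m * t * (m * t + 2) ≤ 2 ^ n) (h3 : 2 * (m * t) ≤ 2 ^ n)
    (l : List (IX n)) (hl : l.Nodup) (hlm : l.length = m) :
    (((allW Φ n N).filter fun θ => ∀ x ∈ l,
      sim (aorc Mach (par p θ)) M (pairStr (x.1, a)) t [] =
        (θ.1 (cb x)).headD false).card : ℝ) ≤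
      ((allW Φ n N).card : ℝ) * ((1 / 2) ^ m * 4) := by
  set D : ℕ := m * t with hD
  set H : ℕ := 2 ^ n with hH
  have hH0 : (0 : ℝ) < H := by
    rw [hH]
    positivity
  set δ : ℝ := ((D : ℝ) + 2) / H with hδ
  have hδ0 : 0 ≤ δ := by positivity
  have hD1 : ∀ a : ℕ, H ≤ a + D → 1 ≤ δ * a := by
    intro a ha
    have h4 : (H : ℝ) ≤ 2 * a := by
      have : H ≤ 2 * a := by omega
      exact_mod_cast this
    rw [hδ, div_mul_eq_mul_div, le_div_iff₀ hH0]
    have h5 : (0 : ℝ) ≤ D := Nat.cast_nonneg D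
    have h6 : (0 : ℝ) ≤ a := Nat.cast_nonneg a
    nlinarith [mul_nonneg h5 h6]
  have hD2 : (D : ℝ) ≤ δ * H := by
    rw [hδ, div_mul_cancel₀ _ hH0.ne']
    linarith
  have hpow : (1 + δ) ^ D ≤ 4 := by
    refine one_add_pow_le hδ0 ?_
    rw [hδ, div_mul_eq_mul_div, div_le_one hH0]
    have : (D + 2) * D ≤ H := by rw [mul_comm]; exact h2
    exact_mod_cast this
  have hok : (agW K Mach p n N).OK E0 H := agW_ok K Mach hp hn
  have hres : Res (agW K Mach p n N) E0 := res_agW K Mach hp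
  have hbase : ∀ xs : List (IX n), xs.Nodup → BaseSplit (agW K Mach p n N) E0 H D δ xs :=
    fun xs hxs => base_split hok hδ0 hD1 hD2 hxs
  have hrun : ∀ x : IX n, ∃ tr : ATree Str (IC n N) (CU Φ) (CM Φ),
      Bd (agW K Mach p n N) N tr t ∧
      ∀ θ : WW Φ n N, (∀ c, θ.1 c ∈ E0 c) → (agW K Mach p n N).VV θ.2.2 →
        tr.eval (agW K Mach p n N) θ = sim (aorc Mach (par p θ)) M (pairStr (x.1, a)) t [] :=
    fun x => exists_run K Mach hp M (pairStr (x.1, a)) htN
  choose tr htr1 htr2 using hrun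
  have hL1 : (l.map fun x => (x, tr x)).map Prod.fst = l := by
    rw [List.map_map]
    conv_rhs => rw [← List.map_id l]
    rfl
  have hL2 : (l.map fun x => (x, tr x)).length = m := by rw [List.length_map, hlm]
  have h4 := list_bound (L := N) (t := t) hok hδ0 hbase hres (l.map fun x => (x, tr x))
    (by rw [hL1]; exact hl)
    (fun z hz => by
      obtain ⟨x, _, rfl⟩ := List.mem_map.1 hz
      exact htr1 x) 0 (st0 Φ n N) (valid_st0 K hok) (by rw [cr_st0, hL2]; omega)
    ((allW Φ n N).filter fun θ => ∀ x ∈ l,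
      sim (aorc Mach (par p θ)) M (pairStr (x.1, a)) t [] = (θ.1 (cb x)).headD false)
    (fun θ hθ => by
      obtain ⟨h5, h6⟩ := mem_filter.1 hθ
      refine ⟨inW_st0 K h5, fun z hz => ?_⟩
      obtain ⟨x, hx, rfl⟩ := List.mem_map.1 hz
      obtain ⟨h7, h8⟩ := (VV_allW K (Mach := Mach) (p := p)).1 h5
      rw [htr2 x θ h7 h8]
      exact h6 x hx)
  refine h4.trans ?_
  rw [hL1, phi_st0 K hok, hlm, cr_st0, hL2, Nat.zero_add, card_allW K Mach p n N]
  have h5 : (0 : ℝ) ≤ 2 ^ Fintype.card (IP n N) * phi (agW K Mach p n N) [] (st0 Φ n N) :=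
    mul_nonneg (by positivity) (phi_nonneg _ _ _)
  calc (2 : ℝ) ^ Fintype.card (IP n N) * (phi (agW K Mach p n N) [] (st0 Φ n N) *
        (1 / 2) ^ m * (1 + δ) ^ (m * t))
      = 2 ^ Fintype.card (IP n N) * phi (agW K Mach p n N) [] (st0 Φ n N) *
        ((1 / 2) ^ m * (1 + δ) ^ D) := by rw [hD]; ring
    _ ≤ 2 ^ Fintype.card (IP n N) * phi (agW K Mach p n N) [] (st0 Φ n N) *
        ((1 / 2) ^ m * 4) := by
        refine mul_le_mul_of_nonneg_left ?_ h5
        exact mul_le_mul_of_nonneg_left hpow (by positivity)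

theorem two_pow_le_one_add {τ : ℕ} (hτ : 1 ≤ τ) (r : ℕ) :
    (2 : ℝ) ^ r ≤ (1 + 1 / (τ : ℝ)) ^ (τ * r) := by
  rw [pow_mul]
  refine pow_le_pow_left₀ (by norm_num) ?_ r
  have h0 : (0 : ℝ) < τ := by exact_mod_cast hτ
  have h1 := one_add_mul_le_pow (a := 1 / (τ : ℝ))
    (le_trans (by norm_num) (by positivity : (0 : ℝ) ≤ 1 / (τ : ℝ))) τ
  have h2 : (τ : ℝ) * (1 / τ) = 1 := by
    field_simp
  linarith

/-- the procedure `M` with some advice of length at most `α` and the budget `t` is right on more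
than `(1 / 2 + 1 / τ) 2 ^ n` strings of length `n` -/
def BadD (Mach : ℕ → OProc) (M : OProc) (α t τ n : ℕ) (p : Par Φ) : Prop :=
  ∃ a : Str, a.length ≤ α ∧ (1 / 2 + 1 / (τ : ℝ)) * 2 ^ n <
    ((univ.filter fun x : IX n => sim (aorc Mach p) M (pairStr (x.1, a)) t [] =
      (p.par.base x.1).headD false).card : ℝ)

theorem par_headD {n N : ℕ} {p : Par Φ} {θ : WW Φ n N} (hθ : ∀ c, θ.1 c ∈ E0 c) (x : IX n) :
    ((par p θ).par.base x.1).headD false = (θ.1 (cb x)).headD false := by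
  show ((OEth.par p.par θ.1 θ.2.1).base x.1).headD false = _
  rw [par_base]
  have h6 : θ.1 (cb x) ∈ ({[false], [true]} : Finset Str) := hθ (cb x)
  rw [mem_insert, mem_singleton] at h6
  rcases h6 with h6 | h6 <;> rw [h6] <;> rfl

/-- **The decision bound of one window.** -/
theorem window_bound (K : Cubes Φ) (Mach : ℕ → OProc) {p : Par Φ} (hp : p.WF) (M : OProc)
    {n N : ℕ} (hn : 1 ≤ n) (α t τ r : ℕ) (htN : t ≤ N) (hτ : 1 ≤ τ)
    (h1 : 2 * τ * (τ * r) ≤ 2 ^ n)
    (h2 : τ * r * t * (τ * r * t + 2) ≤ 2 ^ n) (h3 : 2 * (τ * r * t) ≤ 2 ^ n) :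
    (((allW Φ n N).filter fun θ => BadD Mach M α t τ n (par p θ)).card : ℝ) * 2 ^ r ≤
      ((allW Φ n N).card : ℝ) * 2 ^ (α + 3) := by
  set W := allW Φ n N with hW
  let R : Str → WW Φ n N → IX n → Prop := fun a θ x =>
    sim (aorc Mach (par p θ)) M (pairStr (x.1, a)) t [] = (θ.1 (cb x)).headD false
  let B : Str → Finset (WW Φ n N) := fun a => W.filter fun θ =>
    (1 / 2 + 1 / (τ : ℝ)) * Fintype.card (IX n) < ((univ.filter fun x => R a θ x).card : ℝ)
  have hB : ∀ a, ((B a).card : ℝ) * 2 ^ r ≤ (W.card : ℝ) * 4 := by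
    intro a
    have h4 := avg_bound W (R a) (τ * r) τ hτ (by rw [card_IX]; exact h1) 4 (by norm_num)
      fun l hl hlm => by
        have h5 := window_list K Mach hp M hn a (τ * r) t htN h2 h3 l hl hlm
        convert h5
    have h5 : ((B a).card : ℝ) * (1 + 1 / (τ : ℝ)) ^ (τ * r) ≤ (W.card : ℝ) * 4 := by
      convert h4
    refine le_trans ?_ h5
    exact mul_le_mul_of_nonneg_left (two_pow_le_one_add hτ r) (Nat.cast_nonneg _)
  have hcov : (W.filter fun θ => BadD Mach M α t τ n (par p θ)) ⊆ (advF α).biUnion B := by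
    intro θ hθ
    obtain ⟨h4, a, ha, h5⟩ := mem_filter.1 hθ
    refine mem_biUnion.2 ⟨a, mem_advF.2 ha, mem_filter.2 ⟨h4, ?_⟩⟩
    rw [card_IX, Nat.cast_pow, Nat.cast_ofNat]
    refine h5.trans_le (le_of_eq ?_)
    congr 2
    ext x
    simp only [mem_filter, mem_univ, true_and, R]
    rw [par_headD (mem_allW.1 h4).1]
  have h6 : ((W.filter fun θ => BadD Mach M α t τ n (par p θ)).card : ℝ) ≤
      ∑ a ∈ advF α, ((B a).card : ℝ) := by
    exact_mod_cast (card_le_card hcov).trans card_biUnion_le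
  calc ((W.filter fun θ => BadD Mach M α t τ n (par p θ)).card : ℝ) * 2 ^ r
      ≤ (∑ a ∈ advF α, ((B a).card : ℝ)) * 2 ^ r :=
        mul_le_mul_of_nonneg_right h6 (by positivity)
    _ = ∑ a ∈ advF α, ((B a).card : ℝ) * 2 ^ r := by rw [sum_mul]
    _ ≤ ∑ _a ∈ advF α, (W.card : ℝ) * 4 := sum_le_sum fun a _ => hB a
    _ = ((advF α).card : ℝ) * ((W.card : ℝ) * 4) := by rw [sum_const, nsmul_eq_mul]
    _ ≤ 2 ^ (α + 1) * ((W.card : ℝ) * 4) := by
        refine mul_le_mul_of_nonneg_right ?_ (by positivity)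
        exact_mod_cast card_advF α
    _ = (W.card : ℝ) * 2 ^ (α + 3) := by
        rw [pow_add (2 : ℝ) α 1, pow_add (2 : ℝ) α 3]
        ring

/-- the failure depends on finitely many coordinates only -/
theorem badD_local (Mach : ℕ → OProc) (M : OProc) {α t τ n N : ℕ} (htN : t ≤ N) (hnN : n < N)
    {p p' : Par Φ} (hp : p.WF) (hp' : p'.WF) (h : AgrF p p' N) (hb : BadD Mach M α t τ n p) :
    BadD Mach M α t τ n p' := by
  obtain ⟨a, ha, h1⟩ := hb
  refine ⟨a, ha, h1.trans_le (le_of_eq ?_)⟩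
  congr 2
  ext x
  simp only [mem_filter, mem_univ, true_and]
  rw [sim_congr M (pairStr (x.1, a)) t [] fun q hq => aorc_localF hp hp' h
    (show q.length ≤ N by omega), h.base x.1 (by rw [x.2]; exact hnN)]

/-- the meaning of the bound for the runs -/
theorem ncard_le_of_not_badD {Mach : ℕ → OProc} {M : OProc} {α t τ n : ℕ} {p : Par Φ}
    (h : ¬ BadD Mach M α t τ n p) {a : Str} (ha : a.length ≤ α) :
    ({x : Str | x.length = n ∧ ∃ v : Bool, RunsTo (aorc Mach p) M (pairStr (x, a)) t v ∧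
      ((p.par.base x).headD false = true ↔ v = true)}.ncard : ℝ) ≤
      (1 / 2 + 1 / (τ : ℝ)) * 2 ^ n := by
  have h1 : ¬ ((1 / 2 + 1 / (τ : ℝ)) * 2 ^ n <
      ((univ.filter fun x : IX n => sim (aorc Mach p) M (pairStr (x.1, a)) t [] =
        (p.par.base x.1).headD false).card : ℝ)) := fun h2 => h ⟨a, ha, h2⟩
  refine le_trans ?_ (not_lt.1 h1)
  have h2 : {x : Str | x.length = n ∧ ∃ v : Bool,
      RunsTo (aorc Mach p) M (pairStr (x, a)) t v ∧
      ((p.par.base x).headD false = true ↔ v = true)} ⊆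
      (((univ.filter fun x : IX n => sim (aorc Mach p) M (pairStr (x.1, a)) t [] =
        (p.par.base x.1).headD false).image fun x : IX n => x.1 : Finset Str) : Set Str) := by
    rintro x ⟨hx, v, hv, hv2⟩
    rw [coe_image, Set.mem_image]
    refine ⟨⟨x, hx⟩, ?_, rfl⟩
    rw [mem_coe, mem_filter]
    refine ⟨mem_univ _, ?_⟩
    show sim (aorc Mach p) M (pairStr (x, a)) t [] = (p.par.base x).headD false
    rw [sim_of_runsTo hv, Bool.eq_iff_iff]
    exact hv2.symm
  have h3 := Set.ncard_le_ncard h2 (finite_toSet _)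
  rw [Set.ncard_coe_finset] at h3
  exact_mod_cast h3.trans card_image_le

end OAlg
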