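import Pool.Agent.Work.MP_609cce_lc_alg2.Coll2
import Pool.Agent.Work.MP_609cce_lc_alg2.RunS
import Pool.Agent.Work.MP_609cce_lc_alg2.SD

/-!
# The collision bound of one window

In all but a small part of the worlds of a window, a given procedure finds no collision of the
distillation.
-/

namespace OAlg

open ORDist hiding stepA stepR stepA_congr stepR_congr orc lang
open OEth hiding orc lang par orc_local stage par_wf par_agr
open Orc Finset
open Classical

variable {Φ : Fields}

/-- the procedure `M` on the input `1 ^ n` with the budget `t` finds two different sequences of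
size at most `s`, one of them with a member of length at least `n`, with the same name -/
def BadC (Mach : ℕ → OProc) (M : OProc) (t s n : ℕ) (p : Par Φ) : Prop :=
  ∃ xs ys : List Str, simS (aorc Mach p) M (List.replicate n true) t [] =
      some (pairStr (seqBits xs, seqBits ys)) ∧
    (seqBits xs).length ≤ s ∧ (seqBits ys).length ≤ s ∧ (∃ x ∈ xs, n ≤ x.length) ∧ xs ≠ ys ∧
    p.par.g xs = p.par.g ys

theorem valid2_st0 (K : Cubes Φ) {Mach : ℕ → OProc} {p : Par Φ} {n N H : ℕ}
    (hok : (agW K Mach p n N).OK E0 H) :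
    Valid2 (agW K Mach p n N) E0 H 0 (st0 Φ n N) := by
  have h1 := valid_st0 K hok
  refine ⟨h1.st, h1.bits, ?_⟩
  rw [Nat.le_zero, card_eq_zero, filter_eq_empty_iff]
  intro t _ h
  exact h (hok.eg t)

theorem wC_st0 {n N : ℕ} (B : ℝ) : wC B (E0 : WC n N → Finset Str) = 1 := by
  unfold wC
  rw [if_neg]
  rintro ⟨t, t', _, γ, h, _⟩
  have h1 : (E0 (cg t : WC n N)).card = 1 := by rw [h, card_singleton]
  have h2 : (E0 (cg t : WC n N)).card = 2 ^ (maxlen t.1 + 1) := card_sF _
  rw [h2, pow_succ] at h1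
  omega

/-- the output as a pair of sequences of the window -/
noncomputable def outW (n N : ℕ) (r : Option Str) : Option (IT n N × IT n N) :=
  if h : ∃ z : IT n N × IT n N, r = some (pairStr (seqBits z.1.1, seqBits z.2.1)) then
    some h.choose else none

theorem outW_eq {n N : ℕ} (z1 z2 : IT n N) :
    outW n N (some (pairStr (seqBits z1.1, seqBits z2.1))) = some (z1, z2) := by
  have h : ∃ z : IT n N × IT n N, some (pairStr (seqBits z1.1, seqBits z2.1)) =
      some (pairStr (seqBits z.1.1, seqBits z.2.1)) := ⟨(z1, z2), rfl⟩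
  unfold outW
  rw [dif_pos h, Option.some.injEq]
  have h1 := h.choose_spec
  rw [Option.some.injEq] at h1
  obtain ⟨h2, h3⟩ := pairStr_inj' h1
  exact Prod.ext (Subtype.ext (seqBits_inj h2).symm) (Subtype.ext (seqBits_inj h3).symm)

theorem mem_window {p : Par Φ} (hp : p.WF) {s n N : ℕ} (hs : s < N) {xs ys : List Str}
    (hx : (seqBits xs).length ≤ s) (hy : (seqBits ys).length ≤ s) (hn : ∃ x ∈ xs, n ≤ x.length)
    (hg : p.par.g xs = p.par.g ys) :
    (n ≤ maxlen xs ∧ (seqBits xs).length < N) ∧ (n ≤ maxlen ys ∧ (seqBits ys).length < N) := by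
  obtain ⟨x, hx1, hx2⟩ := hn
  have h1 := le_maxlen hx1
  have h2 : (p.par.g xs).length = (p.par.g ys).length := by rw [hg]
  rw [hp.wf.g_len, hp.wf.g_len] at h2
  omega

/-- **The collision bound of one window.** -/
theorem windowC_bound (K : Cubes Φ) (Mach : ℕ → OProc) {p : Par Φ} (hp : p.WF) (M : OProc)
    {n N : ℕ} (hn : 1 ≤ n) (t s : ℕ) (htN : t ≤ N) (hsN : s < N) {B : ℝ} (hB : 1 ≤ B)
    (hBn : 2 * B * (t + 2) ^ 2 ≤ 2 ^ n) :
    (((allW Φ n N).filter fun θ => BadC Mach M t s n (par p θ)).card : ℝ) * B ≤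
      4 * ((allW Φ n N).card : ℝ) := by
  set H : ℕ := 2 ^ n with hH
  set D : ℕ := t + 2 with hD
  have hD0 : (0 : ℝ) < D := by rw [hD]; positivity
  have hDc : (D : ℝ) = t + 2 := by rw [hD]; push_cast; ring
  have hHc : (H : ℝ) = 2 ^ n := by rw [hH]; push_cast; ring
  rw [← hDc, ← hHc] at hBn
  have hH2 : 2 * D ≤ H := by
    have h1 : (2 : ℝ) * D ≤ H := by
      have h2 : (1 : ℝ) ≤ D := by rw [hDc]; have : (0 : ℝ) ≤ t := Nat.cast_nonneg t; linarith
      have h3 : (D : ℝ) ≤ B * D ^ 2 := by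
        calc (D : ℝ) = 1 * (D * 1) := by ring
          _ ≤ B * (D * D) := mul_le_mul hB (mul_le_mul_of_nonneg_left h2 hD0.le)
              (by positivity) (by linarith)
          _ = _ := by ring
      linarith
    exact_mod_cast h1
  set δ : ℝ := 1 / D with hδ
  have hδ0 : 0 ≤ δ := by positivity
  have hD1 : ∀ a : ℕ, H ≤ a + D → 1 ≤ δ * a := by
    intro a ha
    rw [hδ, div_mul_eq_mul_div, one_mul, le_div_iff₀ hD0, one_mul]
    have : D ≤ a := by omega
    exact_mod_cast this
  have hBD : 2 * B * D ≤ δ * H := by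
    rw [hδ, div_mul_eq_mul_div, one_mul, le_div_iff₀ hD0]
    calc 2 * B * D * D = 2 * B * D ^ 2 := by ring
      _ ≤ H := hBn
  have hpow : (1 + δ) ^ D ≤ 4 := by
    refine one_add_pow_le hδ0 (le_of_eq ?_)
    rw [hδ, div_mul_cancel₀ _ hD0.ne']
  have hok : (agW K Mach p n N).OK E0 H := agW_ok K Mach hp hn
  obtain ⟨tr, htr, hev⟩ := exists_runS K Mach hp M (List.replicate n true) htN
  have h1 := coll_bound hok hδ0 hD1 hB (by omega) hBD (res_agW K Mach hp) htr (outW n N)
    (valid2_st0 K hok) (by rw [cr_st0]; omega)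
    ((allW Φ n N).filter fun θ => BadC Mach M t s n (par p θ)) (fun θ hθ => by
      obtain ⟨h2, xs, ys, h3, h4, h5, h6, h7, h8⟩ := mem_filter.1 hθ
      obtain ⟨h9, h10⟩ := (VV_allW K (Mach := Mach) (p := p)).1 h2
      have hw : (par p θ).WF := par_wf K hp h9 h10
      obtain ⟨hx, hy⟩ := mem_window hw hsN h4 h5 h6 h8
      refine ⟨inW_st0 K h2, ⟨xs, hx⟩, ⟨ys, hy⟩, ?_, fun h => h7 (congrArg Subtype.val h), ?_⟩
      · rw [hev θ h9 h10, h3]
        exact outW_eq (⟨xs, hx⟩ : IT n N) ⟨ys, hy⟩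
      · rw [← par_g (p := p.par) (η := θ.1) (π := θ.2.1) (⟨xs, hx⟩ : IT n N),
          ← par_g (p := p.par) (η := θ.1) (π := θ.2.1) (⟨ys, hy⟩ : IT n N)]
        exact h8)
  refine h1.trans ?_
  rw [cr_st0, pow_zero, mul_one, card_allW K Mach p n N]
  have h2 : phiW (agW K Mach p n N) (wC B) (st0 Φ n N) =
      phi (agW K Mach p n N) [] (st0 Φ n N) := by
    unfold phiW phi
    show mass E0 ∅ * wC B E0 * _ = mass E0 ∅ * pot E0 [] * _
    rw [wC_st0]
    simp only [pot, List.map_nil, List.prod_nil]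
  rw [h2]
  have h3 : (0 : ℝ) ≤ 2 ^ Fintype.card (IP n N) * phi (agW K Mach p n N) [] (st0 Φ n N) :=
    mul_nonneg (by positivity) (phi_nonneg _ _ _)
  calc (2 : ℝ) ^ Fintype.card (IP n N) * ((1 + δ) ^ D *
        phi (agW K Mach p n N) [] (st0 Φ n N))
      = (1 + δ) ^ D * (2 ^ Fintype.card (IP n N) *
        phi (agW K Mach p n N) [] (st0 Φ n N)) := by ring
    _ ≤ _ := mul_le_mul_of_nonneg_right hpow h3

/-- the collisions depend on finitely many coordinates only -/
theorem badC_local (Mach : ℕ → OProc) (M : OProc) {t s n N : ℕ} (htN : t ≤ N) (hsN : s < N)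
    {p p' : Par Φ} (hp : p.WF) (hp' : p'.WF) (h : AgrF p p' N) (hb : BadC Mach M t s n p) :
    BadC Mach M t s n p' := by
  obtain ⟨xs, ys, h3, h4, h5, h6, h7, h8⟩ := hb
  refine ⟨xs, ys, ?_, h4, h5, h6, h7, ?_⟩
  · rw [← h3]
    exact (simS_congr M _ t [] fun q hq => aorc_localF hp hp' h
      (show q.length ≤ N by omega)).symm
  · rw [← h.g xs (by omega), ← h.g ys (by omega), h8]

/-- the meaning of the bound for the runs -/
theorem dist_ne_of_not_badC {Mach : ℕ → OProc} {M : OProc} {t s n : ℕ} {p : Par Φ}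
    (h : ¬ BadC Mach M t s n p) {xs ys : List Str}
    (hr : RunsOut (aorc Mach p) M (List.replicate n true) t (pairStr (seqBits xs, seqBits ys)))
    (hx : (seqBits xs).length ≤ s) (hy : (seqBits ys).length ≤ s) (hn : ∃ x ∈ xs, n ≤ x.length)
    (hne : xs ≠ ys) : OAlg.dist Mach p xs ≠ OAlg.dist Mach p ys := by
  intro hd
  refine h ⟨xs, ys, simS_of_runsOut hr, hx, hy, hn, hne, ?_⟩
  unfold OAlg.dist nm at hd
  rw [List.cons.injEq, List.cons.injEq] at hd
  exact hd.2.2

end OAlg
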