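import Pool.Agent.Work.MP_609cce_lc_alg2.Coll3
import Pool.Agent.Work.MP_609cce_lc_alg2.AvgQ
import Pool.Agent.Work.MP_609cce_lc_alg2.SC

/-!
# The keyed collision bound of one window

In all but a small part of the worlds of a window, a given procedure with any short advice finds
collisions of the distillation for few keys only.
-/

namespace OAlg

open ORDist hiding stepA stepR stepA_congr stepR_congr orc lang
open OEth hiding orc lang par orc_local stage par_wf par_agr
open Orc Finset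
open Classical

variable {Φ : Fields}

/-- the procedure `M` with the advice `a`, the key `z` and the budget `t` finds a collision -/
def KC (Mach : ℕ → OProc) (M : OProc) (t s : ℕ) (p : Par Φ) (a z : Str) : Prop :=
  ∃ xs ys : List Str, simS (aorc Mach p) M (pairStr (z, a)) t [] =
      some (pairStr (seqBits xs, seqBits ys)) ∧
    (seqBits xs).length ≤ s ∧ (seqBits ys).length ≤ s ∧ xs ≠ ys ∧
    p.par.g (z :: xs) = p.par.g (z :: ys)

/-- with some advice of length at most `α` collisions are found for more than `c` keys of length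
`n` -/
def BadK (Mach : ℕ → OProc) (M : OProc) (α t s n : ℕ) (c : ℝ) (p : Par Φ) : Prop :=
  ∃ a : Str, a.length ≤ α ∧ c < ((univ.filter fun z : IX n => KC Mach M t s p a z.1).card : ℝ)

theorem wKs_st0 {n N : ℕ} {K : Type} (key : IT n N → K) (B : ℝ) (S : Finset K) :
    wKs key B S (E0 : WC n N → Finset Str) = 1 := by
  unfold wKs
  refine prod_eq_one fun κ _ => ?_
  unfold wK
  rw [if_neg]
  rintro ⟨t, t', _, _, _, γ, h, _⟩
  have h1 : (E0 (cg t : WC n N)).card = 1 := by rw [h, card_singleton]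
  have h2 : (E0 (cg t : WC n N)).card = 2 ^ (maxlen t.1 + 1) := card_sF _
  rw [h2, pow_succ] at h1
  omega

/-- the output as a pair of sequences of the window with the key `κ` -/
noncomputable def outK (n N : ℕ) (κ : Str) (r : Option Str) : Option (IT n N × IT n N) :=
  if h : ∃ z : IT n N × IT n N, ∃ xs ys : List Str, r = some (pairStr (seqBits xs, seqBits ys)) ∧
    z.1.1 = κ :: xs ∧ z.2.1 = κ :: ys then some h.choose else none

theorem outK_eq {n N : ℕ} {κ : Str} {xs ys : List Str} (z1 z2 : IT n N) (h1 : z1.1 = κ :: xs)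
    (h2 : z2.1 = κ :: ys) :
    outK n N κ (some (pairStr (seqBits xs, seqBits ys))) = some (z1, z2) := by
  have h : ∃ z : IT n N × IT n N, ∃ xs' ys' : List Str,
      some (pairStr (seqBits xs, seqBits ys)) = some (pairStr (seqBits xs', seqBits ys')) ∧
      z.1.1 = κ :: xs' ∧ z.2.1 = κ :: ys' := ⟨(z1, z2), xs, ys, rfl, h1, h2⟩
  unfold outK
  rw [dif_pos h, Option.some.injEq]
  obtain ⟨xs', ys', h3, h4, h5⟩ := h.choose_spec
  rw [Option.some.injEq] at h3
  obtain ⟨h6, h7⟩ := pairStr_inj' h3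
  have h8 := seqBits_inj h6
  have h9 := seqBits_inj h7
  subst h8 h9
  exact Prod.ext (Subtype.ext (h4.trans h1.symm)) (Subtype.ext (h5.trans h2.symm))

theorem key_mem {n N s : ℕ} {κ : Str} (hκ : κ.length = n) (hs : 2 * n + s + 1 < N)
    {xs : List Str} (hx : (seqBits xs).length ≤ s) :
    n ≤ maxlen (κ :: xs) ∧ (seqBits (κ :: xs)).length < N := by
  constructor
  · have := le_maxlen (List.mem_cons_self (a := κ) (l := xs))
    omega
  · show (pairStr (κ, seqBits xs)).length < N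
    rw [pairStr_length']
    omega

/-- **A list of keys.** -/
theorem windowK_list (K : Cubes Φ) (Mach : ℕ → OProc) {p : Par Φ} (hp : p.WF) (M : OProc)
    {n N : ℕ} (hn : 1 ≤ n) (a : Str) (m t s : ℕ) (htN : t ≤ N) (hsN : 2 * n + s + 1 < N)
    {B : ℝ} (hB : 1 ≤ B) (hm : 1 ≤ m) (hBn : 2 * B * ((m : ℝ) * (t + 2)) ^ 2 ≤ 2 ^ n)
    (l : List (IX n)) (hl : l.Nodup) (hlm : l.length = m) :
    (((allW Φ n N).filter fun θ => ∀ z ∈ l, KC Mach M t s (par p θ) a z.1).card : ℝ) ≤
      ((allW Φ n N).card : ℝ) * ((1 / B) ^ m * 4) := by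
  set H : ℕ := 2 ^ n with hH
  set D : ℕ := m * (t + 2) with hD
  have hDpos : 1 ≤ D := by
    rw [hD]
    exact Nat.one_le_iff_ne_zero.2 (Nat.mul_ne_zero (by omega) (by omega))
  have hD1' : (1 : ℝ) ≤ D := by exact_mod_cast hDpos
  have hD0 : (0 : ℝ) < D := by linarith
  have hDc : (D : ℝ) = (m : ℝ) * (t + 2) := by rw [hD]; push_cast; ring
  have hHc : (H : ℝ) = 2 ^ n := by rw [hH]; push_cast; ring
  rw [← hDc, ← hHc] at hBn
  have hH2 : 2 * D ≤ H := by
    have h1 : (2 : ℝ) * D ≤ H := by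
      have h3 : (D : ℝ) ≤ B * D ^ 2 := by
        calc (D : ℝ) = 1 * (D * 1) := by ring
          _ ≤ B * (D * D) := mul_le_mul hB (mul_le_mul_of_nonneg_left hD1' hD0.le)
              (by positivity) (by linarith)
          _ = _ := by ring
      linarith
    exact_mod_cast h1
  set δ : ℝ := 1 / D with hδ
  have hδ0 : 0 ≤ δ := by positivity
  have hD1 : ∀ a : ℕ, H ≤ a + D → 1 ≤ δ * a := by
    intro a ha
    rw [hδ, div_mul_eq_mul_div, one_mul, le_div_iff₀ hD0, one_mul]
    have : D ≤ a := by omega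
    exact_mod_cast this
  have hBD : 2 * B * D ≤ δ * H := by
    rw [hδ, div_mul_eq_mul_div, one_mul, le_div_iff₀ hD0]
    calc 2 * B * D * D = 2 * B * D ^ 2 := by ring
      _ ≤ H := hBn
  have hpow : (1 + δ) ^ D ≤ 4 := by
    refine one_add_pow_le hδ0 (le_of_eq ?_)
    rw [hδ, div_mul_cancel₀ _ hD0.ne']
  have hok : (agW K Mach p n N).OK E0 H := agW_ok K Mach hp hn
  choose tr htr hev using fun κ : Str => exists_runS (n := n) K Mach hp M (pairStr (κ, a)) htN
  set S : Finset Str := (l.map Subtype.val).toFinset with hS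
  have hSc : S.card = m := by
    rw [hS, List.toFinset_card_of_nodup (hl.map Subtype.val_injective), List.length_map, hlm]
  have hSm : ∀ κ ∈ S, ∃ z ∈ l, z.1 = κ := by
    intro κ hκ
    rw [hS, List.mem_toFinset, List.mem_map] at hκ
    exact hκ
  have h1 := coll_list_bound hok hδ0 hD1 hB (by omega) hBD (res_agW K Mach hp)
    (fun T : IT n N => T.1.headD []) tr (outK n N) S (fun κ _ => htr κ)
    (valid2_st0 K hok) (by rw [cr_st0, hSc]; omega)
    ((allW Φ n N).filter fun θ => ∀ z ∈ l, KC Mach M t s (par p θ) a z.1) (fun θ hθ => by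
      obtain ⟨h2, h3⟩ := mem_filter.1 hθ
      obtain ⟨h9, h10⟩ := (VV_allW K (Mach := Mach) (p := p)).1 h2
      refine ⟨inW_st0 K h2, fun κ hκ => ?_⟩
      obtain ⟨z, hz, rfl⟩ := hSm κ hκ
      obtain ⟨xs, ys, h4, h5, h6, h7, h8⟩ := h3 z hz
      have hx := key_mem z.2 hsN h5
      have hy := key_mem z.2 hsN h6
      refine ⟨⟨z.1 :: xs, hx⟩, ⟨z.1 :: ys, hy⟩, ?_, fun h => h7 ?_, rfl, rfl, ?_⟩
      · rw [hev z.1 θ h9 h10, h4]
        exact outK_eq (⟨z.1 :: xs, hx⟩ : IT n N) ⟨z.1 :: ys, hy⟩ rfl rfl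
      · have h11 := congrArg Subtype.val h
        simp only [List.cons.injEq, true_and] at h11
        exact h11
      · rw [← par_g (p := p.par) (η := θ.1) (π := θ.2.1) (⟨z.1 :: xs, hx⟩ : IT n N),
          ← par_g (p := p.par) (η := θ.1) (π := θ.2.1) (⟨z.1 :: ys, hy⟩ : IT n N)]
        exact h8)
  rw [cr_st0, pow_zero, mul_one, hSc] at h1
  have h2 : phiW (agW K Mach p n N) (wKs (fun T : IT n N => T.1.headD []) B S) (st0 Φ n N) =
      phi (agW K Mach p n N) [] (st0 Φ n N) := by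
    unfold phiW phi
    show mass E0 ∅ * wKs _ B S E0 * _ = mass E0 ∅ * pot E0 [] * _
    rw [wKs_st0]
    simp only [pot, List.map_nil, List.prod_nil]
  rw [h2] at h1
  have h3 : (0 : ℝ) ≤ 2 ^ Fintype.card (IP n N) * phi (agW K Mach p n N) [] (st0 Φ n N) :=
    mul_nonneg (by positivity) (phi_nonneg _ _ _)
  have h4 : (((allW Φ n N).filter fun θ => ∀ z ∈ l, KC Mach M t s (par p θ) a z.1).card : ℝ) *
      B ^ m ≤ 4 * ((allW Φ n N).card : ℝ) := by
    rw [card_allW K Mach p n N]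
    refine h1.trans ?_
    calc (2 : ℝ) ^ Fintype.card (IP n N) * ((1 + δ) ^ D *
          phi (agW K Mach p n N) [] (st0 Φ n N))
        = (1 + δ) ^ D * (2 ^ Fintype.card (IP n N) *
          phi (agW K Mach p n N) [] (st0 Φ n N)) := by ring
      _ ≤ _ := mul_le_mul_of_nonneg_right hpow h3
  have hBm : (0 : ℝ) < B ^ m := pow_pos (by linarith) m
  rw [one_div, inv_pow, ← mul_assoc, mul_comm _ (B ^ m)⁻¹, mul_assoc, mul_comm _ (4 : ℝ),
    inv_mul_eq_div, le_div_iff₀ hBm]
  exact h4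

/-- **The keyed collision bound of one window.** -/
theorem windowK_bound (K : Cubes Φ) (Mach : ℕ → OProc) {p : Par Φ} (hp : p.WF) (M : OProc)
    {n N : ℕ} (hn : 1 ≤ n) (α t s m : ℕ) (htN : t ≤ N) (hsN : 2 * n + s + 1 < N)
    {B : ℝ} (hB : 1 ≤ B) (hm : 1 ≤ m) (hmB : (m : ℝ) * B ≤ 2 ^ n)
    (hBn : 2 * B * ((m : ℝ) * (t + 2)) ^ 2 ≤ 2 ^ n) {c : ℝ} (hc : 3 * 2 ^ n / B ≤ c) :
    (((allW Φ n N).filter fun θ => BadK Mach M α t s n c (par p θ)).card : ℝ) * 2 ^ m ≤
      ((allW Φ n N).card : ℝ) * 2 ^ (α + 3) := by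
  have hB0 : (0 : ℝ) < B := by linarith
  set W := allW Φ n N with hW
  let R : Str → WW Φ n N → IX n → Prop := fun a θ z => KC Mach M t s (par p θ) a z.1
  let F : Str → Finset (WW Φ n N) := fun a => W.filter fun θ =>
    3 * (1 / B) * Fintype.card (IX n) < ((univ.filter fun z => R a θ z).card : ℝ)
  have hF : ∀ a, ((F a).card : ℝ) * 2 ^ m ≤ (W.card : ℝ) * 4 := by
    intro a
    refine avg_bound_q W (R a) m (1 / B) (by positivity) ?_ 4 (by norm_num)
      fun l hl hlm => by
        have h5 := windowK_list K Mach hp M hn a m t s htN hsN hB hm hBn l hl hlm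
        convert h5
    rw [card_IX, one_div, inv_mul_eq_div, le_div_iff₀ hB0]
    push_cast
    exact hmB
  have hcov : (W.filter fun θ => BadK Mach M α t s n c (par p θ)) ⊆ (advF α).biUnion F := by
    intro θ hθ
    obtain ⟨h4, a, ha, h5⟩ := mem_filter.1 hθ
    refine mem_biUnion.2 ⟨a, mem_advF.2 ha, mem_filter.2 ⟨h4, ?_⟩⟩
    refine lt_of_le_of_lt ?_ h5
    refine le_trans (le_of_eq ?_) hc
    rw [card_IX]
    push_cast
    ring
  have h6 : ((W.filter fun θ => BadK Mach M α t s n c (par p θ)).card : ℝ) ≤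
      ∑ a ∈ advF α, ((F a).card : ℝ) := by
    exact_mod_cast (card_le_card hcov).trans card_biUnion_le
  calc ((W.filter fun θ => BadK Mach M α t s n c (par p θ)).card : ℝ) * 2 ^ m
      ≤ (∑ a ∈ advF α, ((F a).card : ℝ)) * 2 ^ m :=
        mul_le_mul_of_nonneg_right h6 (by positivity)
    _ = ∑ a ∈ advF α, ((F a).card : ℝ) * 2 ^ m := by rw [sum_mul]
    _ ≤ ∑ _a ∈ advF α, (W.card : ℝ) * 4 := sum_le_sum fun a _ => hF a
    _ = ((advF α).card : ℝ) * ((W.card : ℝ) * 4) := by rw [sum_const, nsmul_eq_mul]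
    _ ≤ 2 ^ (α + 1) * ((W.card : ℝ) * 4) := by
        refine mul_le_mul_of_nonneg_right ?_ (by positivity)
        exact_mod_cast card_advF α
    _ = (W.card : ℝ) * 2 ^ (α + 3) := by
        rw [pow_add (2 : ℝ) α 1, pow_add (2 : ℝ) α 3]
        ring

/-- the keyed collisions depend on finitely many coordinates only -/
theorem badK_local (Mach : ℕ → OProc) (M : OProc) {α t s n N : ℕ} {c : ℝ} (htN : t ≤ N)
    (hsN : 2 * n + s + 1 < N) {p p' : Par Φ} (hp : p.WF) (hp' : p'.WF) (h : AgrF p p' N)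
    (hb : BadK Mach M α t s n c p) : BadK Mach M α t s n c p' := by
  obtain ⟨a, ha, h1⟩ := hb
  refine ⟨a, ha, h1.trans_le (le_of_eq ?_)⟩
  congr 2
  ext z
  simp only [mem_filter, mem_univ, true_and]
  unfold KC
  refine exists_congr fun xs => exists_congr fun ys => ?_
  rw [simS_congr M (pairStr (z.1, a)) t [] fun q hq => aorc_localF hp hp' h
    (show q.length ≤ N by omega)]
  refine and_congr_right fun _ => and_congr_right fun hx => and_congr_right fun hy =>
    and_congr_right fun _ => ?_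
  rw [h.g (z.1 :: xs) (key_mem z.2 hsN hx).2, h.g (z.1 :: ys) (key_mem z.2 hsN hy).2]

/-- the meaning of the keyed bound for the runs -/
theorem ncard_le_of_not_badK {Mach : ℕ → OProc} {M : OProc} {α t s n : ℕ} {c : ℝ} {p : Par Φ}
    (h : ¬ BadK Mach M α t s n c p) {a : Str} (ha : a.length ≤ α) :
    ({z : Str | z.length = n ∧ ∃ xs ys : List Str,
      RunsOut (aorc Mach p) M (pairStr (z, a)) t (pairStr (seqBits xs, seqBits ys)) ∧
      (seqBits xs).length ≤ s ∧ (seqBits ys).length ≤ s ∧ xs ≠ ys ∧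
      OAlg.dist Mach p (z :: xs) = OAlg.dist Mach p (z :: ys)}.ncard : ℝ) ≤ c := by
  have h1 : ¬ (c < ((univ.filter fun z : IX n => KC Mach M t s p a z.1).card : ℝ)) :=
    fun h2 => h ⟨a, ha, h2⟩
  refine le_trans ?_ (not_lt.1 h1)
  have h2 : {z : Str | z.length = n ∧ ∃ xs ys : List Str,
      RunsOut (aorc Mach p) M (pairStr (z, a)) t (pairStr (seqBits xs, seqBits ys)) ∧
      (seqBits xs).length ≤ s ∧ (seqBits ys).length ≤ s ∧ xs ≠ ys ∧
      OAlg.dist Mach p (z :: xs) = OAlg.dist Mach p (z :: ys)} ⊆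
      (((univ.filter fun z : IX n => KC Mach M t s p a z.1).image
        fun z : IX n => z.1 : Finset Str) : Set Str) := by
    rintro z ⟨hz, xs, ys, h3, h4, h5, h6, h7⟩
    rw [coe_image, Set.mem_image]
    refine ⟨⟨z, hz⟩, ?_, rfl⟩
    rw [mem_coe, mem_filter]
    refine ⟨mem_univ _, xs, ys, simS_of_runsOut h3, h4, h5, h6, ?_⟩
    unfold OAlg.dist nm at h7
    rw [List.cons.injEq, List.cons.injEq] at h7
    exact h7.2.2
  have h3 := Set.ncard_le_ncard h2 (finite_toSet _)
  rw [Set.ncard_coe_finset] at h3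
  exact_mod_cast h3.trans card_image_le

end OAlg
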