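import Pool.Agent.Work.MP_609cce_lc_alg.Final
import Pool.Agent.Work.MP_609cce_lc_alg2.AEps
import Pool.Agent.Work.MP_609cce_lc_alg2.Poly7
import Pool.Agent.Work.MP_609cce_lc_alg2.SK
import Pool.Agent.Work.MP_609cce_lc_alg2.Num

/-!
# The distillation relative to an oracle with extensions: second version
-/

namespace OAlg

open ORDist hiding stepA stepR stepA_congr stepR_congr orc lang
open PTime
open Finset
open Classical

variable {Φ : Fields}

/-- the size of the window -/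
def NN (n : ℕ) : ℕ := uu n + 2 * n + 10

/-- what may go wrong for one procedure and one length -/
def Bad1 (Mach : ℕ → OProc) (M : OProc) (n : ℕ) (p : Par Φ) : Prop :=
  BadD Mach M (uu n) (uu n) (uu n) n p ∨ BadC Mach M (uu n) (uu n) n p ∨
    BadK Mach M (uu n) (uu n) (uu n) n (2 ^ n / 2 ^ (n / 7)) p

theorem bad1_local (Mach : ℕ → OProc) (M : OProc) (n : ℕ) (p p' : Par Φ) (hp : p.WF)
    (hp' : p'.WF) (h : AgrF p p' (NN n)) (hb : Bad1 Mach M n p) : Bad1 Mach M n p' := by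
  rcases hb with hb | hb | hb
  · exact Or.inl (badD_local Mach M (show uu n ≤ NN n by unfold NN; omega)
      (show n < NN n by unfold NN; omega) hp hp' h hb)
  · exact Or.inr (Or.inl (badC_local Mach M (show uu n ≤ NN n by unfold NN; omega)
      (show uu n < NN n by unfold NN; omega) hp hp' h hb))
  · exact Or.inr (Or.inr (badK_local Mach M (show uu n ≤ NN n by unfold NN; omega)
      (show 2 * n + uu n + 1 < NN n by unfold NN; omega) hp hp' h hb))

/-- some string is decided wrongly -/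
theorem exists_ne_of_not_badD {Mach : ℕ → OProc} {M : OProc} {α t τ n : ℕ} {p : Par Φ}
    (hτ : 3 ≤ τ) (h : ¬ BadD Mach M α t τ n p) {a : Str} (ha : a.length ≤ α) :
    ∃ x : Str, x.length = n ∧ sim (aorc Mach p) M (pairStr (x, a)) t [] ≠
      (p.par.base x).headD false := by
  by_contra hcon
  push Not at hcon
  refine h ⟨a, ha, ?_⟩
  have h1 : (univ.filter fun x : OEth.IX n => sim (aorc Mach p) M (pairStr (x.1, a)) t [] =
      (p.par.base x.1).headD false) = univ :=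
    filter_true_of_mem fun x _ => hcon x.1 x.2
  rw [h1, card_univ, card_IX, Nat.cast_pow, Nat.cast_ofNat]
  have h2 : (0 : ℝ) < 2 ^ n := by positivity
  have h3 : (1 : ℝ) / τ ≤ 1 / 3 :=
    one_div_le_one_div_of_le (by norm_num) (by exact_mod_cast hτ)
  nlinarith

/-- the bound of one procedure and one length -/
theorem bad1_bound (K : Cubes Φ) (Mach : ℕ → OProc) (M : OProc) {n : ℕ} (hN : n1 ≤ n)
    {p : Par Φ} (hp : p.WF) : ((n : ℝ) + 1) *
      (((allW Φ n (NN n)).filter fun θ => Bad1 Mach M n (par p θ)).card : ℝ) ≤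
        epsn n * ((allW Φ n (NN n)).card : ℝ) := by
  set W := allW Φ n (NN n) with hW
  set u := uu n with hu
  set r := rr n with hr
  have hu1 : 1 ≤ u := uu_pos n
  have hn70 : 70 ≤ n := hN
  have hn1 : 1 ≤ n := le_trans (by norm_num) hn70
  have hr1 : 1 ≤ r := by rw [hr]; unfold rr; omega
  have hbb : ((bb n : ℕ) : ℝ) = 2 ^ (n / 4) := by unfold bb; push_cast; rfl
  have h1 := window_bound K Mach hp M hn1 u u u r (show u ≤ NN n by unfold NN; omega) hu1
    (num_a n hN) (num_b n hN) (num_c n hN)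
  have h2 := windowC_bound K Mach hp M hn1 u u (show u ≤ NN n by unfold NN; omega)
    (show u < NN n by unfold NN; omega) (B := 2 ^ (n / 3)) (one_le_pow₀ (by norm_num)) (by
      exact_mod_cast num_d n hN)
  have h3 := windowK_bound K Mach hp M hn1 u u u r (show u ≤ NN n by unfold NN; omega)
    (show 2 * n + u + 1 < NN n by unfold NN; omega) (B := 2 ^ (n / 4))
    (one_le_pow₀ (by norm_num)) hr1 (by
      rw [← hbb]
      exact_mod_cast num_e3 n hN) (by
      rw [← hbb]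
      exact_mod_cast num_e2 n hN) (num_h1 n hN)
  rw [← hW] at h1 h2 h3
  have h4 : (W.filter fun θ => Bad1 Mach M n (par p θ)) ⊆
      (W.filter fun θ => BadD Mach M u u u n (par p θ)) ∪
      ((W.filter fun θ => BadC Mach M u u n (par p θ)) ∪
      (W.filter fun θ => BadK Mach M u u u n (2 ^ n / 2 ^ (n / 7)) (par p θ))) := by
    intro θ hθ
    obtain ⟨h5, h6⟩ := mem_filter.1 hθ
    rw [mem_union, mem_union, mem_filter, mem_filter, mem_filter]
    rcases h6 with h6 | h6 | h6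
    · exact Or.inl ⟨h5, h6⟩
    · exact Or.inr (Or.inl ⟨h5, h6⟩)
    · exact Or.inr (Or.inr ⟨h5, h6⟩)
  have h5 : ((W.filter fun θ => Bad1 Mach M n (par p θ)).card : ℝ) ≤
      ((W.filter fun θ => BadD Mach M u u u n (par p θ)).card : ℝ) +
      (((W.filter fun θ => BadC Mach M u u n (par p θ)).card : ℝ) +
      ((W.filter fun θ => BadK Mach M u u u n (2 ^ n / 2 ^ (n / 7)) (par p θ)).card : ℝ)) := by
    have h6 := (card_le_card h4).trans (card_union_le _ _)
    have h7 := h6.trans (Nat.add_le_add_left (card_union_le _ _) _)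
    exact_mod_cast h7
  have hr0 : (0 : ℝ) < 2 ^ r := by positivity
  have hB0 : (0 : ℝ) < 2 ^ (n / 3) := by positivity
  have h6 : ((W.filter fun θ => BadD Mach M u u u n (par p θ)).card : ℝ) ≤
      (2 ^ (u + 3) / 2 ^ r) * W.card := by
    rw [div_mul_eq_mul_div, le_div_iff₀ hr0, mul_comm (_ ^ _ : ℝ) (W.card : ℝ)]
    exact h1
  have h7 : ((W.filter fun θ => BadC Mach M u u n (par p θ)).card : ℝ) ≤
      (4 / 2 ^ (n / 3)) * W.card := by
    rw [div_mul_eq_mul_div, le_div_iff₀ hB0]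
    exact h2
  have h8 : ((W.filter fun θ =>
      BadK Mach M u u u n (2 ^ n / 2 ^ (n / 7)) (par p θ)).card : ℝ) ≤
      (2 ^ (u + 3) / 2 ^ r) * W.card := by
    rw [div_mul_eq_mul_div, le_div_iff₀ hr0, mul_comm (_ ^ _ : ℝ) (W.card : ℝ)]
    exact h3
  have hn2 : (0 : ℝ) ≤ (n : ℝ) + 1 := by positivity
  have hW0 : (0 : ℝ) ≤ W.card := Nat.cast_nonneg _
  calc ((n : ℝ) + 1) * ((W.filter fun θ => Bad1 Mach M n (par p θ)).card : ℝ)
      ≤ ((n : ℝ) + 1) * ((2 ^ (u + 3) / 2 ^ r) * W.card + ((4 / 2 ^ (n / 3)) * W.card +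
        (2 ^ (u + 3) / 2 ^ r) * W.card)) :=
        mul_le_mul_of_nonneg_left (h5.trans (add_le_add h6 (add_le_add h7 h8))) hn2
    _ = ((n : ℝ) + 1) * (2 ^ (u + 3) / 2 ^ r + 4 / 2 ^ (n / 3) + 2 ^ (u + 3) / 2 ^ r) *
        W.card := by ring
    _ ≤ _ := mul_le_mul_of_nonneg_right (num_f' n hN) hW0

/-- **Main theorem, second version.** -/
theorem alg_main2 (Φ : Fields) : ∃ (A : Str → Bool) (f : ExtF Φ), IsExt Φ A f ∧
    (∃ L : Set Str, InUPO A L ∧ InUPO A Lᶜ ∧ ¬ InPPolyO (extO Φ A f) L ∧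
      ∀ M : OProc, Computable M → ∃ n₀ : ℕ, ∀ n ≥ n₀, ∀ a : Str, a.length ≤ 2 ^ (n / 7) →
        ({x : Str | x.length = n ∧ ∃ v : Bool,
          RunsTo (extO Φ A f) M (pairStr (x, a)) (2 ^ (n / 7)) v ∧
            (x ∈ L ↔ v = true)}.ncard : ℝ) ≤ (1 / 2 + 1 / 2 ^ (n / 7)) * 2 ^ n) ∧
    ∃ R : Set Str, InNPO A R ∧
      (∀ L, InNPO (extO Φ A f) L → ∃ g : Str → Str, PolyTime (fun x => x) (fun x => x) g ∧
        ∀ x, x ∈ L ↔ g x ∈ R) ∧
      ∃ D : List Str → Str, PolyTimeO A seqBits D ∧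
        (∀ (n : ℕ) (xs : List Str), (∀ x ∈ xs, x.length ≤ n) → (D xs).length ≤ n + 3) ∧
        (∀ xs, D xs ∈ R ↔ ∃ x ∈ xs, x ∈ R) ∧
        (∀ M : OProc, Computable M → ∃ n₀ : ℕ, ∀ n ≥ n₀, ∀ xs ys : List Str,
          RunsOut (extO Φ A f) M (List.replicate n true) (2 ^ (n / 7))
            (pairStr (seqBits xs, seqBits ys)) →
          (seqBits xs).length ≤ 2 ^ (n / 7) → (seqBits ys).length ≤ 2 ^ (n / 7) →
          (∃ x ∈ xs, n ≤ x.length) → xs ≠ ys → D xs ≠ D ys) ∧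
        ∀ M : OProc, Computable M → ∃ n₀ : ℕ, ∀ n ≥ n₀, ∀ a : Str, a.length ≤ 2 ^ (n / 7) →
          ({z : Str | z.length = n ∧ ∃ xs ys : List Str,
            RunsOut (extO Φ A f) M (pairStr (z, a)) (2 ^ (n / 7))
              (pairStr (seqBits xs, seqBits ys)) ∧
            (seqBits xs).length ≤ 2 ^ (n / 7) ∧ (seqBits ys).length ≤ 2 ^ (n / 7) ∧
            xs ≠ ys ∧ D (z :: xs) = D (z :: ys)}.ncard : ℝ) ≤ 2 ^ n / 2 ^ (n / 7) := by
  obtain ⟨K⟩ := exists_cubes Φ
  obtain ⟨Mach, hMach⟩ := exists_enum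
  obtain ⟨p, hp, hgood⟩ := exists_good_gen (Φ := Φ)
    (MM := {M : OProc | PT M} ∪ {M : OProc | Computable M})
    ((countable_PT (α := Str × Str) (β := Bool × Str)).union OEth.countable_computable)
    (Bad1 Mach) NN n1 (fun n => by unfold NN; omega)
    (fun M n p p' hp hp' h hb => bad1_local Mach M n p p' hp hp' h hb)
    epsn num_g (fun M n hn p hp => bad1_bound K Mach M hn hp)
  refine ⟨orc Mach p, fx p (orc Mach p), KB.isExt_of_van _ hp.van,
    ⟨test p, test_inUPO hp, test_compl_inUPO hp, ?_, fun M hM => ?_⟩,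
    {x | lang Mach p x = true}, lang_inNPO hp, fun L hL => hard hMach hp hL,
    dist Mach p, dist_polyTime hp, fun n xs h => ?_, fun xs => dist_correct xs,
    fun M hM => ?_, fun M hM => ?_⟩
  · refine test_not_inPPolyO7 (base := p.par.base) fun M hM n₀ => ?_
    obtain ⟨n2, hn2⟩ := hgood M (Or.inl hM)
    refine ⟨max n₀ (max n1 n2), le_max_left _ _, fun a ha => ?_⟩
    set n := max n₀ (max n1 n2) with hn
    have h1 : n1 ≤ n := le_trans (le_max_left _ _) (le_max_right _ _)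
    have h2 : n2 ≤ n := le_trans (le_max_right _ _) (le_max_right _ _)
    have h3 : ¬ BadD Mach M (uu n) (uu n) (uu n) n p := fun h => hn2 n h2 (Or.inl h)
    have h4 : 3 ≤ uu n := by
      have h5 : 2 ≤ n / 7 := by have h6 : 70 ≤ n := h1; omega
      calc 3 ≤ 2 ^ 2 := by norm_num
        _ ≤ 2 ^ (n / 7) := Nat.pow_le_pow_right (by norm_num) h5
    exact exists_ne_of_not_badD h4 h3 ha
  · obtain ⟨n2, hn2⟩ := hgood M (Or.inr hM)
    refine ⟨n2, fun n hn a ha => ?_⟩
    have h3 : ¬ BadD Mach M (uu n) (uu n) (uu n) n p := fun h => hn2 n hn (Or.inl h)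
    have h4 := ncard_le_of_not_badD h3 ha
    have h5 : ((uu n : ℕ) : ℝ) = 2 ^ (n / 7) := by unfold uu; push_cast; rfl
    rw [h5] at h4
    exact h4
  · rw [dist_length hp]
    have := maxlen_le h
    omega
  · obtain ⟨n2, hn2⟩ := hgood M (Or.inr hM)
    refine ⟨n2, fun n hn xs ys hr hx hy hne1 hne2 => ?_⟩
    have h3 : ¬ BadC Mach M (uu n) (uu n) n p := fun h => hn2 n hn (Or.inr (Or.inl h))
    exact dist_ne_of_not_badC h3 hr hx hy hne1 hne2
  · obtain ⟨n2, hn2⟩ := hgood M (Or.inr hM)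
    refine ⟨n2, fun n hn a ha => ?_⟩
    have h3 : ¬ BadK Mach M (uu n) (uu n) (uu n) n (2 ^ n / 2 ^ (n / 7)) p :=
      fun h => hn2 n hn (Or.inr (Or.inr h))
    exact ncard_le_of_not_badK h3 ha

end OAlg
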