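import Pool.Agent.Work.MP_609cce_lc_alg2.Main2

/-!
# The distillation relative to an oracle with extensions: third version
-/

namespace OAlg

open ORDist hiding stepA stepR stepA_congr stepR_congr orc lang
open PTime
open Finset
open Classical

variable {Φ : Fields}

/-- **Main theorem, third version:** the complete language is in UP and coUP and it is also hard
for PSPACE. -/
theorem alg_main3 (Φ : Fields) : ∃ (A : Str → Bool) (f : ExtF Φ), IsExt Φ A f ∧
    (∃ L : Set Str, InUPO A L ∧ InUPO A Lᶜ ∧ ¬ InPPolyO (extO Φ A f) L ∧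
      ∀ M : OProc, Computable M → ∃ n₀ : ℕ, ∀ n ≥ n₀, ∀ a : Str, a.length ≤ 2 ^ (n / 7) →
        ({x : Str | x.length = n ∧ ∃ v : Bool,
          RunsTo (extO Φ A f) M (pairStr (x, a)) (2 ^ (n / 7)) v ∧
            (x ∈ L ↔ v = true)}.ncard : ℝ) ≤ (1 / 2 + 1 / 2 ^ (n / 7)) * 2 ^ n) ∧
    ∃ R : Set Str, (InUPO A R ∧ InUPO A Rᶜ) ∧
      (∀ L, InPSPACEO (extO Φ A f) L ∨ InNPO (extO Φ A f) L → ∃ g : Str → Str,
        PolyTime (fun x => x) (fun x => x) g ∧ ∀ x, x ∈ L ↔ g x ∈ R) ∧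
      ∃ D : List Str → Str, PolyTimeO A seqBits D ∧
        (∀ (n : ℕ) (xs : List Str), (∀ x ∈ xs, x.length ≤ n) → (D xs).length ≤ n + 3) ∧
        (∀ xs, D xs ∈ R ↔ ∃ x ∈ xs, x ∈ R) ∧
        (∀ M : OProc, Computable M → ∃ n₀ : ℕ, ∀ n ≥ n₀, ∀ xs ys : List Str,
          RunsOut (extO Φ A f) M (List.replicate n true) (2 ^ (n / 7))
            (pairStr (seqBits xs, seqBits ys)) →
          (seqBits xs).length ≤ 2 ^ (n / 7) → (seqBits ys).length ≤ 2 ^ (n / 7) →
          (∃ x ∈ xs, n ≤ x.length) → xs ≠ ys → D xs ≠ D ys) ∧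
        ∀ M : OProc, Computable M → ∃ n₀ : ℕ, ∀ n ≥ n₀, ∀ a : Str, a.length ≤ 2 ^ (n / 7) →
          ({z : Str | z.length = n ∧ ∃ xs ys : List Str,
            RunsOut (extO Φ A f) M (pairStr (z, a)) (2 ^ (n / 7))
              (pairStr (seqBits xs, seqBits ys)) ∧
            (seqBits xs).length ≤ 2 ^ (n / 7) ∧ (seqBits ys).length ≤ 2 ^ (n / 7) ∧
            xs ≠ ys ∧ D (z :: xs) = D (z :: ys)}.ncard : ℝ) ≤ 2 ^ n / 2 ^ (n / 7) := by
  obtain ⟨K⟩ := exists_cubes Φ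
  obtain ⟨Mach, hMach⟩ := exists_enum
  obtain ⟨p, hp, hgood⟩ := exists_good_gen (Φ := Φ)
    (MM := {M : OProc | PT M} ∪ {M : OProc | Computable M})
    ((countable_PT (α := Str × Str) (β := Bool × Str)).union OEth.countable_computable)
    (Bad1 Mach) NN n1 (fun n => by unfold NN; omega)
    (fun M n p p' hp hp' h hb => bad1_local Mach M n p p' hp hp' h hb)
    epsn num_g (fun M n hn p hp => bad1_bound K Mach M hn hp)
  refine ⟨orc Mach p, fx p (orc Mach p), KB.isExt_of_van _ hp.van,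
    ⟨test p, test_inUPO hp, test_compl_inUPO hp, ?_, fun M hM => ?_⟩,
    {x | lang Mach p x = true}, ⟨lang_inUPO hp, lang_compl_inUPO hp⟩,
    fun L hL => hardP hMach hL,
    dist Mach p, dist_polyTime hp, fun n xs h => ?_, fun xs => dist_correct xs,
    fun M hM => ?_, fun M hM => ?_⟩
  · refine test_not_inPPolyO7 (base := p.par.base) fun M hM n₀ => ?_
    obtain ⟨n2, hn2⟩ := hgood M (Or.inl hM)
    refine ⟨max n₀ (max n1 n2), le_max_left _ _, fun a ha => ?_⟩
    set n := max n₀ (max n1 n2) with hn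
    have h1 : n1 ≤ n := le_trans (le_max_left _ _) (le_max_right _ _)
    have h2 : n2 ≤ n := le_trans (le_max_right _ _) (le_max_right _ _)
    have h3 : ¬ BadD Mach M (uu n) (uu n) (uu n) n p := fun h => hn2 n h2 (Or.inl h)
    have h4 : 3 ≤ uu n := by
      have h5 : 2 ≤ n / 7 := by have h6 : 70 ≤ n := h1; omega
      calc 3 ≤ 2 ^ 2 := by norm_num
        _ ≤ 2 ^ (n / 7) := Nat.pow_le_pow_right (by norm_num) h5
    exact exists_ne_of_not_badD h4 h3 ha
  · obtain ⟨n2, hn2⟩ := hgood M (Or.inr hM)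
    refine ⟨n2, fun n hn a ha => ?_⟩
    have h3 : ¬ BadD Mach M (uu n) (uu n) (uu n) n p := fun h => hn2 n hn (Or.inl h)
    have h4 := ncard_le_of_not_badD h3 ha
    have h5 : ((uu n : ℕ) : ℝ) = 2 ^ (n / 7) := by unfold uu; push_cast; rfl
    rw [h5] at h4
    exact h4
  · rw [dist_length hp]
    have := maxlen_le h
    omega
  · obtain ⟨n2, hn2⟩ := hgood M (Or.inr hM)
    refine ⟨n2, fun n hn xs ys hr hx hy hne1 hne2 => ?_⟩
    have h3 : ¬ BadC Mach M (uu n) (uu n) n p := fun h => hn2 n hn (Or.inr (Or.inl h))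
    exact dist_ne_of_not_badC h3 hr hx hy hne1 hne2
  · obtain ⟨n2, hn2⟩ := hgood M (Or.inr hM)
    refine ⟨n2, fun n hn a ha => ?_⟩
    have h3 : ¬ BadK Mach M (uu n) (uu n) (uu n) n (2 ^ n / 2 ^ (n / 7)) p :=
      fun h => hn2 n hn (Or.inr (Or.inr h))
    exact ncard_le_of_not_badK h3 ha

end OAlg
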