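import Pool.Agent.Work.MP_609cce_lc_alg2.Defs2
import Pool.Agent.Work.MP_609cce_lc_eth.EMain

/-!
# Plan of the second version (statements only, with sorry; imported by nothing)
-/

namespace OAlgPlan2

open ORDist hiding stepA stepR stepA_congr stepR_congr orc lang
open OEth hiding orc lang par par_wf par_agr
open Orc Finset OAlg
open Classical

variable {Φ : Fields} {Mach : ℕ → OProc}

/-! ### F, LocF.lean: locality in finitely many coordinates. Only the case of `hashQ j T` is new: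
`|hashQ j T| = j + |seqBits T| + 3`. -/

theorem aorc_localF {p p' : OAlg.Par Φ} (hp : p.WF) (hp' : p'.WF) {n : ℕ} (h : AgrF p p' n)
    {q : Str} (hq : q.length ≤ n) : aorc Mach p q = aorc Mach p' q := sorry

theorem lang_localF {p p' : OAlg.Par Φ} (hp : p.WF) (hp' : p'.WF) {n : ℕ} (h : AgrF p p' n)
    {q : Str} (hq : q.length ≤ n) : OAlg.lang Mach p q = OAlg.lang Mach p' q := sorry

theorem dist_localF {p p' : OAlg.Par Φ} (hp : p.WF) (hp' : p'.WF) {n : ℕ} (h : AgrF p p' n)
    {T : List Str} (hT : (seqBits T).length + 1 < n) : OAlg.dist Mach p T = OAlg.dist Mach p' T := sorry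

/-! ### AE, AE.lean: from one window to almost all lengths. (1) For `M0` the set of all well-formed
parameters which agree with a fixed `p0` outside the coordinates of size less than `b` is finite;
for each `n` it is partitioned into classes `{par p θ : θ ∈ allW Φ n (Nn n)}`, so the bad fraction
at `n` is at most `2^(-(n+2))`, and a union bound gives `p` which is good for all `n0 ≤ n < M0`.
(2) ultrafilter limit over `M0`: every coordinate has finitely many values. -/

theorem exists_ae (Bad : ℕ → OAlg.Par Φ → Prop) (Nn : ℕ → ℕ) (n0 : ℕ)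
    (hN : ∀ n, n < Nn n)
    (hloc : ∀ (n : ℕ) (p p' : OAlg.Par Φ), p.WF → p'.WF → AgrF p p' (Nn n) → Bad n p → Bad n p')
    (hbnd : ∀ n ≥ n0, ∀ p : OAlg.Par Φ, p.WF →
      (((allW Φ n (Nn n)).filter fun θ => Bad n (OAlg.par p θ)).card : ℝ) * 2 ^ (n + 2) ≤
        ((allW Φ n (Nn n)).card : ℝ)) :
    ∃ p : OAlg.Par Φ, p.WF ∧ ∀ n ≥ n0, ¬ Bad n p := sorry

/-! ### AV, Avg.lean: from lists of inputs to fractions of inputs (double counting of the
`m`-element subsets) -/

theorem avg_bound {Ω X : Type} [Fintype X] (W : Finset Ω) (R : Ω → X → Prop) (m τ : ℕ)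
    (hτ : 1 ≤ τ) (hm : 2 * τ * m ≤ Fintype.card X) (c : ℝ) (hc : 0 ≤ c)
    (h : ∀ l : List X, l.Nodup → l.length = m →
      ((W.filter fun θ => ∀ x ∈ l, R θ x).card : ℝ) ≤ (W.card : ℝ) * ((1 / 2) ^ m * c)) :
    ((W.filter fun θ => (1 / 2 + 1 / (τ : ℝ)) * Fintype.card X <
      ((univ.filter fun x => R θ x).card : ℝ)).card : ℝ) * (1 + 1 / (τ : ℝ)) ^ m ≤
      (W.card : ℝ) * c := sorry

/-! ### RS, RunS.lean: the string-valued trees. `ATreeR R Q C U M`, `BdR` will be in Game2.lean: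
same as ATree, Bd with leaves in `R`. Needed: for `M`, `inp`, `t ≤ N` a tree with value
`simS (aorc Mach (par p θ)) M inp t []`, cost `t`, level `N`. -/

theorem simS_of_runsOut {A : Str → Bool} {M : OProc} {x y : Str} {t : ℕ}
    (h : RunsOut A M x t y) : simS A M x t [] = some y := sorry

theorem simS_congr {A A' : Str → Bool} (M : OProc) (inp : Str) : ∀ (t : ℕ) (a : Str),
    (∀ q : Str, q.length < t → A q = A' q) → simS A M inp t a = simS A' M inp t a := sorry

/-! ### The final theorem (A~), second version -/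

theorem alg_main2 (Φ : Fields) : ∃ (A : Str → Bool) (f : ExtF Φ), IsExt Φ A f ∧
    (∃ L : Set Str, InUPO A L ∧ InUPO A Lᶜ ∧ ¬ InPPolyO (extO Φ A f) L ∧
      ∀ M : OProc, Computable M → ∃ n₀ : ℕ, ∀ n ≥ n₀, ∀ a : Str, a.length ≤ 2 ^ (n / 7) →
        ({x : Str | x.length = n ∧ ∃ v : Bool,
          RunsTo (extO Φ A f) M (pairStr (x, a)) (2 ^ (n / 7)) v ∧
            (x ∈ L ↔ v = true)}.ncard : ℝ) ≤ (1 / 2 + 1 / 2 ^ (n / 7)) * 2 ^ n) ∧
    ∃ R : Set Str, InNPO A R ∧
      (∀ L, InNPO (extO Φ A f) L → ∃ g : Str → Str, PolyTime (fun x => x) (fun x => x) g ∧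
        ∀ x, x ∈ L ↔ g x ∈ R) ∧
      ∃ D : List Str → Str, PolyTimeO A seqBits D ∧
        (∀ (n : ℕ) (xs : List Str), (∀ x ∈ xs, x.length ≤ n) → (D xs).length ≤ n + 3) ∧
        (∀ xs, D xs ∈ R ↔ ∃ x ∈ xs, x ∈ R) ∧
        ∀ M : OProc, Computable M → ∃ n₀ : ℕ, ∀ n ≥ n₀, ∀ xs ys : List Str,
          RunsOut (extO Φ A f) M (List.replicate n true) (2 ^ (n / 7))
            (pairStr (seqBits xs, seqBits ys)) →
          (seqBits xs).length ≤ 2 ^ (n / 7) → (seqBits ys).length ≤ 2 ^ (n / 7) →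
          (∃ x ∈ xs, n ≤ x.length) → xs ≠ ys → D xs ≠ D ys := sorry

end OAlgPlan2
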